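import Pool.Agent.Lib.MP_d97911_gt.Sigma

/-! The two subfamilies are arc bases and the three arcs cobound a region. -/

namespace Pool.Agent.Lib.MP_d97911_gt

open Finset Relation

/-- The edges of the arcs of a family, as a list. -/
def cutL (ls : List (List ℕ)) : List (ℕ × ℕ) := ls.flatMap fun l => l.zip l.tail ++ l.tail.zip l

theorem basis_of {g : ℕ} (Z : Arcs ℕ g) {C : List (ℕ × ℕ)} (hC : Z.cut = C.toFinset)
    (tb : List (List (ℕ × ℕ × ℕ))) (rt : List (ℕ × ℕ))
    (H1 : ∀ v ∈ vs, ∀ p ∈ pr (stOf tbP) v,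
      (look (fun v => tb.getD v []) (v, p.1)).1 = (look (fun v => tb.getD v []) (p.1, p.2)).1 ∧
      ((v, p.1) ∈ C ∨ v ∉ dl (stOf tbP) p.1 ∨
        (look (fun v => tb.getD v []) (v, p.1)).1 = (look (fun v => tb.getD v []) (p.1, v)).1))
    (H2 : ∀ v ∈ vs, ∀ p ∈ pr (stOf tbP) v,
      (v, p.1) = rt.getD (look (fun v => tb.getD v []) (v, p.1)).1 (0, 0) ∨
      ((look (fun v => tb.getD v []) (p.1, p.2)).1 = (look (fun v => tb.getD v []) (v, p.1)).1 ∧
        (look (fun v => tb.getD v []) (p.1, p.2)).2 < (look (fun v => tb.getD v []) (v, p.1)).2) ∨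
      ((look (fun v => tb.getD v []) (p.1, v)).1 = (look (fun v => tb.getD v []) (v, p.1)).1 ∧
        (look (fun v => tb.getD v []) (p.1, v)).2 < (look (fun v => tb.getD v []) (v, p.1)).2 ∧
        (v, p.1) ∉ C ∧ v ∈ dl (stOf tbP) p.1)) :
    (∀ e f, EqvGen (Step ob.P Z.cut) e f →
      (look (fun v => tb.getD v []) e).1 = (look (fun v => tb.getD v []) f).1) ∧
    ∀ e ∈ darts ob.P, EqvGen (Step ob.P Z.cut) e
      (rt.getD (look (fun v => tb.getD v []) e).1 (0, 0)) := by
  rw [hC]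
  refine ⟨fun e f h => presP.step_inv (fun e => (look (fun v => tb.getD v []) e).1) ?_ h,
    fun e he => presP.step_root surfP (fun e => (look (fun v => tb.getD v []) e).1)
      (fun e => (look (fun v => tb.getD v []) e).2) (fun k => rt.getD k (0, 0)) ?_ he⟩
  · simpa only [List.mem_toFinset] using H1
  · simpa only [List.mem_toFinset] using H2

theorem isBasis_of {g : ℕ} (Z : Arcs ℕ g) (lab : ℕ × ℕ → ℕ) (rt : ℕ → ℕ × ℕ)
    (h : (∀ e f, EqvGen (Step ob.P Z.cut) e f → lab e = lab f) ∧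
      ∀ e ∈ darts ob.P, EqvGen (Step ob.P Z.cut) e (rt (lab e)))
    (H1 : ∀ v ∈ vs, ∀ p ∈ pr (stOf tbP) v, rt (lab (v, p.1)) ∈ frP)
    (H2 : ∀ e ∈ frP, e.1 ∈ arcsP.getD (lab e) [] ∧ arcsP.getD (lab e) [] ∈ arcsP) :
    Z.IsBasis ob := by
  have h3 : ∀ l ∈ arcsP, ∀ p ∈ l.zip l.tail, p ∈ frP := by decide +kernel
  have h4 : ∀ e ∈ darts (triOf tbP), rt (lab e) ∈ frP := fun e he =>
    presP.forall_dart (φ := fun e => rt (lab e) ∈ frP) H1 he
  have h5 : ∀ l ∈ arcsP, ∀ a ∈ l, ∀ b ∈ l, EqvGen (fun a b => (a, b) ∈ frP.toFinset) a b :=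
    fun l hl => eqvGen_of_zip l fun p hp => List.mem_toFinset.2 (h3 l hl (p.1, p.2) hp)
  unfold Arcs.IsBasis
  rw [obFP]
  constructor
  · intro e he
    exact ⟨rt (lab e), List.mem_toFinset.2 (h4 e he), h.2 e he⟩
  · intro e he f hf hef
    have h1 := H2 e (List.mem_toFinset.1 he)
    have h2 := H2 f (List.mem_toFinset.1 hf)
    rw [← h.1 e f hef] at h2
    exact h5 _ h1.2 _ h1.1 _ h2.1

theorem z12_basis : z12.IsBasis ob :=
  isBasis_of z12 _ (fun k => rtP12.getD k (0, 0))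
    (basis_of z12 (C := cutL [la1, la2]) (by decide +kernel) labP12 rtP12 (by decide +kernel)
      (by decide +kernel)) (by decide +kernel) (by decide +kernel)

theorem z13_basis : z13.IsBasis ob :=
  isBasis_of z13 _ (fun k => rtP13.getD k (0, 0))
    (basis_of z13 (C := cutL [la1, la3]) (by decide +kernel) labP13 rtP13 (by decide +kernel)
      (by decide +kernel)) (by decide +kernel) (by decide +kernel)

theorem arcs_cobound : arcs.Cobound ob := by
  obtain ⟨h1, h2⟩ := basis_of arcs (C := cutL [la1, la2, la3]) (by decide +kernel) labP123 rtP123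
    (by decide +kernel) (by decide +kernel)
  rw [Arcs.Cobound, obFP]
  refine ⟨(2, 3), (presP.dart _).2 (by decide +kernel), fun f hf h => ?_, fun i => ?_⟩
  · have := h1 _ _ h
    rw [List.mem_toFinset] at hf
    clear h
    revert f
    decide +kernel
  · have h3 : ∀ i : Fin 3, cob.getD i (0, 0) ∈ edges (arcs.a i) ∧
        rtP123.getD (look (fun v => labP123.getD v []) (cob.getD i (0, 0))).1 (0, 0) = (2, 3) := by
      decide +kernel
    refine ⟨_, (h3 i).1, ?_⟩
    have := h2 _ ((arcA i).inner (h3 i).1)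
    rw [(h3 i).2] at this
    exact this.symm _ _

end Pool.Agent.Lib.MP_d97911_gt
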