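import Pool.Agent.Lib.MP_d97911_gt.Defs

/-! Certificates for the finite checks. -/

namespace Pool.Agent.Lib.MP_d97911_gt

open Finset Relation

variable {V : Type} [DecidableEq V]

/-- Consecutive pairs of the rotation list at `v`. -/
def pr (st : V → List V) (v : V) : List (V × V) := (st v).zip (st v).tail

/-- Darts starting at `v`. -/
def dl (st : V → List V) (v : V) : List V := (pr st v).map Prod.fst

/-- `T` is presented by rotation lists. -/
structure Pres (T : Tri V) (st : V → List V) (vs : List V) : Prop where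
  mem : ∀ v a b, (v, a, b) ∈ T ↔ (a, b) ∈ pr st v
  supp : ∀ v, v ∉ vs → st v = []

/-- The triangles described by rotation lists. -/
def ofStars (st : V → List V) (vs : List V) : Tri V :=
  (vs.flatMap fun v => (pr st v).map fun p => (v, p.1, p.2)).toFinset

theorem pres_ofStars {st : V → List V} {vs : List V} (h : ∀ v, v ∉ vs → st v = []) :
    Pres (ofStars st vs) st vs := by
  refine ⟨fun v a b => ?_, h⟩
  simp only [ofStars, List.mem_toFinset, List.mem_flatMap, List.mem_map, Prod.mk.injEq]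
  constructor
  · rintro ⟨w, -, p, hp, rfl, rfl, rfl⟩; exact hp
  · intro hp
    refine ⟨v, ?_, (a, b), hp, rfl, rfl, rfl⟩
    by_contra hv
    simp [pr, h v hv] at hp

theorem getD_supp {α : Type} (tb : List (List α)) {n : ℕ} (h : tb.length ≤ n) (v : ℕ)
    (hv : v ∉ List.range n) : tb.getD v [] = [] := by
  rw [List.mem_range, not_lt] at hv
  exact List.getD_eq_default _ _ (h.trans hv)

namespace Pres

variable {T : Tri V} {st : V → List V} {vs : List V}

theorem mem_vs (h : Pres T st vs) {v : V} {p : V × V} (hp : p ∈ pr st v) : v ∈ vs := by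
  by_contra hv
  simp [pr, h.supp v hv] at hp

theorem dart (h : Pres T st vs) (e : V × V) : e ∈ darts T ↔ e.2 ∈ dl st e.1 := by
  obtain ⟨v, a⟩ := e
  simp only [darts, dl, mem_image, Prod.mk.injEq, List.mem_map]
  constructor
  · rintro ⟨⟨u, b, c⟩, ht, rfl, rfl⟩; exact ⟨(b, c), (h.mem _ _ _).1 ht, rfl⟩
  · rintro ⟨⟨b, c⟩, hp, rfl⟩; exact ⟨(v, b, c), (h.mem _ _ _).2 hp, rfl, rfl⟩

theorem forall_tri (h : Pres T st vs) {φ : V → V → V → Prop}
    (H : ∀ v ∈ vs, ∀ p ∈ pr st v, φ v p.1 p.2) {a b c : V} (ht : (a, b, c) ∈ T) : φ a b c :=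
  H a (h.mem_vs ((h.mem _ _ _).1 ht)) (b, c) ((h.mem _ _ _).1 ht)

theorem forall_dart (h : Pres T st vs) {φ : V × V → Prop}
    (H : ∀ v ∈ vs, ∀ p ∈ pr st v, φ (v, p.1)) {e : V × V} (he : e ∈ darts T) : φ e := by
  obtain ⟨⟨u, b, c⟩, ht, rfl⟩ := mem_image.1 he
  exact h.forall_tri (φ := fun a b _ => φ (a, b)) H ht

theorem bdry_iff (h : Pres T st vs) (e : V × V) :
    e ∈ bdry T ↔ e.2 ∈ dl st e.1 ∧ e.1 ∉ dl st e.2 := by
  simp only [bdry, mem_filter, h.dart, Prod.fst_swap, Prod.snd_swap]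

end Pres

theorem eqvGen_of_zip {α : Type} {r : α → α → Prop} :
    ∀ (l : List α), (∀ p ∈ l.zip l.tail, r p.1 p.2) → ∀ a ∈ l, ∀ b ∈ l, EqvGen r a b
  | [], _, a, ha, _, _ => by simp at ha
  | [x], _, a, ha, b, hb => by
    rw [List.mem_singleton] at ha hb; rw [ha, hb]; exact EqvGen.refl _
  | x :: y :: l, h, a, ha, b, hb => by
    have ih := eqvGen_of_zip (y :: l) fun p hp => h p (by simp at hp ⊢; exact Or.inr hp)
    have hxy : EqvGen r x y := EqvGen.rel _ _ (h (x, y) (by simp))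
    have key : ∀ a ∈ x :: y :: l, EqvGen r a y := by
      intro a ha
      rcases List.mem_cons.1 ha with rfl | ha
      · exact hxy
      · exact ih a ha y (by simp)
    exact (key a ha).trans _ _ _ ((key b hb).symm _ _)

theorem rtg_of_zip {α : Type} {r : α → α → Prop} :
    ∀ (l : List α) (x : α), (∀ p ∈ (x :: l).zip l, r p.1 p.2) → ∀ b ∈ x :: l, ReflTransGen r x b
  | [], x, _, b, hb => by rw [List.mem_singleton] at hb; rw [hb]
  | y :: l, x, h, b, hb => by
    rcases List.mem_cons.1 hb with rfl | hb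
    · exact ReflTransGen.refl
    · exact ReflTransGen.head (h (x, y) (by simp))
        (rtg_of_zip l y (fun p hp => h p (by simp at hp ⊢; exact Or.inr hp)) b hb)

theorem eqvGen_inv {α β : Type} {r : α → α → Prop} (f : α → β) (h : ∀ a b, r a b → f a = f b)
    {a b : α} (hab : EqvGen r a b) : f a = f b := by
  induction hab with
  | rel a b h' => exact h a b h'
  | refl => rfl
  | symm _ _ _ ih => exact ih.symm
  | trans _ _ _ _ _ ih1 ih2 => exact ih1.trans ih2

theorem eqvGen_root {α : Type} {r : α → α → Prop} (good : α → Prop) (rt par : α → α) (rk : α → ℕ)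
    (h : ∀ a, good a → a = rt a ∨
      (EqvGen r a (par a) ∧ good (par a) ∧ rt (par a) = rt a ∧ rk (par a) < rk a)) :
    ∀ a, good a → EqvGen r a (rt a) := by
  intro a
  induction hn : rk a using Nat.strong_induction_on generalizing a with
  | _ n ih =>
    intro ha
    rcases h a ha with h1 | ⟨h1, h2, h3, h4⟩
    · rw [← h1]; exact EqvGen.refl _
    · rw [← h3]; exact h1.trans _ _ _ (ih _ (hn ▸ h4) _ rfl h2)

namespace Pres

variable {T T' U : Tri V} {st st' su : V → List V} {vs : List V}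

theorem isSurf (h : Pres T st vs)
    (H1 : ∀ v ∈ vs, ∀ p ∈ pr st v, (p.2, v) ∈ pr st p.1 ∧ v ≠ p.1 ∧ (v, p.2) ∉ pr st p.1)
    (H2 : ∀ v ∈ vs, (dl st v).Nodup) : IsSurf T := by
  have H := fun {a b c : V} (ht : (a, b, c) ∈ T) => h.forall_tri
    (φ := fun v a b => (b, v) ∈ pr st a ∧ v ≠ a ∧ (v, b) ∉ pr st a) H1 ht
  refine ⟨fun a b c ht => (h.mem _ _ _).2 (H ht).1, fun a b c ht => (H ht).2.1,
    fun a b c ht h2 => (H ht).2.2 ((h.mem _ _ _).1 h2), fun a b c d h1 h2 => ?_,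
    fun v a b c d h1 h2 => ?_⟩
  · rw [h.mem] at h1 h2
    have := List.inj_on_of_nodup_map (H2 a (h.mem_vs h1)) h1 h2 rfl
    exact (Prod.mk.inj this).2
  · rw [h.mem] at h1 h2
    exact eqvGen_of_zip (st v) (fun p hp => (h.mem v p.1 p.2).2 hp) a (List.of_mem_zip h1).1 c
      (List.of_mem_zip h2).1

theorem conn (h : Pres T st vs) (root : V) (par : V → V) (rk : V → ℕ)
    (H : ∀ v ∈ vs, pr st v = [] ∨ v = root ∨
      ((par v ∈ dl st v ∨ v ∈ dl st (par v)) ∧ pr st (par v) ≠ [] ∧ rk (par v) < rk v)) :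
    Conn T := by
  have key := eqvGen_root (r := fun a b => (a, b) ∈ darts T) (fun v => pr st v ≠ [])
    (fun _ => root) par rk (fun v hv => by
      obtain ⟨p, hp⟩ := List.exists_mem_of_ne_nil _ hv
      rcases H v (h.mem_vs hp) with h1 | h1 | ⟨h1, h2, h3⟩
      · exact absurd h1 hv
      · exact Or.inl h1
      · refine Or.inr ⟨?_, h2, rfl, h3⟩
        rcases h1 with h1 | h1
        · exact EqvGen.rel _ _ ((h.dart _).2 h1)
        · exact (EqvGen.rel _ _ ((h.dart (par v, v)).2 h1)).symm _ _)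
  rintro ⟨a, b, c⟩ hs ⟨a', b', c'⟩ ht
  exact (key a (List.ne_nil_of_mem ((h.mem _ _ _).1 hs))).trans _ _ _
    ((key a' (List.ne_nil_of_mem ((h.mem _ _ _).1 ht))).symm _ _)

theorem card_fib {β : Type} [DecidableEq β] (s : Finset (V × β)) (hvs : vs.Nodup)
    (f : V → List β) (hs : ∀ v b, (v, b) ∈ s ↔ v ∈ vs ∧ b ∈ f v) :
    s.card = (vs.map fun v => (f v).dedup.length).sum := by
  have : s = vs.toFinset.biUnion fun v => (f v).toFinset.map ⟨fun b => (v, b), fun _ _ h => by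
      simpa using h⟩ := by
    ext ⟨v, b⟩
    simp only [hs, mem_biUnion, List.mem_toFinset, mem_map]
    constructor
    · rintro ⟨h1, h2⟩; exact ⟨v, h1, b, h2, rfl⟩
    · rintro ⟨w, h1, c, h2, h3⟩
      obtain ⟨rfl, rfl⟩ : w = v ∧ c = b := Prod.mk.inj h3
      exact ⟨h1, h2⟩
  rw [this, card_biUnion, ← List.sum_toFinset _ hvs]
  · refine sum_congr rfl fun v _ => ?_
    rw [card_map, List.card_toFinset]
  · intro v _ w _ hvw
    simp only [Function.onFun]
    rw [disjoint_left]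
    intro p h1 h2
    obtain ⟨b, -, rfl⟩ := mem_map.1 h1
    obtain ⟨c, -, h3⟩ := mem_map.1 h2
    exact hvw (Prod.mk.inj h3).1.symm

theorem chi_eq (h : Pres T st vs) (hs : IsSurf T) (hvs : vs.Nodup) {n1 n2 n3 : ℕ}
    (h1 : (vs.filter fun v => pr st v ≠ []).length = n1)
    (h2 : (vs.map fun v => (dl st v ++ (pr st v).map Prod.snd).dedup.length).sum = n2)
    (h3 : (vs.map fun v => (pr st v).dedup.length).sum = n3) :
    chi T = n1 - (n2 : ℚ) / 2 + (n3 : ℚ) / 3 := by
  have e1 : (T.image Prod.fst).card = n1 := by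
    rw [← h1, ← List.toFinset_card_of_nodup (hvs.filter _)]
    congr 1
    ext v
    simp only [mem_image, List.mem_toFinset, List.mem_filter, decide_eq_true_eq]
    constructor
    · rintro ⟨⟨a, b, c⟩, ht, rfl⟩
      rw [h.mem] at ht
      exact ⟨h.mem_vs ht, List.ne_nil_of_mem ht⟩
    · rintro ⟨-, hv⟩
      obtain ⟨p, hp⟩ := List.exists_mem_of_ne_nil _ hv
      exact ⟨(v, p.1, p.2), (h.mem _ _ _).2 hp, rfl⟩
  have e2 : (darts T ∪ (darts T).image Prod.swap).card = n2 := by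
    rw [← h2]
    refine card_fib _ hvs _ fun v b => ?_
    simp only [mem_union, List.mem_append]
    constructor
    · rintro (hd | hd)
      · have := (h.dart _).1 hd
        obtain ⟨p, hp, -⟩ := List.mem_map.1 this
        exact ⟨h.mem_vs hp, Or.inl this⟩
      · obtain ⟨e, he, h4⟩ := mem_image.1 hd
        obtain ⟨⟨a, a', c⟩, ht, rfl⟩ := mem_image.1 he
        obtain ⟨rfl, rfl⟩ := Prod.mk.inj h4
        have := (h.mem _ _ _).1 (hs.rot _ _ _ ht)
        exact ⟨h.mem_vs this, Or.inr (List.mem_map.2 ⟨_, this, rfl⟩)⟩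
    · rintro ⟨-, hd | hd⟩
      · exact Or.inl ((h.dart (v, b)).2 hd)
      · obtain ⟨⟨c, b'⟩, hp, rfl⟩ := List.mem_map.1 hd
        have := hs.rot _ _ _ (hs.rot _ _ _ ((h.mem _ _ _).2 hp))
        exact Or.inr (mem_image.2 ⟨(b', v), mem_image.2 ⟨_, this, rfl⟩, rfl⟩)
  have e3 : T.card = n3 := by
    rw [← h3]
    refine card_fib _ hvs _ fun v b => ?_
    rw [h.mem]
    exact ⟨fun hp => ⟨h.mem_vs hp, hp⟩, fun hp => hp.2⟩
  rw [chi, e1, e2, e3]

theorem subset (h : Pres T st vs) (h' : Pres T' st' vs)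
    (H : ∀ v ∈ vs, ∀ p ∈ pr st v, p ∈ pr st' v) : T ⊆ T' := by
  rintro ⟨a, b, c⟩ ht
  exact (h'.mem _ _ _).2 (h.forall_tri (φ := fun v a b => (a, b) ∈ pr st' v) H ht)

theorem disjoint (h : Pres T st vs) (h' : Pres T' st' vs)
    (H : ∀ v ∈ vs, ∀ p ∈ pr st v, p ∉ pr st' v) : Disjoint T T' := by
  rw [disjoint_left]
  rintro ⟨a, b, c⟩ ht ht'
  exact h.forall_tri (φ := fun v a b => (a, b) ∉ pr st' v) H ht ((h'.mem _ _ _).1 ht')

theorem union_eq (h : Pres T st vs) (h' : Pres T' st' vs) (hu : Pres U su vs)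
    (H1 : ∀ v ∈ vs, ∀ p ∈ pr st v, p ∈ pr su v) (H2 : ∀ v ∈ vs, ∀ p ∈ pr st' v, p ∈ pr su v)
    (H3 : ∀ v ∈ vs, ∀ p ∈ pr su v, p ∈ pr st v ∨ p ∈ pr st' v) : T ∪ T' = U := by
  refine Subset.antisymm (union_subset (h.subset hu H1) (h'.subset hu H2)) ?_
  rintro ⟨a, b, c⟩ ht
  rw [mem_union, h.mem, h'.mem]
  exact hu.forall_tri (φ := fun v a b => (a, b) ∈ pr st v ∨ (a, b) ∈ pr st' v) H3 ht

/-- Labels of darts that are constant along steps. -/
theorem step_inv (h : Pres T st vs) {C : Finset (V × V)} (lab : V × V → ℕ)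
    (H : ∀ v ∈ vs, ∀ p ∈ pr st v, lab (v, p.1) = lab (p.1, p.2) ∧
      ((v, p.1) ∈ C ∨ v ∉ dl st p.1 ∨ lab (v, p.1) = lab (p.1, v)))
    {e f : V × V} (hef : EqvGen (Step T C) e f) : lab e = lab f := by
  refine eqvGen_inv lab ?_ hef
  rintro ⟨a, b⟩ ⟨c, d⟩ (⟨h1, h2⟩ | ⟨h1, h2, h3, h4⟩)
  · simp only at h1 h2
    subst h1
    exact (h.forall_tri (φ := fun v a b => lab (v, a) = lab (a, b) ∧
      ((v, a) ∈ C ∨ v ∉ dl st a ∨ lab (v, a) = lab (a, v))) H h2).1
  · obtain ⟨rfl, rfl⟩ := Prod.mk.inj h1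
    obtain ⟨⟨u, v, w⟩, ht, h5⟩ := mem_image.1 h2
    obtain ⟨rfl, rfl⟩ := Prod.mk.inj h5
    rcases (h.forall_tri (φ := fun v a b => lab (v, a) = lab (a, b) ∧
      ((v, a) ∈ C ∨ v ∉ dl st a ∨ lab (v, a) = lab (a, v))) H ht).2 with h6 | h6 | h6
    · exact absurd h6 h4
    · exact absurd ((h.dart _).1 h3) h6
    · exact h6

/-- Every dart is joined to the root of its label. -/
theorem step_root (h : Pres T st vs) (hs : IsSurf T) {C : Finset (V × V)} (lab rk : V × V → ℕ)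
    (rt : ℕ → V × V)
    (H : ∀ v ∈ vs, ∀ p ∈ pr st v, (v, p.1) = rt (lab (v, p.1)) ∨
      (lab (p.1, p.2) = lab (v, p.1) ∧ rk (p.1, p.2) < rk (v, p.1)) ∨
      (lab (p.1, v) = lab (v, p.1) ∧ rk (p.1, v) < rk (v, p.1) ∧ (v, p.1) ∉ C ∧ v ∈ dl st p.1))
    {e : V × V} (he : e ∈ darts T) : EqvGen (Step T C) e (rt (lab e)) := by
  induction hn : rk e using Nat.strong_induction_on generalizing e with
  | _ n ih =>
    obtain ⟨⟨a, b, c⟩, ht, rfl⟩ := mem_image.1 he
    rcases h.forall_tri (φ := fun v a b => (v, a) = rt (lab (v, a)) ∨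
      (lab (a, b) = lab (v, a) ∧ rk (a, b) < rk (v, a)) ∨
      (lab (a, v) = lab (v, a) ∧ rk (a, v) < rk (v, a) ∧ (v, a) ∉ C ∧ v ∈ dl st a)) H ht with
      h1 | ⟨h1, h2⟩ | ⟨h1, h2, h3, h4⟩
    · simp only at h1 ⊢; rw [← h1]; exact EqvGen.refl _
    · simp only at hn ⊢
      rw [← h1]
      exact (EqvGen.rel _ (b, c) (Or.inl ⟨rfl, ht⟩)).trans _ _ _
        (ih _ (hn ▸ h2) (mem_image.2 ⟨_, hs.rot _ _ _ ht, rfl⟩) rfl)
    · simp only at hn ⊢
      rw [← h1]
      have h5 : (b, a) ∈ darts T := (h.dart _).2 h4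
      exact (EqvGen.rel _ (b, a) (Or.inr ⟨rfl, he, h5, h3⟩)).trans _ _ _ (ih _ (hn ▸ h2) h5 rfl)

end Pres

/-- Table lookup of a label and a rank for a dart. -/
def look (tb : V → List (V × ℕ × ℕ)) (e : V × V) : ℕ × ℕ := ((tb e.1).lookup e.2).getD (0, 0)

namespace Diagram

variable {W : Type} [DecidableEq W] {g : ℕ} {H : Diagram W g}

theorem IsDomain.step {x y : H.Gen} {D : W × W → ℕ} (h : IsDomain x y D) {e f : W × W}
    (hef : EqvGen (Step H.T H.cur) e f) : D e = D f := by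
  refine eqvGen_inv D ?_ hef
  rintro ⟨a, b⟩ ⟨c, d⟩ (⟨h1, h2⟩ | ⟨h1, -, -, h4⟩)
  · simp only at h1 h2
    subst h1
    exact h.face _ _ _ h2
  · rw [h1]; exact h.flip _ h4

theorem IsDomain.bdry_zero {x y : H.Gen} {D : W × W → ℕ} (h : IsDomain x y D) {e : W × W}
    (h1 : e ∉ H.cur) (h2 : e.swap ∉ darts H.T) : D e = 0 := by
  rw [h.flip e h1, h.supp _ h2]

theorem maslov_zero (x y : H.Gen) : maslov x y (fun _ => 0) = 0 := by
  have : ∀ s : Finset (W × W), s.sup (fun _ => (0 : ℕ)) = 0 := fun s => Finset.sup_bot s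
  simp [maslov, euler, chiD, corner, Gen.n, this]

theorem chiD_ind (R : Finset (W × W)) (hR : R ⊆ darts H.T) :
    H.chiD (fun e => if e ∈ R then 1 else 0) =
      (R.card : ℚ) / 3 - ((R \ H.cur).card : ℚ) / 2 + ((R.image Prod.fst \ ends H.cur).card : ℚ) := by
  have e1 : ∑ e ∈ darts H.T, (if e ∈ R then 1 else 0) = R.card := by
    rw [← card_filter, filter_mem_eq_inter, inter_eq_right.2 hR]
  have e2 : ∑ e ∈ darts H.T \ H.cur, (if e ∈ R then 1 else 0) = (R \ H.cur).card := by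
    rw [← card_filter, filter_mem_eq_inter]
    congr 1
    ext e
    simp only [mem_inter, mem_sdiff]
    exact ⟨fun h => ⟨h.2, h.1.2⟩, fun h => ⟨⟨hR h.1, h.2⟩, h.1⟩⟩
  have e3 : ∑ v ∈ ends (darts H.T) \ ends H.cur,
      ((darts H.T).filter fun e => e.1 = v).sup (fun e => if e ∈ R then 1 else 0) =
      (R.image Prod.fst \ ends H.cur).card := by
    have : ∀ v, ((darts H.T).filter fun e => e.1 = v).sup (fun e => if e ∈ R then 1 else 0) =
        if v ∈ R.image Prod.fst then 1 else 0 := by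
      intro v
      split_ifs with hv
      · obtain ⟨e, he, rfl⟩ := mem_image.1 hv
        apply le_antisymm
        · exact Finset.sup_le fun f _ => by split_ifs <;> simp
        · have := Finset.le_sup (f := fun e => if e ∈ R then 1 else 0)
            (mem_filter.2 ⟨hR he, rfl⟩ : e ∈ (darts H.T).filter fun f => f.1 = e.1)
          simpa [he] using this
      · refine Nat.le_zero.1 (Finset.sup_le fun f hf => ?_)
        rw [if_neg]
        intro hR'
        exact hv (mem_image.2 ⟨f, hR', (mem_filter.1 hf).2⟩)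
    simp only [this]
    rw [← card_filter, filter_mem_eq_inter]
    congr 1
    ext v
    simp only [mem_inter, mem_sdiff]
    refine ⟨fun h => ⟨h.2, h.1.2⟩, fun h => ⟨⟨?_, h.2⟩, h.1⟩⟩
    exact mem_union_left _ (image_subset_image hR h.1)
  rw [chiD, e1, e2, e3]

theorem Gen.ext' {x y : H.Gen} (h1 : x.σ = y.σ) (h2 : x.pt = y.pt) : x = y := by
  cases x; cases y; simp only at h1 h2; subst h1 h2; rfl

theorem Gen.ind_nonneg (x : H.Gen) (p : W) : 0 ≤ x.ind p := by simp [Gen.ind]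

theorem Gen.exists_of_ind {x : H.Gen} {p : W} (h : x.ind p ≠ 0) : ∃ i, x.pt i = p := by
  by_contra h1
  apply h
  simp only [Gen.ind, Nat.cast_eq_zero, card_eq_zero, filter_eq_empty_iff]
  exact fun i _ hi => h1 ⟨i, hi⟩

theorem AT_eq_zero_iff (cnt : H.Count) (z : H.Gen) :
    AT cnt z = 0 ↔ open Classical in ∃ c, bd cnt 0 c = Pi.single z 1 := by
  classical
  have h0 : Vanishes cnt (Pi.single z 1) 0 ↔ ∃ c, bd cnt 0 c = Pi.single z 1 := by
    constructor
    · rintro ⟨c, -, hc⟩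
      exact ⟨c 0, by simpa using hc 0⟩
    · rintro ⟨c, hc⟩
      refine ⟨fun i => if i = 0 then c else 0, fun i hi => if_neg hi.ne', fun j => ?_⟩
      by_cases hj : j = 0
      · simp [hj, hc]
      · simp only [zero_add, range_one, sum_singleton, hj, if_false]
        funext y
        simp [bd]
  rw [← h0, AT]
  constructor
  · intro h
    by_contra h1
    have : (1 : ℕ∞) ≤ ⨅ (k : ℕ) (_ : Vanishes cnt (Pi.single z 1) k), (k : ℕ∞) := by
      refine le_iInf₂ fun k hk => ?_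
      rcases Nat.eq_zero_or_pos k with rfl | h2
      · exact absurd hk h1
      · exact_mod_cast h2
    rw [h] at this
    simp at this
  · intro h
    exact le_antisymm ((iInf₂_le 0 h).trans (by simp)) (by simp)

end Diagram

end Pool.Agent.Lib.MP_d97911_gt
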