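import Pool.Agent.Lib.MP_d97911_gt.Check

/-! Tables describing the example. -/

namespace Pool.Agent.Lib.MP_d97911_gt

def tbS : List (List ℕ) :=
  [[1, 18, 99, 61, 65, 93, 96], [2, 19, 18, 0], [3, 21, 20, 19, 1], [4, 23, 21, 2], [5, 26, 25,
  23, 3], [97, 48, 47, 26, 4], [7, 27, 73, 69, 98], [8, 28, 27, 6], [9, 30, 29, 28, 7], [10, 32,
  30, 8], [11, 35, 34, 32, 9], [98, 69, 70, 35, 10], [13, 36, 52, 48, 97], [14, 37, 36, 12], [15,
  39, 38, 37, 13], [16, 41, 39, 14], [17, 44, 43, 41, 15], [96, 93, 92, 91, 44, 16], [0, 1, 19,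
  99, 0], [1, 2, 20, 94, 99, 18, 1], [2, 21, 23, 22, 100, 94, 19, 2], [2, 3, 23, 20, 2], [20, 23,
  25, 24, 72, 76, 100, 20], [3, 4, 25, 22, 20, 21, 3], [22, 25, 46, 45, 93, 72, 22], [4, 26, 47,
  46, 24, 22, 23, 4], [4, 5, 47, 25, 4], [6, 7, 28, 77, 73, 6], [7, 8, 29, 81, 77, 27, 7], [8, 30,
  32, 31, 85, 81, 28, 8], [8, 9, 32, 29, 8], [29, 32, 34, 33, 89, 85, 29], [9, 10, 34, 31, 29, 30,
  9], [31, 34, 67, 68, 42, 89, 31], [10, 35, 95, 67, 33, 31, 32, 10], [10, 11, 70, 95, 34, 10],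
  [12, 13, 37, 56, 52, 12], [13, 14, 38, 60, 56, 36, 13], [14, 39, 41, 40, 64, 60, 37, 14], [14,
  15, 41, 38, 14], [38, 41, 43, 42, 68, 64, 38], [15, 16, 43, 40, 38, 39, 15], [33, 68, 40, 43,
  90, 89, 33], [16, 44, 91, 90, 42, 40, 41, 16], [16, 17, 91, 43, 16], [24, 46, 50, 49, 101, 88,
  92, 93, 24], [24, 25, 47, 51, 50, 45, 24], [5, 48, 52, 51, 46, 25, 26, 5], [5, 97, 12, 52, 47,
  5], [45, 50, 54, 53, 101, 45], [45, 46, 51, 55, 54, 49, 45], [46, 47, 52, 56, 55, 50, 46], [12,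
  36, 56, 51, 47, 48, 12], [49, 54, 58, 57, 94, 101, 49], [49, 50, 55, 59, 58, 53, 49], [50, 51,
  56, 60, 59, 54, 50], [36, 37, 60, 55, 51, 52, 36], [53, 58, 62, 61, 99, 94, 53], [53, 54, 59,
  63, 62, 57, 53], [54, 55, 60, 64, 63, 58, 54], [37, 38, 64, 59, 55, 56, 37], [0, 99, 57, 62, 66,
  65, 0], [57, 58, 63, 67, 66, 61, 57], [58, 59, 64, 68, 67, 62, 58], [38, 40, 68, 63, 59, 60,
  38], [0, 61, 66, 71, 72, 93, 0], [61, 62, 67, 95, 71, 65, 61], [33, 34, 95, 66, 62, 63, 68, 33],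
  [33, 67, 63, 64, 40, 42, 33], [6, 73, 74, 70, 11, 98, 6], [11, 69, 74, 75, 71, 95, 35, 11], [65,
  66, 95, 70, 75, 76, 72, 65], [22, 24, 93, 65, 71, 76, 22], [6, 27, 77, 78, 74, 69, 6], [69, 73,
  78, 79, 75, 70, 69], [70, 74, 79, 80, 76, 71, 70], [22, 72, 71, 75, 80, 100, 22], [27, 28, 81,
  82, 78, 73, 27], [73, 77, 82, 83, 79, 74, 73], [74, 78, 83, 84, 80, 75, 74], [75, 79, 84, 94,
  100, 76, 75], [28, 29, 85, 86, 82, 77, 28], [77, 81, 86, 87, 83, 78, 77], [78, 82, 87, 88, 84,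
  79, 78], [79, 83, 88, 101, 94, 80, 79], [29, 31, 89, 90, 86, 81, 29], [81, 85, 90, 91, 87, 82,
  81], [82, 86, 91, 92, 88, 83, 82], [45, 101, 84, 83, 87, 92, 45], [31, 33, 42, 90, 85, 31], [42,
  43, 91, 86, 85, 89, 42], [17, 92, 87, 86, 90, 43, 44, 17], [17, 93, 45, 88, 87, 91, 17], [0, 65,
  72, 24, 45, 92, 17, 96, 0], [19, 20, 100, 80, 84, 101, 53, 57, 99, 19], [34, 35, 70, 71, 66, 67,
  34], [0, 93, 17], [12, 48, 5], [6, 69, 11], [0, 18, 19, 94, 57, 61, 0], [20, 22, 76, 80, 94,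
  20], [45, 49, 53, 94, 84, 88, 45]]

def tbP : List (List ℕ) :=
  [[1, 18, 99, 61, 65], [2, 19, 18, 0], [3, 21, 20, 19, 1], [4, 23, 21, 2], [5, 26, 25, 23, 3],
  [26, 4], [7, 27, 73, 69], [8, 28, 27, 6], [9, 30, 29, 28, 7], [10, 32, 30, 8], [11, 35, 34, 32,
  9], [35, 10], [13, 36, 52, 48], [14, 37, 36, 12], [15, 39, 38, 37, 13], [16, 41, 39, 14], [17,
  44, 43, 41, 15], [44, 16], [0, 1, 19, 99, 0], [1, 2, 20, 94, 99, 18, 1], [2, 21, 23, 22, 100,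
  94, 19, 2], [2, 3, 23, 20, 2], [20, 23, 25, 24, 72, 76, 100, 20], [3, 4, 25, 22, 20, 21, 3],
  [72, 22, 25], [24, 22, 23, 4, 26], [25, 4, 5], [6, 7, 28, 77, 73, 6], [7, 8, 29, 81, 77, 27, 7],
  [8, 30, 32, 31, 85, 81, 28, 8], [8, 9, 32, 29, 8], [29, 32, 34, 33, 89, 85, 29], [9, 10, 34, 31,
  29, 30, 9], [89, 31, 34], [33, 31, 32, 10, 35], [34, 10, 11], [12, 13, 37, 56, 52, 12], [13, 14,
  38, 60, 56, 36, 13], [14, 39, 41, 40, 64, 60, 37, 14], [14, 15, 41, 38, 14], [38, 41, 43, 42,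
  68, 64, 38], [15, 16, 43, 40, 38, 39, 15], [68, 40, 43], [42, 40, 41, 16, 44], [43, 16, 17],
  [46, 50, 49, 101, 88, 92], [47, 51, 50, 45], [48, 52, 51, 46], [12, 52, 47], [45, 50, 54, 53,
  101, 45], [45, 46, 51, 55, 54, 49, 45], [46, 47, 52, 56, 55, 50, 46], [12, 36, 56, 51, 47, 48,
  12], [49, 54, 58, 57, 94, 101, 49], [49, 50, 55, 59, 58, 53, 49], [50, 51, 56, 60, 59, 54, 50],
  [36, 37, 60, 55, 51, 52, 36], [53, 58, 62, 61, 99, 94, 53], [53, 54, 59, 63, 62, 57, 53], [54,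
  55, 60, 64, 63, 58, 54], [37, 38, 64, 59, 55, 56, 37], [0, 99, 57, 62, 66, 65, 0], [57, 58, 63,
  67, 66, 61, 57], [58, 59, 64, 68, 67, 62, 58], [38, 40, 68, 63, 59, 60, 38], [0, 61, 66], [65,
  61, 62, 67], [66, 62, 63, 68], [67, 63, 64, 40, 42], [6, 73, 74, 70], [69, 74, 75, 71], [70, 75,
  76, 72], [71, 76, 22, 24], [6, 27, 77, 78, 74, 69, 6], [69, 73, 78, 79, 75, 70, 69], [70, 74,
  79, 80, 76, 71, 70], [22, 72, 71, 75, 80, 100, 22], [27, 28, 81, 82, 78, 73, 27], [73, 77, 82,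
  83, 79, 74, 73], [74, 78, 83, 84, 80, 75, 74], [75, 79, 84, 94, 100, 76, 75], [28, 29, 85, 86,
  82, 77, 28], [77, 81, 86, 87, 83, 78, 77], [78, 82, 87, 88, 84, 79, 78], [79, 83, 88, 101, 94,
  80, 79], [29, 31, 89, 90, 86, 81, 29], [81, 85, 90, 91, 87, 82, 81], [82, 86, 91, 92, 88, 83,
  82], [45, 101, 84, 83, 87, 92, 45], [90, 85, 31, 33], [91, 86, 85, 89], [92, 87, 86, 90], [45,
  88, 87, 91], [], [19, 20, 100, 80, 84, 101, 53, 57, 99, 19], [], [], [], [], [0, 18, 19, 94, 57,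
  61, 0], [20, 22, 76, 80, 94, 20], [45, 49, 53, 94, 84, 88, 45]]

def tbQ : List (List ℕ) :=
  [[1, 18], [2, 19, 18, 0], [3, 21, 20, 19, 1], [4, 23, 21, 2], [5, 26, 25, 23, 3], [48, 47, 26,
  4], [7, 27], [8, 28, 27, 6], [9, 30, 29, 28, 7], [10, 32, 30, 8], [11, 35, 34, 32, 9], [69, 70,
  35, 10], [13, 36], [14, 37, 36, 12], [15, 39, 38, 37, 13], [16, 41, 39, 14], [17, 44, 43, 41,
  15], [92, 91, 44, 16], [0, 1, 19], [18, 1, 2, 20], [19, 2, 21, 23, 22], [2, 3, 23, 20, 2], [20,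
  23, 25, 24], [3, 4, 25, 22, 20, 21, 3], [22, 25, 46, 45], [4, 26, 47, 46, 24, 22, 23, 4], [4, 5,
  47, 25, 4], [6, 7, 28], [27, 7, 8, 29], [28, 8, 30, 32, 31], [8, 9, 32, 29, 8], [29, 32, 34,
  33], [9, 10, 34, 31, 29, 30, 9], [31, 34, 67, 68], [10, 35, 95, 67, 33, 31, 32, 10], [10, 11,
  70, 95, 34, 10], [12, 13, 37], [36, 13, 14, 38], [37, 14, 39, 41, 40], [14, 15, 41, 38, 14],
  [38, 41, 43, 42], [15, 16, 43, 40, 38, 39, 15], [40, 43, 90, 89], [16, 44, 91, 90, 42, 40, 41,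
  16], [16, 17, 91, 43, 16], [24, 46, 50, 49], [24, 25, 47, 51, 50, 45, 24], [5, 48, 52, 51, 46,
  25, 26, 5], [52, 47, 5], [45, 50, 54, 53], [45, 46, 51, 55, 54, 49, 45], [46, 47, 52, 56, 55,
  50, 46], [56, 51, 47, 48], [49, 54, 58, 57], [49, 50, 55, 59, 58, 53, 49], [50, 51, 56, 60, 59,
  54, 50], [60, 55, 51, 52], [53, 58, 62, 61], [53, 54, 59, 63, 62, 57, 53], [54, 55, 60, 64, 63,
  58, 54], [64, 59, 55, 56], [57, 62, 66, 65], [57, 58, 63, 67, 66, 61, 57], [58, 59, 64, 68, 67,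
  62, 58], [68, 63, 59, 60], [61, 66, 71, 72], [61, 62, 67, 95, 71, 65, 61], [33, 34, 95, 66, 62,
  63, 68, 33], [33, 67, 63, 64], [73, 74, 70, 11], [11, 69, 74, 75, 71, 95, 35, 11], [65, 66, 95,
  70, 75, 76, 72, 65], [65, 71, 76], [77, 78, 74, 69], [69, 73, 78, 79, 75, 70, 69], [70, 74, 79,
  80, 76, 71, 70], [72, 71, 75, 80], [81, 82, 78, 73], [73, 77, 82, 83, 79, 74, 73], [74, 78, 83,
  84, 80, 75, 74], [76, 75, 79, 84], [85, 86, 82, 77], [77, 81, 86, 87, 83, 78, 77], [78, 82, 87,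
  88, 84, 79, 78], [80, 79, 83, 88], [89, 90, 86, 81], [81, 85, 90, 91, 87, 82, 81], [82, 86, 91,
  92, 88, 83, 82], [84, 83, 87, 92], [42, 90, 85], [42, 43, 91, 86, 85, 89, 42], [17, 92, 87, 86,
  90, 43, 44, 17], [88, 87, 91, 17], [], [], [34, 35, 70, 71, 66, 67, 34], [], [], [], [], [], []]

def tbR : List (List ℕ) :=
  [[65, 93, 96], [], [], [], [], [97, 48, 47, 26], [69, 98], [], [], [], [], [98, 69, 70, 35],
  [48, 97], [], [], [], [], [96, 93, 92, 91, 44], [], [], [], [], [], [], [25, 46, 45, 93, 72],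
  [26, 47, 46, 24], [5, 47, 25], [], [], [], [], [], [], [34, 67, 68, 42, 89], [35, 95, 67, 33],
  [11, 70, 95, 34], [], [], [], [], [], [], [43, 90, 89, 33, 68], [44, 91, 90, 42], [17, 91, 43],
  [92, 93, 24, 46], [45, 24, 25, 47], [46, 25, 26, 5, 48], [47, 5, 97, 12], [], [], [], [], [],
  [], [], [], [], [], [], [], [], [], [], [], [66, 71, 72, 93, 0], [67, 95, 71, 65], [68, 33, 34,
  95, 66], [42, 33, 67], [70, 11, 98, 6], [71, 95, 35, 11, 69], [72, 65, 66, 95, 70], [24, 93, 65,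
  71], [], [], [], [], [], [], [], [], [], [], [], [], [], [], [], [], [33, 42, 90], [89, 42, 43,
  91], [90, 43, 44, 17, 92], [91, 17, 93, 45], [0, 65, 72, 24, 45, 92, 17, 96, 0], [], [34, 35,
  70, 71, 66, 67, 34], [0, 93, 17], [12, 48, 5], [6, 69, 11], [], [], []]

def tbH1 : List (List ℕ) :=
  [[1, 18, 99, 61, 65], [2, 19, 18, 0], [3, 21, 20, 19, 1], [4, 23, 21, 2], [5, 26, 25, 23, 3],
  [26, 4], [7, 27, 73, 69], [8, 28, 27, 6], [9, 30, 29, 28, 7], [30, 8], [], [], [], [14, 37, 36],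
  [15, 39, 38, 37, 13], [16, 41, 39, 14], [17, 44, 43, 41, 15], [44, 16], [0, 1, 19, 99, 0], [1,
  2, 20, 94, 99, 18, 1], [2, 21, 23, 22, 100, 94, 19, 2], [2, 3, 23, 20, 2], [20, 23, 25, 24, 72,
  76, 100, 20], [3, 4, 25, 22, 20, 21, 3], [72, 22, 25], [24, 22, 23, 4, 26], [25, 4, 5], [6, 7,
  28, 77, 73, 6], [7, 8, 29, 81, 77, 27, 7], [81, 28, 8, 30], [29, 8, 9], [], [], [], [], [], [13,
  37, 56, 52], [13, 14, 38, 60, 56, 36, 13], [14, 39, 41, 40, 64, 60, 37, 14], [14, 15, 41, 38,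
  14], [38, 41, 43, 42, 68, 64, 38], [15, 16, 43, 40, 38, 39, 15], [68, 40, 43], [42, 40, 41, 16,
  44], [43, 16, 17], [], [], [], [], [50, 54, 53, 101], [51, 55, 54, 49], [52, 56, 55, 50], [36,
  56, 51], [49, 54, 58, 57, 94, 101, 49], [49, 50, 55, 59, 58, 53, 49], [50, 51, 56, 60, 59, 54,
  50], [36, 37, 60, 55, 51, 52, 36], [53, 58, 62, 61, 99, 94, 53], [53, 54, 59, 63, 62, 57, 53],
  [54, 55, 60, 64, 63, 58, 54], [37, 38, 64, 59, 55, 56, 37], [0, 99, 57, 62, 66, 65, 0], [57, 58,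
  63, 67, 66, 61, 57], [58, 59, 64, 68, 67, 62, 58], [38, 40, 68, 63, 59, 60, 38], [0, 61, 66],
  [65, 61, 62, 67], [66, 62, 63, 68], [67, 63, 64, 40, 42], [6, 73, 74, 70], [69, 74, 75, 71],
  [70, 75, 76, 72], [71, 76, 22, 24], [6, 27, 77, 78, 74, 69, 6], [69, 73, 78, 79, 75, 70, 69],
  [70, 74, 79, 80, 76, 71, 70], [22, 72, 71, 75, 80, 100, 22], [27, 28, 81, 82, 78, 73, 27], [73,
  77, 82, 83, 79, 74, 73], [74, 78, 83, 84, 80, 75, 74], [75, 79, 84, 94, 100, 76, 75], [82, 77,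
  28, 29], [83, 78, 77, 81], [84, 79, 78, 82], [101, 94, 80, 79, 83], [], [], [], [], [], [], [],
  [], [], [19, 20, 100, 80, 84, 101, 53, 57, 99, 19], [], [], [], [], [0, 18, 19, 94, 57, 61, 0],
  [20, 22, 76, 80, 94, 20], [49, 53, 94, 84]]

def tbH2 : List (List ℕ) :=
  [[], [], [], [], [], [], [], [], [], [10, 32, 30], [11, 35, 34, 32, 9], [35, 10], [13, 36, 52,
  48], [36, 12], [], [], [], [], [], [], [], [], [], [], [], [], [], [], [], [30, 32, 31, 85, 81],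
  [9, 32, 29], [29, 32, 34, 33, 89, 85, 29], [9, 10, 34, 31, 29, 30, 9], [89, 31, 34], [33, 31,
  32, 10, 35], [34, 10, 11], [52, 12, 13], [], [], [], [], [], [], [], [], [46, 50, 49, 101, 88,
  92], [47, 51, 50, 45], [48, 52, 51, 46], [12, 52, 47], [101, 45, 50], [49, 45, 46, 51], [50, 46,
  47, 52], [51, 47, 48, 12, 36], [], [], [], [], [], [], [], [], [], [], [], [], [], [], [], [],
  [], [], [], [], [], [], [], [], [], [], [], [], [29, 85, 86, 82], [81, 86, 87, 83], [82, 87, 88,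
  84], [83, 88, 101], [29, 31, 89, 90, 86, 81, 29], [81, 85, 90, 91, 87, 82, 81], [82, 86, 91, 92,
  88, 83, 82], [45, 101, 84, 83, 87, 92, 45], [90, 85, 31, 33], [91, 86, 85, 89], [92, 87, 86,
  90], [45, 88, 87, 91], [], [], [], [], [], [], [], [], [84, 88, 45, 49]]

def tbRH : List (List ℕ) :=
  [[1, 18, 99, 61, 65, 93, 96], [2, 19, 18, 0], [3, 21, 20, 19, 1], [4, 23, 21, 2], [5, 26, 25,
  23, 3], [97, 48, 47, 26, 4], [7, 27, 73, 69, 98], [8, 28, 27, 6], [9, 30, 29, 28, 7], [30, 8],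
  [], [98, 69, 70, 35], [48, 97], [14, 37, 36], [15, 39, 38, 37, 13], [16, 41, 39, 14], [17, 44,
  43, 41, 15], [96, 93, 92, 91, 44, 16], [0, 1, 19, 99, 0], [1, 2, 20, 94, 99, 18, 1], [2, 21, 23,
  22, 100, 94, 19, 2], [2, 3, 23, 20, 2], [20, 23, 25, 24, 72, 76, 100, 20], [3, 4, 25, 22, 20,
  21, 3], [22, 25, 46, 45, 93, 72, 22], [4, 26, 47, 46, 24, 22, 23, 4], [4, 5, 47, 25, 4], [6, 7,
  28, 77, 73, 6], [7, 8, 29, 81, 77, 27, 7], [81, 28, 8, 30], [29, 8, 9], [], [], [34, 67, 68, 42,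
  89], [35, 95, 67, 33], [11, 70, 95, 34], [13, 37, 56, 52], [13, 14, 38, 60, 56, 36, 13], [14,
  39, 41, 40, 64, 60, 37, 14], [14, 15, 41, 38, 14], [38, 41, 43, 42, 68, 64, 38], [15, 16, 43,
  40, 38, 39, 15], [33, 68, 40, 43, 90, 89, 33], [16, 44, 91, 90, 42, 40, 41, 16], [16, 17, 91,
  43, 16], [92, 93, 24, 46], [45, 24, 25, 47], [46, 25, 26, 5, 48], [47, 5, 97, 12], [50, 54, 53,
  101], [51, 55, 54, 49], [52, 56, 55, 50], [36, 56, 51], [49, 54, 58, 57, 94, 101, 49], [49, 50,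
  55, 59, 58, 53, 49], [50, 51, 56, 60, 59, 54, 50], [36, 37, 60, 55, 51, 52, 36], [53, 58, 62,
  61, 99, 94, 53], [53, 54, 59, 63, 62, 57, 53], [54, 55, 60, 64, 63, 58, 54], [37, 38, 64, 59,
  55, 56, 37], [0, 99, 57, 62, 66, 65, 0], [57, 58, 63, 67, 66, 61, 57], [58, 59, 64, 68, 67, 62,
  58], [38, 40, 68, 63, 59, 60, 38], [0, 61, 66, 71, 72, 93, 0], [61, 62, 67, 95, 71, 65, 61],
  [33, 34, 95, 66, 62, 63, 68, 33], [33, 67, 63, 64, 40, 42, 33], [6, 73, 74, 70, 11, 98, 6], [11,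
  69, 74, 75, 71, 95, 35, 11], [65, 66, 95, 70, 75, 76, 72, 65], [22, 24, 93, 65, 71, 76, 22], [6,
  27, 77, 78, 74, 69, 6], [69, 73, 78, 79, 75, 70, 69], [70, 74, 79, 80, 76, 71, 70], [22, 72, 71,
  75, 80, 100, 22], [27, 28, 81, 82, 78, 73, 27], [73, 77, 82, 83, 79, 74, 73], [74, 78, 83, 84,
  80, 75, 74], [75, 79, 84, 94, 100, 76, 75], [82, 77, 28, 29], [83, 78, 77, 81], [84, 79, 78,
  82], [101, 94, 80, 79, 83], [], [], [], [], [33, 42, 90], [89, 42, 43, 91], [90, 43, 44, 17,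
  92], [91, 17, 93, 45], [0, 65, 72, 24, 45, 92, 17, 96, 0], [19, 20, 100, 80, 84, 101, 53, 57,
  99, 19], [34, 35, 70, 71, 66, 67, 34], [0, 93, 17], [12, 48, 5], [6, 69, 11], [0, 18, 19, 94,
  57, 61, 0], [20, 22, 76, 80, 94, 20], [49, 53, 94, 84]]

def parS : List (ℕ × ℕ) :=
  [(99, 1), (0, 2), (19, 2), (2, 3), (3, 4), (4, 5), (69, 6), (6, 7), (29, 7), (10, 6), (34, 5),
  (70, 5), (48, 7), (37, 6), (15, 6), (16, 5), (17, 4), (93, 3), (99, 1), (99, 1), (19, 2), (2,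
  3), (20, 3), (20, 3), (93, 3), (24, 4), (25, 5), (73, 6), (77, 6), (31, 6), (32, 6), (33, 5),
  (34, 5), (67, 4), (67, 4), (95, 4), (56, 6), (60, 5), (60, 5), (15, 6), (64, 5), (16, 5), (68,
  5), (16, 5), (17, 4), (93, 3), (24, 4), (25, 5), (47, 6), (53, 3), (45, 4), (46, 5), (47, 6),
  (57, 2), (53, 3), (54, 4), (55, 5), (99, 1), (57, 2), (58, 3), (59, 4), (99, 1), (57, 2), (58,
  3), (59, 4), (0, 2), (61, 2), (62, 3), (63, 4), (70, 5), (71, 4), (65, 3), (65, 3), (74, 5),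
  (75, 4), (80, 3), (80, 3), (78, 5), (79, 4), (80, 3), (94, 2), (82, 5), (83, 4), (84, 3), (94,
  2), (86, 6), (91, 5), (92, 4), (84, 3), (33, 5), (91, 5), (17, 4), (93, 3), (0, 2), (99, 1),
  (66, 3), (0, 2), (5, 6), (11, 6), (99, 0), (94, 2), (94, 2)]

def parP : List (ℕ × ℕ) :=
  [(99, 1), (0, 2), (19, 2), (2, 3), (3, 4), (4, 5), (69, 6), (6, 7), (28, 7), (8, 8), (32, 8),
  (10, 9), (52, 7), (37, 6), (37, 6), (14, 7), (41, 7), (16, 8), (99, 1), (99, 1), (19, 2), (2,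
  3), (20, 3), (20, 3), (22, 4), (22, 4), (4, 5), (73, 6), (77, 6), (81, 6), (29, 7), (29, 7),
  (29, 7), (31, 8), (31, 8), (34, 9), (56, 6), (60, 5), (60, 5), (38, 6), (64, 5), (38, 6), (68,
  5), (40, 6), (43, 7), (101, 3), (45, 4), (46, 5), (47, 6), (53, 3), (49, 4), (50, 5), (51, 6),
  (57, 2), (53, 3), (54, 4), (55, 5), (99, 1), (57, 2), (58, 3), (59, 4), (99, 1), (57, 2), (58,
  3), (59, 4), (0, 2), (61, 2), (62, 3), (63, 4), (70, 5), (75, 4), (75, 4), (22, 4), (74, 5),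
  (75, 4), (80, 3), (80, 3), (78, 5), (79, 4), (80, 3), (94, 2), (82, 5), (83, 4), (84, 3), (94,
  2), (81, 6), (82, 5), (83, 4), (84, 3), (85, 7), (86, 6), (87, 5), (88, 4), (0, 0), (99, 1), (0,
  0), (0, 0), (0, 0), (0, 0), (99, 0), (94, 2), (94, 2)]

def parQ : List (ℕ × ℕ) :=
  [(0, 0), (0, 1), (1, 2), (2, 3), (3, 4), (4, 5), (7, 17), (8, 16), (29, 15), (10, 14), (34, 13),
  (10, 14), (13, 23), (14, 22), (15, 21), (16, 20), (17, 19), (91, 18), (0, 1), (1, 2), (2, 3),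
  (2, 3), (20, 4), (3, 4), (22, 5), (4, 5), (4, 5), (28, 16), (29, 15), (31, 14), (32, 14), (33,
  13), (34, 13), (67, 12), (67, 12), (34, 13), (37, 22), (38, 21), (40, 20), (41, 20), (43, 19),
  (43, 19), (90, 19), (91, 18), (91, 18), (24, 6), (25, 6), (5, 6), (5, 6), (45, 7), (46, 7), (47,
  7), (47, 7), (49, 8), (50, 8), (51, 8), (51, 8), (53, 9), (54, 9), (55, 9), (55, 9), (57, 10),
  (58, 10), (59, 10), (59, 10), (61, 11), (62, 11), (63, 11), (63, 11), (70, 14), (95, 13), (66,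
  12), (65, 12), (69, 15), (70, 14), (71, 13), (71, 13), (73, 16), (74, 15), (75, 14), (75, 14),
  (77, 17), (78, 16), (79, 15), (79, 15), (81, 18), (82, 17), (83, 16), (83, 16), (85, 19), (86,
  18), (87, 17), (87, 17), (0, 0), (0, 0), (67, 12), (0, 0), (0, 0), (0, 0), (0, 0), (0, 0), (0,
  0)]

def parH1 : List (ℕ × ℕ) :=
  [(99, 1), (0, 2), (19, 2), (2, 3), (3, 4), (4, 5), (69, 6), (6, 7), (28, 7), (8, 8), (0, 0), (0,
  0), (0, 0), (37, 6), (37, 6), (14, 7), (41, 7), (16, 8), (99, 1), (99, 1), (19, 2), (2, 3), (20,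
  3), (20, 3), (22, 4), (22, 4), (4, 5), (73, 6), (77, 6), (81, 6), (29, 7), (0, 0), (0, 0), (0,
  0), (0, 0), (0, 0), (56, 6), (60, 5), (60, 5), (38, 6), (64, 5), (38, 6), (68, 5), (40, 6), (43,
  7), (0, 0), (0, 0), (0, 0), (0, 0), (53, 3), (49, 4), (50, 5), (51, 6), (57, 2), (53, 3), (54,
  4), (55, 5), (99, 1), (57, 2), (58, 3), (59, 4), (99, 1), (57, 2), (58, 3), (59, 4), (0, 2),
  (61, 2), (62, 3), (63, 4), (70, 5), (75, 4), (75, 4), (22, 4), (74, 5), (75, 4), (80, 3), (80,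
  3), (78, 5), (79, 4), (80, 3), (94, 2), (82, 5), (83, 4), (84, 3), (94, 2), (0, 0), (0, 0), (0,
  0), (0, 0), (0, 0), (0, 0), (0, 0), (0, 0), (0, 0), (99, 1), (0, 0), (0, 0), (0, 0), (0, 0),
  (99, 0), (94, 2), (94, 2)]

def parH2 : List (ℕ × ℕ) :=
  [(0, 0), (0, 0), (0, 0), (0, 0), (0, 0), (0, 0), (0, 0), (0, 0), (0, 0), (30, 11), (32, 11),
  (10, 12), (12, 0), (12, 1), (0, 0), (0, 0), (0, 0), (0, 0), (0, 0), (0, 0), (0, 0), (0, 0), (0,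
  0), (0, 0), (0, 0), (0, 0), (0, 0), (0, 0), (0, 0), (81, 9), (29, 10), (85, 9), (29, 10), (89,
  9), (31, 10), (34, 11), (12, 1), (0, 0), (0, 0), (0, 0), (0, 0), (0, 0), (0, 0), (0, 0), (0, 0),
  (46, 4), (47, 3), (48, 2), (12, 1), (50, 4), (51, 3), (52, 2), (12, 1), (0, 0), (0, 0), (0, 0),
  (0, 0), (0, 0), (0, 0), (0, 0), (0, 0), (0, 0), (0, 0), (0, 0), (0, 0), (0, 0), (0, 0), (0, 0),
  (0, 0), (0, 0), (0, 0), (0, 0), (0, 0), (0, 0), (0, 0), (0, 0), (0, 0), (0, 0), (0, 0), (0, 0),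
  (0, 0), (82, 8), (83, 7), (88, 6), (88, 6), (86, 8), (87, 7), (88, 6), (45, 5), (90, 8), (91,
  7), (92, 6), (45, 5), (0, 0), (0, 0), (0, 0), (0, 0), (0, 0), (0, 0), (0, 0), (0, 0), (45, 5)]

def la1 : List ℕ :=
  [15, 39, 38, 60, 59, 58, 57, 99, 18, 1]

def la2 : List ℕ :=
  [3, 21, 20, 100, 76, 75, 74, 73, 27, 7]

def la3 : List ℕ :=
  [9, 30, 29, 81, 82, 83, 84, 101, 49, 50, 51, 52, 36, 13]

def lb1 : List ℕ :=
  [16, 41, 40, 64, 63, 62, 61, 99, 19, 2]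

def lb2 : List ℕ :=
  [4, 23, 22, 100, 80, 79, 78, 77, 28, 8]

def lb3 : List ℕ :=
  [10, 32, 31, 85, 86, 87, 88, 101, 53, 54, 55, 56, 37, 14]

def lc1 : List ℕ :=
  [16, 44, 91, 87, 83, 79, 75, 71, 66, 62, 58, 54, 50, 46, 25, 23, 21, 2]

def lc2 : List ℕ :=
  [4, 26, 47, 51, 55, 59, 63, 67, 34, 32, 30, 8]

def lc3 : List ℕ :=
  [10, 35, 70, 74, 78, 82, 86, 90, 43, 41, 39, 14]

def lg1 : List ℕ :=
  [17, 44, 43, 42, 68, 67, 66, 65, 0]

def lg2 : List ℕ :=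
  [5, 26, 25, 24, 72, 71, 70, 69, 6]

def lg3 : List ℕ :=
  [11, 35, 34, 33, 89, 90, 91, 92, 45, 46, 47, 48, 12]

def lh1 : List ℕ :=
  [17, 92, 88, 84, 80, 76, 72, 65, 61, 57, 53, 49, 45, 24, 22, 20, 19, 18, 0]

def lh2 : List ℕ :=
  [5, 48, 52, 56, 60, 64, 68, 33, 31, 29, 28, 27, 6]

def lh3 : List ℕ :=
  [11, 69, 73, 77, 81, 85, 89, 42, 40, 38, 37, 36, 12]

def bdS : List (ℕ × ℕ) :=
  [(0, 1), (1, 2), (2, 3), (3, 4), (4, 5), (5, 97), (6, 7), (7, 8), (8, 9), (9, 10), (10, 11),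
  (11, 98), (12, 13), (13, 14), (14, 15), (15, 16), (16, 17), (17, 96), (96, 0), (97, 12), (98,
  6)]

def bdP : List (ℕ × ℕ) :=
  [(0, 1), (1, 2), (2, 3), (3, 4), (4, 5), (5, 26), (6, 7), (7, 8), (8, 9), (9, 10), (10, 11),
  (11, 35), (12, 13), (13, 14), (14, 15), (15, 16), (16, 17), (17, 44), (24, 72), (25, 24), (26,
  25), (33, 89), (34, 33), (35, 34), (42, 68), (43, 42), (44, 43), (45, 46), (46, 47), (47, 48),
  (48, 12), (65, 0), (66, 65), (67, 66), (68, 67), (69, 6), (70, 69), (71, 70), (72, 71), (89,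
  90), (90, 91), (91, 92), (92, 45)]

def bdQ : List (ℕ × ℕ) :=
  [(0, 1), (1, 2), (2, 3), (3, 4), (4, 5), (5, 48), (6, 7), (7, 8), (8, 9), (9, 10), (10, 11),
  (11, 69), (12, 13), (13, 14), (14, 15), (15, 16), (16, 17), (17, 92), (18, 0), (19, 18), (20,
  19), (22, 20), (24, 22), (27, 6), (28, 27), (29, 28), (31, 29), (33, 31), (36, 12), (37, 36),
  (38, 37), (40, 38), (42, 40), (45, 24), (48, 52), (49, 45), (52, 56), (53, 49), (56, 60), (57,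
  53), (60, 64), (61, 57), (64, 68), (65, 61), (68, 33), (69, 73), (72, 65), (73, 77), (76, 72),
  (77, 81), (80, 76), (81, 85), (84, 80), (85, 89), (88, 84), (89, 42), (92, 88)]

def edA : List (ℕ × ℕ) :=
  [(0, 1), (1, 2), (2, 3), (3, 4), (4, 5), (6, 7), (7, 8), (8, 9), (9, 10), (10, 11), (12, 13),
  (13, 14), (14, 15), (15, 16), (16, 17)]

def frP : List (ℕ × ℕ) :=
  [(5, 26), (11, 35), (17, 44), (24, 72), (25, 24), (26, 25), (33, 89), (34, 33), (35, 34), (42,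
  68), (43, 42), (44, 43), (45, 46), (46, 47), (47, 48), (48, 12), (65, 0), (66, 65), (67, 66),
  (68, 67), (69, 6), (70, 69), (71, 70), (72, 71), (89, 90), (90, 91), (91, 92), (92, 45)]

def frQ : List (ℕ × ℕ) :=
  [(5, 48), (11, 69), (17, 92), (18, 0), (19, 18), (20, 19), (22, 20), (24, 22), (27, 6), (28,
  27), (29, 28), (31, 29), (33, 31), (36, 12), (37, 36), (38, 37), (40, 38), (42, 40), (45, 24),
  (48, 52), (49, 45), (52, 56), (53, 49), (56, 60), (57, 53), (60, 64), (61, 57), (64, 68), (65,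
  61), (68, 33), (69, 73), (72, 65), (73, 77), (76, 72), (77, 81), (80, 76), (81, 85), (84, 80),
  (85, 89), (88, 84), (89, 42), (92, 88)]

def arcsP : List (List ℕ) :=
  [[17, 44, 43, 42, 68, 67, 66, 65, 0], [5, 26, 25, 24, 72, 71, 70, 69, 6], [11, 35, 34, 33, 89,
  90, 91, 92, 45, 46, 47, 48, 12]]

def arcsQ : List (List ℕ) :=
  [[17, 92, 88, 84, 80, 76, 72, 65, 61, 57, 53, 49, 45, 24, 22, 20, 19, 18, 0], [5, 48, 52, 56,
  60, 64, 68, 33, 31, 29, 28, 27, 6], [11, 69, 73, 77, 81, 85, 89, 42, 40, 38, 37, 36, 12]]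

def posP : List (ℕ × ℕ) :=
  [(0, 8), (11, 0), (12, 0), (13, 0), (14, 0), (1, 0), (1, 8), (17, 0), (18, 0), (19, 0), (20, 0),
  (2, 0), (2, 12), (23, 0), (24, 0), (25, 0), (26, 0), (0, 0), (28, 0), (29, 0), (30, 0), (31, 0),
  (32, 0), (33, 0), (1, 3), (1, 2), (1, 1), (37, 0), (38, 0), (39, 0), (40, 0), (41, 0), (42, 0),
  (2, 3), (2, 2), (2, 1), (46, 0), (47, 0), (48, 0), (49, 0), (50, 0), (51, 0), (0, 3), (0, 2),
  (0, 1), (2, 8), (2, 9), (2, 10), (2, 11), (59, 0), (60, 0), (61, 0), (62, 0), (63, 0), (64, 0),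
  (65, 0), (66, 0), (67, 0), (68, 0), (69, 0), (70, 0), (71, 0), (72, 0), (73, 0), (74, 0), (0,
  7), (0, 6), (0, 5), (0, 4), (1, 7), (1, 6), (1, 5), (1, 4), (83, 0), (84, 0), (85, 0), (86, 0),
  (87, 0), (88, 0), (89, 0), (90, 0), (91, 0), (92, 0), (93, 0), (94, 0), (95, 0), (96, 0), (97,
  0), (98, 0), (2, 4), (2, 5), (2, 6), (2, 7), (103, 0), (104, 0), (105, 0), (106, 0), (107, 0),
  (108, 0), (109, 0), (110, 0), (111, 0)]

def posQ : List (ℕ × ℕ) :=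
  [(0, 18), (11, 0), (12, 0), (13, 0), (14, 0), (1, 0), (1, 12), (17, 0), (18, 0), (19, 0), (20,
  0), (2, 0), (2, 12), (23, 0), (24, 0), (25, 0), (26, 0), (0, 0), (0, 17), (0, 16), (0, 15), (31,
  0), (0, 14), (33, 0), (0, 13), (35, 0), (36, 0), (1, 11), (1, 10), (1, 9), (40, 0), (1, 8), (42,
  0), (1, 7), (44, 0), (45, 0), (2, 11), (2, 10), (2, 9), (49, 0), (2, 8), (51, 0), (2, 7), (53,
  0), (54, 0), (0, 12), (56, 0), (57, 0), (1, 1), (0, 11), (60, 0), (61, 0), (1, 2), (0, 10), (64,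
  0), (65, 0), (1, 3), (0, 9), (68, 0), (69, 0), (1, 4), (0, 8), (72, 0), (73, 0), (1, 5), (0, 7),
  (76, 0), (77, 0), (1, 6), (2, 1), (80, 0), (81, 0), (0, 6), (2, 2), (84, 0), (85, 0), (0, 5),
  (2, 3), (88, 0), (89, 0), (0, 4), (2, 4), (92, 0), (93, 0), (0, 3), (2, 5), (96, 0), (97, 0),
  (0, 2), (2, 6), (100, 0), (101, 0), (0, 1), (103, 0), (104, 0), (105, 0), (106, 0), (107, 0),
  (108, 0), (109, 0), (110, 0), (111, 0)]

def rtP12 : List (ℕ × ℕ) :=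
  [(42, 68), (24, 72), (90, 91)]

def labP12 : List (List (ℕ × ℕ × ℕ)) :=
  [[(1, 0, 31), (18, 0, 28), (99, 0, 25), (61, 0, 22)], [(2, 2, 35), (19, 2, 33), (18, 0, 30)],
  [(3, 2, 38), (21, 2, 35), (20, 2, 32), (19, 2, 34)], [(4, 1, 11), (23, 1, 13), (21, 2, 37)],
  [(5, 1, 14), (26, 1, 11), (25, 1, 8), (23, 1, 10)], [(26, 1, 13)], [(7, 1, 28), (27, 1, 25),
  (73, 1, 22)], [(8, 2, 16), (28, 2, 18), (27, 1, 27)], [(9, 2, 19), (30, 2, 16), (29, 2, 13),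
  (28, 2, 15)], [(10, 2, 21), (32, 2, 18), (30, 2, 18)], [(11, 2, 24), (35, 2, 21), (34, 2, 18),
  (32, 2, 20)], [(35, 2, 23)], [(13, 2, 41), (36, 2, 38), (52, 2, 35)], [(14, 2, 43), (37, 2, 40),
  (36, 2, 40)], [(15, 2, 46), (39, 2, 43), (38, 2, 40), (37, 2, 42)], [(16, 0, 11), (41, 0, 13),
  (39, 2, 45)], [(17, 0, 14), (44, 0, 11), (43, 0, 8), (41, 0, 10)], [(44, 0, 13)], [(0, 0, 29),
  (1, 2, 34), (19, 2, 31), (99, 0, 27), (0, 0, 29)], [(1, 2, 34), (2, 2, 33), (20, 2, 30), (94, 2,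
  28), (99, 2, 30), (18, 2, 32), (1, 2, 34)], [(2, 2, 33), (21, 1, 12), (23, 1, 9), (22, 1, 8),
  (100, 2, 27), (94, 2, 29), (19, 2, 31), (2, 2, 33)], [(2, 2, 36), (3, 1, 14), (23, 1, 11), (20,
  2, 34), (2, 2, 36)], [(20, 1, 9), (23, 1, 7), (25, 1, 4), (24, 1, 1), (72, 1, 3), (76, 1, 5),
  (100, 1, 7), (20, 1, 9)], [(3, 1, 12), (4, 1, 9), (25, 1, 6), (22, 1, 8), (20, 1, 10), (21, 1,
  12), (3, 1, 12)], [(72, 1, 0), (22, 1, 2)], [(24, 1, 3), (22, 1, 5), (23, 1, 7), (4, 1, 9)],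
  [(25, 1, 10), (4, 1, 12)], [(6, 1, 26), (7, 2, 19), (28, 2, 16), (77, 2, 18), (73, 1, 24), (6,
  1, 26)], [(7, 2, 17), (8, 2, 14), (29, 2, 11), (81, 2, 13), (77, 2, 15), (27, 2, 17), (7, 2,
  17)], [(8, 2, 14), (30, 2, 16), (32, 2, 14), (31, 2, 11), (85, 2, 8), (81, 2, 10), (28, 2, 12),
  (8, 2, 14)], [(8, 2, 17), (9, 2, 19), (32, 2, 16), (29, 2, 15), (8, 2, 17)], [(29, 2, 12), (32,
  2, 14), (34, 2, 14), (33, 2, 11), (89, 2, 8), (85, 2, 10), (29, 2, 12)], [(9, 2, 19), (10, 2,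
  19), (34, 2, 16), (31, 2, 13), (29, 2, 15), (30, 2, 17), (9, 2, 19)], [(89, 2, 10), (31, 2,
  12)], [(33, 2, 13), (31, 2, 15), (32, 2, 17), (10, 2, 19)], [(34, 2, 20), (10, 2, 22)], [(12, 2,
  39), (13, 2, 41), (37, 2, 38), (56, 2, 35), (52, 2, 37), (12, 2, 39)], [(13, 2, 41), (14, 2,
  41), (38, 2, 38), (60, 2, 35), (56, 2, 37), (36, 2, 39), (13, 2, 41)], [(14, 2, 41), (39, 0,
  12), (41, 0, 9), (40, 0, 6), (64, 0, 8), (60, 2, 37), (37, 2, 39), (14, 2, 41)], [(14, 2, 44),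
  (15, 0, 14), (41, 0, 11), (38, 2, 42), (14, 2, 44)], [(38, 0, 7), (41, 0, 7), (43, 0, 4), (42,
  0, 1), (68, 0, 3), (64, 0, 5), (38, 0, 7)], [(15, 0, 12), (16, 0, 9), (43, 0, 6), (40, 0, 8),
  (38, 0, 10), (39, 0, 12), (15, 0, 12)], [(68, 0, 0), (40, 0, 2)], [(42, 0, 3), (40, 0, 5), (41,
  0, 7), (16, 0, 9)], [(43, 0, 10), (16, 0, 12)], [(46, 2, 24), (50, 2, 21), (49, 2, 18), (101, 2,
  15), (88, 2, 12)], [(47, 2, 29), (51, 2, 26), (50, 2, 23)], [(48, 2, 34), (52, 2, 31), (51, 2,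
  28)], [(12, 2, 36), (52, 2, 33)], [(45, 2, 19), (50, 2, 21), (54, 2, 23), (53, 2, 20), (101, 2,
  17), (45, 2, 19)], [(45, 2, 22), (46, 2, 24), (51, 2, 26), (55, 2, 26), (54, 2, 23), (49, 2,
  20), (45, 2, 22)], [(46, 2, 27), (47, 2, 29), (52, 2, 31), (56, 2, 31), (55, 2, 28), (50, 2,
  25), (46, 2, 27)], [(12, 2, 36), (36, 2, 36), (56, 2, 33), (51, 2, 30), (47, 2, 32), (48, 2,
  34), (12, 2, 36)], [(49, 2, 21), (54, 2, 23), (58, 2, 25), (57, 2, 25), (94, 2, 22), (101, 2,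
  19), (49, 2, 21)], [(49, 2, 22), (50, 2, 24), (55, 2, 26), (59, 2, 28), (58, 2, 25), (53, 2,
  22), (49, 2, 22)], [(50, 2, 27), (51, 2, 29), (56, 2, 31), (60, 2, 31), (59, 2, 28), (54, 2,
  25), (50, 2, 27)], [(36, 2, 36), (37, 2, 36), (60, 2, 33), (55, 2, 30), (51, 2, 32), (52, 2,
  34), (36, 2, 36)], [(53, 2, 26), (58, 0, 17), (62, 0, 19), (61, 0, 21), (99, 2, 27), (94, 2,
  24), (53, 2, 26)], [(53, 2, 24), (54, 2, 26), (59, 0, 12), (63, 0, 14), (62, 0, 16), (57, 2,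
  27), (53, 2, 24)], [(54, 2, 27), (55, 2, 29), (60, 0, 12), (64, 0, 9), (63, 0, 11), (58, 2, 27),
  (54, 2, 27)], [(37, 2, 36), (38, 0, 9), (64, 0, 11), (59, 2, 30), (55, 2, 32), (56, 2, 34), (37,
  2, 36)], [(0, 0, 23), (99, 0, 23), (57, 0, 20), (62, 0, 17), (66, 0, 19), (65, 0, 21), (0, 0,
  23)], [(57, 0, 18), (58, 0, 15), (63, 0, 12), (67, 0, 14), (66, 0, 16), (61, 0, 18), (57, 0,
  18)], [(58, 0, 13), (59, 0, 10), (64, 0, 7), (68, 0, 9), (67, 0, 11), (62, 0, 13), (58, 0, 13)],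
  [(38, 0, 7), (40, 0, 4), (68, 0, 6), (63, 0, 8), (59, 0, 10), (60, 0, 10), (38, 0, 7)], [(0, 0,
  23), (61, 0, 20)], [(65, 0, 21), (61, 0, 18), (62, 0, 15)], [(66, 0, 16), (62, 0, 13), (63, 0,
  10)], [(67, 0, 11), (63, 0, 8), (64, 0, 5), (40, 0, 2)], [(6, 1, 23), (73, 1, 20), (74, 1, 17)],
  [(69, 1, 18), (74, 1, 15), (75, 1, 12)], [(70, 1, 13), (75, 1, 10), (76, 1, 7)], [(71, 1, 8),
  (76, 1, 5), (22, 1, 2)], [(6, 1, 23), (27, 2, 19), (77, 2, 16), (78, 2, 18), (74, 1, 19), (69,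
  1, 21), (6, 1, 23)], [(69, 1, 18), (73, 2, 19), (78, 2, 16), (79, 2, 18), (75, 1, 14), (70, 1,
  16), (69, 1, 18)], [(70, 1, 13), (74, 2, 19), (79, 2, 21), (80, 2, 23), (76, 1, 9), (71, 1, 11),
  (70, 1, 13)], [(22, 1, 4), (72, 1, 6), (71, 1, 8), (75, 2, 24), (80, 2, 26), (100, 1, 7), (22,
  1, 4)], [(27, 2, 17), (28, 2, 14), (81, 2, 11), (82, 2, 13), (78, 2, 15), (73, 2, 17), (27, 2,
  17)], [(73, 2, 17), (77, 2, 14), (82, 2, 11), (83, 2, 13), (79, 2, 15), (74, 2, 17), (73, 2,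
  17)], [(74, 2, 17), (78, 2, 14), (83, 2, 16), (84, 2, 18), (80, 2, 20), (75, 2, 20), (74, 2,
  17)], [(75, 2, 22), (79, 2, 19), (84, 2, 21), (94, 2, 23), (100, 2, 25), (76, 2, 25), (75, 2,
  22)], [(28, 2, 12), (29, 2, 9), (85, 2, 6), (86, 2, 8), (82, 2, 10), (77, 2, 12), (28, 2, 12)],
  [(77, 2, 12), (81, 2, 9), (86, 2, 6), (87, 2, 8), (83, 2, 10), (78, 2, 12), (77, 2, 12)], [(78,
  2, 12), (82, 2, 9), (87, 2, 11), (88, 2, 13), (84, 2, 15), (79, 2, 15), (78, 2, 12)], [(79, 2,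
  17), (83, 2, 14), (88, 2, 16), (101, 2, 18), (94, 2, 20), (80, 2, 20), (79, 2, 17)], [(29, 2,
  9), (31, 2, 9), (89, 2, 6), (90, 2, 3), (86, 2, 5), (81, 2, 7), (29, 2, 9)], [(81, 2, 7), (85,
  2, 4), (90, 2, 1), (91, 2, 3), (87, 2, 5), (82, 2, 7), (81, 2, 7)], [(82, 2, 7), (86, 2, 4),
  (91, 2, 6), (92, 2, 8), (88, 2, 10), (83, 2, 10), (82, 2, 7)], [(45, 2, 13), (101, 2, 15), (84,
  2, 15), (83, 2, 12), (87, 2, 9), (92, 2, 11), (45, 2, 13)], [(90, 2, 5), (85, 2, 7), (31, 2,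
  9)], [(91, 2, 0), (86, 2, 2), (85, 2, 4)], [(92, 2, 8), (87, 2, 5), (86, 2, 2)], [(45, 2, 13),
  (88, 2, 10), (87, 2, 7)], [], [(19, 2, 29), (20, 2, 28), (100, 2, 25), (80, 2, 22), (84, 2, 19),
  (101, 2, 21), (53, 2, 23), (57, 2, 25), (99, 2, 27), (19, 2, 29)], [], [], [], [], [(0, 0, 26),
  (18, 2, 32), (19, 2, 29), (94, 2, 26), (57, 0, 22), (61, 0, 24), (0, 0, 26)], [(20, 1, 9), (22,
  1, 6), (76, 2, 27), (80, 2, 24), (94, 2, 26), (20, 1, 9)], [(45, 2, 16), (49, 2, 18), (53, 2,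
  20), (94, 2, 20), (84, 2, 17), (88, 2, 14), (45, 2, 16)]]

def rtP13 : List (ℕ × ℕ) :=
  [(42, 68), (24, 72), (90, 91)]

def labP13 : List (List (ℕ × ℕ × ℕ)) :=
  [[(1, 0, 31), (18, 0, 28), (99, 0, 25), (61, 0, 22)], [(2, 1, 18), (19, 1, 20), (18, 0, 30)],
  [(3, 1, 16), (21, 1, 14), (20, 1, 15), (19, 1, 17)], [(4, 1, 11), (23, 1, 13), (21, 1, 15)],
  [(5, 1, 14), (26, 1, 11), (25, 1, 8), (23, 1, 10)], [(26, 1, 13)], [(7, 1, 28), (27, 1, 25),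
  (73, 1, 22)], [(8, 1, 33), (28, 1, 30), (27, 1, 27)], [(9, 1, 41), (30, 1, 38), (29, 1, 35),
  (28, 1, 32)], [(10, 2, 21), (32, 2, 18), (30, 1, 40)], [(11, 2, 24), (35, 2, 21), (34, 2, 18),
  (32, 2, 20)], [(35, 2, 23)], [(13, 2, 41), (36, 2, 38), (52, 2, 35)], [(14, 1, 46), (37, 1, 43),
  (36, 2, 40)], [(15, 1, 49), (39, 1, 46), (38, 1, 43), (37, 1, 45)], [(16, 0, 11), (41, 0, 13),
  (39, 1, 48)], [(17, 0, 14), (44, 0, 11), (43, 0, 8), (41, 0, 10)], [(44, 0, 13)], [(0, 0, 29),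
  (1, 1, 21), (19, 1, 18), (99, 0, 27), (0, 0, 29)], [(1, 1, 19), (2, 1, 16), (20, 1, 13), (94, 1,
  15), (99, 1, 17), (18, 1, 19), (1, 1, 19)], [(2, 1, 15), (21, 1, 12), (23, 1, 9), (22, 1, 8),
  (100, 1, 10), (94, 1, 12), (19, 1, 14), (2, 1, 15)], [(2, 1, 15), (3, 1, 14), (23, 1, 11), (20,
  1, 13), (2, 1, 15)], [(20, 1, 9), (23, 1, 7), (25, 1, 4), (24, 1, 1), (72, 1, 3), (76, 1, 5),
  (100, 1, 7), (20, 1, 9)], [(3, 1, 12), (4, 1, 9), (25, 1, 6), (22, 1, 8), (20, 1, 10), (21, 1,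
  12), (3, 1, 12)], [(72, 1, 0), (22, 1, 2)], [(24, 1, 3), (22, 1, 5), (23, 1, 7), (4, 1, 9)],
  [(25, 1, 10), (4, 1, 12)], [(6, 1, 26), (7, 1, 28), (28, 1, 30), (77, 1, 27), (73, 1, 24), (6,
  1, 26)], [(7, 1, 31), (8, 1, 33), (29, 1, 35), (81, 1, 32), (77, 1, 29), (27, 1, 29), (7, 1,
  31)], [(8, 1, 36), (30, 2, 17), (32, 2, 14), (31, 2, 11), (85, 2, 8), (81, 1, 34), (28, 1, 34),
  (8, 1, 36)], [(8, 1, 39), (9, 2, 19), (32, 2, 16), (29, 1, 37), (8, 1, 39)], [(29, 2, 12), (32,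
  2, 14), (34, 2, 14), (33, 2, 11), (89, 2, 8), (85, 2, 10), (29, 2, 12)], [(9, 2, 19), (10, 2,
  19), (34, 2, 16), (31, 2, 13), (29, 2, 15), (30, 2, 17), (9, 2, 19)], [(89, 2, 10), (31, 2,
  12)], [(33, 2, 13), (31, 2, 15), (32, 2, 17), (10, 2, 19)], [(34, 2, 20), (10, 2, 22)], [(12, 2,
  39), (13, 1, 44), (37, 1, 41), (56, 1, 38), (52, 2, 37), (12, 2, 39)], [(13, 1, 44), (14, 1,
  44), (38, 1, 41), (60, 1, 38), (56, 1, 40), (36, 1, 42), (13, 1, 44)], [(14, 1, 44), (39, 0,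
  12), (41, 0, 9), (40, 0, 6), (64, 0, 8), (60, 1, 40), (37, 1, 42), (14, 1, 44)], [(14, 1, 47),
  (15, 0, 14), (41, 0, 11), (38, 1, 45), (14, 1, 47)], [(38, 0, 7), (41, 0, 7), (43, 0, 4), (42,
  0, 1), (68, 0, 3), (64, 0, 5), (38, 0, 7)], [(15, 0, 12), (16, 0, 9), (43, 0, 6), (40, 0, 8),
  (38, 0, 10), (39, 0, 12), (15, 0, 12)], [(68, 0, 0), (40, 0, 2)], [(42, 0, 3), (40, 0, 5), (41,
  0, 7), (16, 0, 9)], [(43, 0, 10), (16, 0, 12)], [(46, 2, 24), (50, 2, 21), (49, 2, 18), (101, 2,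
  15), (88, 2, 12)], [(47, 2, 29), (51, 2, 26), (50, 2, 23)], [(48, 2, 34), (52, 2, 31), (51, 2,
  28)], [(12, 2, 36), (52, 2, 33)], [(45, 2, 19), (50, 1, 27), (54, 1, 24), (53, 1, 21), (101, 2,
  17), (45, 2, 19)], [(45, 2, 22), (46, 2, 24), (51, 1, 32), (55, 1, 29), (54, 1, 26), (49, 2,
  20), (45, 2, 22)], [(46, 2, 27), (47, 2, 29), (52, 1, 37), (56, 1, 34), (55, 1, 31), (50, 2,
  25), (46, 2, 27)], [(12, 2, 36), (36, 1, 39), (56, 1, 36), (51, 2, 30), (47, 2, 32), (48, 2,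
  34), (12, 2, 36)], [(49, 1, 22), (54, 1, 24), (58, 1, 24), (57, 1, 21), (94, 1, 18), (101, 1,
  20), (49, 1, 22)], [(49, 1, 25), (50, 1, 27), (55, 1, 29), (59, 1, 29), (58, 1, 26), (53, 1,
  23), (49, 1, 25)], [(50, 1, 30), (51, 1, 32), (56, 1, 34), (60, 1, 34), (59, 1, 31), (54, 1,
  28), (50, 1, 30)], [(36, 1, 39), (37, 1, 39), (60, 1, 36), (55, 1, 33), (51, 1, 35), (52, 1,
  37), (36, 1, 39)], [(53, 1, 22), (58, 0, 17), (62, 0, 19), (61, 0, 21), (99, 1, 19), (94, 1,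
  20), (53, 1, 22)], [(53, 1, 25), (54, 1, 27), (59, 0, 12), (63, 0, 14), (62, 0, 16), (57, 1,
  23), (53, 1, 25)], [(54, 1, 30), (55, 1, 32), (60, 0, 12), (64, 0, 9), (63, 0, 11), (58, 1, 28),
  (54, 1, 30)], [(37, 1, 39), (38, 0, 9), (64, 0, 11), (59, 1, 33), (55, 1, 35), (56, 1, 37), (37,
  1, 39)], [(0, 0, 23), (99, 0, 23), (57, 0, 20), (62, 0, 17), (66, 0, 19), (65, 0, 21), (0, 0,
  23)], [(57, 0, 18), (58, 0, 15), (63, 0, 12), (67, 0, 14), (66, 0, 16), (61, 0, 18), (57, 0,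
  18)], [(58, 0, 13), (59, 0, 10), (64, 0, 7), (68, 0, 9), (67, 0, 11), (62, 0, 13), (58, 0, 13)],
  [(38, 0, 7), (40, 0, 4), (68, 0, 6), (63, 0, 8), (59, 0, 10), (60, 0, 10), (38, 0, 7)], [(0, 0,
  23), (61, 0, 20)], [(65, 0, 21), (61, 0, 18), (62, 0, 15)], [(66, 0, 16), (62, 0, 13), (63, 0,
  10)], [(67, 0, 11), (63, 0, 8), (64, 0, 5), (40, 0, 2)], [(6, 1, 23), (73, 1, 20), (74, 1, 17)],
  [(69, 1, 18), (74, 1, 15), (75, 1, 12)], [(70, 1, 13), (75, 1, 10), (76, 1, 7)], [(71, 1, 8),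
  (76, 1, 5), (22, 1, 2)], [(6, 1, 23), (27, 1, 25), (77, 1, 25), (78, 1, 22), (74, 1, 19), (69,
  1, 21), (6, 1, 23)], [(69, 1, 18), (73, 1, 20), (78, 1, 20), (79, 1, 17), (75, 1, 14), (70, 1,
  16), (69, 1, 18)], [(70, 1, 13), (74, 1, 15), (79, 1, 15), (80, 1, 12), (76, 1, 9), (71, 1, 11),
  (70, 1, 13)], [(22, 1, 4), (72, 1, 6), (71, 1, 8), (75, 1, 10), (80, 1, 10), (100, 1, 7), (22,
  1, 4)], [(27, 1, 28), (28, 1, 30), (81, 1, 30), (82, 1, 27), (78, 1, 24), (73, 1, 26), (27, 1,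
  28)], [(73, 1, 23), (77, 1, 25), (82, 1, 25), (83, 1, 22), (79, 1, 19), (74, 1, 21), (73, 1,
  23)], [(74, 1, 18), (78, 1, 20), (83, 1, 20), (84, 1, 17), (80, 1, 14), (75, 1, 16), (74, 1,
  18)], [(75, 1, 13), (79, 1, 15), (84, 1, 15), (94, 1, 12), (100, 1, 9), (76, 1, 11), (75, 1,
  13)], [(28, 1, 33), (29, 2, 9), (85, 2, 6), (86, 2, 8), (82, 1, 29), (77, 1, 31), (28, 1, 33)],
  [(77, 1, 28), (81, 2, 9), (86, 2, 6), (87, 2, 8), (83, 1, 24), (78, 1, 26), (77, 1, 28)], [(78,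
  1, 23), (82, 2, 9), (87, 2, 11), (88, 2, 13), (84, 1, 19), (79, 1, 21), (78, 1, 23)], [(79, 1,
  18), (83, 2, 14), (88, 2, 16), (101, 1, 17), (94, 1, 14), (80, 1, 16), (79, 1, 18)], [(29, 2,
  9), (31, 2, 9), (89, 2, 6), (90, 2, 3), (86, 2, 5), (81, 2, 7), (29, 2, 9)], [(81, 2, 7), (85,
  2, 4), (90, 2, 1), (91, 2, 3), (87, 2, 5), (82, 2, 7), (81, 2, 7)], [(82, 2, 7), (86, 2, 4),
  (91, 2, 6), (92, 2, 8), (88, 2, 10), (83, 2, 10), (82, 2, 7)], [(45, 2, 13), (101, 2, 15), (84,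
  2, 15), (83, 2, 12), (87, 2, 9), (92, 2, 11), (45, 2, 13)], [(90, 2, 5), (85, 2, 7), (31, 2,
  9)], [(91, 2, 0), (86, 2, 2), (85, 2, 4)], [(92, 2, 8), (87, 2, 5), (86, 2, 2)], [(45, 2, 13),
  (88, 2, 10), (87, 2, 7)], [], [(19, 1, 14), (20, 1, 11), (100, 1, 11), (80, 1, 13), (84, 1, 15),
  (101, 1, 17), (53, 1, 19), (57, 1, 20), (99, 1, 17), (19, 1, 14)], [], [], [], [], [(0, 0, 26),
  (18, 1, 19), (19, 1, 16), (94, 1, 18), (57, 0, 22), (61, 0, 24), (0, 0, 26)], [(20, 1, 9), (22,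
  1, 6), (76, 1, 8), (80, 1, 10), (94, 1, 12), (20, 1, 9)], [(45, 2, 16), (49, 1, 22), (53, 1,
  19), (94, 1, 16), (84, 2, 17), (88, 2, 14), (45, 2, 16)]]

def rtP123 : List (ℕ × ℕ) :=
  [(42, 68), (24, 72), (90, 91), (2, 3)]

def labP123 : List (List (ℕ × ℕ × ℕ)) :=
  [[(1, 0, 31), (18, 0, 28), (99, 0, 25), (61, 0, 22)], [(2, 3, 7), (19, 3, 9), (18, 0, 30)], [(3,
  3, 0), (21, 3, 2), (20, 3, 4), (19, 3, 6)], [(4, 1, 11), (23, 1, 13), (21, 3, 2)], [(5, 1, 14),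
  (26, 1, 11), (25, 1, 8), (23, 1, 10)], [(26, 1, 13)], [(7, 1, 28), (27, 1, 25), (73, 1, 22)],
  [(8, 3, 41), (28, 3, 38), (27, 1, 27)], [(9, 3, 44), (30, 3, 41), (29, 3, 38), (28, 3, 40)],
  [(10, 2, 21), (32, 2, 18), (30, 3, 43)], [(11, 2, 24), (35, 2, 21), (34, 2, 18), (32, 2, 20)],
  [(35, 2, 23)], [(13, 2, 41), (36, 2, 38), (52, 2, 35)], [(14, 3, 41), (37, 3, 38), (36, 2, 40)],
  [(15, 3, 44), (39, 3, 41), (38, 3, 38), (37, 3, 40)], [(16, 0, 11), (41, 0, 13), (39, 3, 43)],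
  [(17, 0, 14), (44, 0, 11), (43, 0, 8), (41, 0, 10)], [(44, 0, 13)], [(0, 0, 29), (1, 3, 10),
  (19, 3, 12), (99, 0, 27), (0, 0, 29)], [(1, 3, 8), (2, 3, 5), (20, 3, 7), (94, 3, 9), (99, 3,
  11), (18, 3, 11), (1, 3, 8)], [(2, 3, 3), (21, 1, 12), (23, 1, 9), (22, 1, 8), (100, 3, 12),
  (94, 3, 9), (19, 3, 6), (2, 3, 3)], [(2, 3, 1), (3, 1, 14), (23, 1, 11), (20, 3, 4), (2, 3, 1)],
  [(20, 1, 9), (23, 1, 7), (25, 1, 4), (24, 1, 1), (72, 1, 3), (76, 1, 5), (100, 1, 7), (20, 1,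
  9)], [(3, 1, 12), (4, 1, 9), (25, 1, 6), (22, 1, 8), (20, 1, 10), (21, 1, 12), (3, 1, 12)],
  [(72, 1, 0), (22, 1, 2)], [(24, 1, 3), (22, 1, 5), (23, 1, 7), (4, 1, 9)], [(25, 1, 10), (4, 1,
  12)], [(6, 1, 26), (7, 3, 39), (28, 3, 36), (77, 3, 33), (73, 1, 24), (6, 1, 26)], [(7, 3, 39),
  (8, 3, 39), (29, 3, 36), (81, 3, 33), (77, 3, 35), (27, 3, 37), (7, 3, 39)], [(8, 3, 39), (30,
  2, 17), (32, 2, 14), (31, 2, 11), (85, 2, 8), (81, 3, 35), (28, 3, 37), (8, 3, 39)], [(8, 3,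
  42), (9, 2, 19), (32, 2, 16), (29, 3, 40), (8, 3, 42)], [(29, 2, 12), (32, 2, 14), (34, 2, 14),
  (33, 2, 11), (89, 2, 8), (85, 2, 10), (29, 2, 12)], [(9, 2, 19), (10, 2, 19), (34, 2, 16), (31,
  2, 13), (29, 2, 15), (30, 2, 17), (9, 2, 19)], [(89, 2, 10), (31, 2, 12)], [(33, 2, 13), (31, 2,
  15), (32, 2, 17), (10, 2, 19)], [(34, 2, 20), (10, 2, 22)], [(12, 2, 39), (13, 3, 39), (37, 3,
  36), (56, 3, 38), (52, 2, 37), (12, 2, 39)], [(13, 3, 39), (14, 3, 39), (38, 3, 36), (60, 3,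
  33), (56, 3, 35), (36, 3, 37), (13, 3, 39)], [(14, 3, 39), (39, 0, 12), (41, 0, 9), (40, 0, 6),
  (64, 0, 8), (60, 3, 35), (37, 3, 37), (14, 3, 39)], [(14, 3, 42), (15, 0, 14), (41, 0, 11), (38,
  3, 40), (14, 3, 42)], [(38, 0, 7), (41, 0, 7), (43, 0, 4), (42, 0, 1), (68, 0, 3), (64, 0, 5),
  (38, 0, 7)], [(15, 0, 12), (16, 0, 9), (43, 0, 6), (40, 0, 8), (38, 0, 10), (39, 0, 12), (15, 0,
  12)], [(68, 0, 0), (40, 0, 2)], [(42, 0, 3), (40, 0, 5), (41, 0, 7), (16, 0, 9)], [(43, 0, 10),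
  (16, 0, 12)], [(46, 2, 24), (50, 2, 21), (49, 2, 18), (101, 2, 15), (88, 2, 12)], [(47, 2, 29),
  (51, 2, 26), (50, 2, 23)], [(48, 2, 34), (52, 2, 31), (51, 2, 28)], [(12, 2, 36), (52, 2, 33)],
  [(45, 2, 19), (50, 3, 27), (54, 3, 24), (53, 3, 21), (101, 2, 17), (45, 2, 19)], [(45, 2, 22),
  (46, 2, 24), (51, 3, 32), (55, 3, 29), (54, 3, 26), (49, 2, 20), (45, 2, 22)], [(46, 2, 27),
  (47, 2, 29), (52, 3, 37), (56, 3, 34), (55, 3, 31), (50, 2, 25), (46, 2, 27)], [(12, 2, 36),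
  (36, 3, 39), (56, 3, 36), (51, 2, 30), (47, 2, 32), (48, 2, 34), (12, 2, 36)], [(49, 3, 22),
  (54, 3, 22), (58, 3, 19), (57, 3, 16), (94, 3, 18), (101, 3, 20), (49, 3, 22)], [(49, 3, 25),
  (50, 3, 27), (55, 3, 27), (59, 3, 24), (58, 3, 21), (53, 3, 23), (49, 3, 25)], [(50, 3, 30),
  (51, 3, 32), (56, 3, 32), (60, 3, 29), (59, 3, 26), (54, 3, 28), (50, 3, 30)], [(36, 3, 37),
  (37, 3, 34), (60, 3, 31), (55, 3, 33), (51, 3, 35), (52, 3, 37), (36, 3, 37)], [(53, 3, 17),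
  (58, 0, 17), (62, 0, 19), (61, 0, 21), (99, 3, 13), (94, 3, 15), (53, 3, 17)], [(53, 3, 20),
  (54, 3, 22), (59, 0, 12), (63, 0, 14), (62, 0, 16), (57, 3, 18), (53, 3, 20)], [(54, 3, 25),
  (55, 3, 27), (60, 0, 12), (64, 0, 9), (63, 0, 11), (58, 3, 23), (54, 3, 25)], [(37, 3, 34), (38,
  0, 9), (64, 0, 11), (59, 3, 28), (55, 3, 30), (56, 3, 32), (37, 3, 34)], [(0, 0, 23), (99, 0,
  23), (57, 0, 20), (62, 0, 17), (66, 0, 19), (65, 0, 21), (0, 0, 23)], [(57, 0, 18), (58, 0, 15),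
  (63, 0, 12), (67, 0, 14), (66, 0, 16), (61, 0, 18), (57, 0, 18)], [(58, 0, 13), (59, 0, 10),
  (64, 0, 7), (68, 0, 9), (67, 0, 11), (62, 0, 13), (58, 0, 13)], [(38, 0, 7), (40, 0, 4), (68, 0,
  6), (63, 0, 8), (59, 0, 10), (60, 0, 10), (38, 0, 7)], [(0, 0, 23), (61, 0, 20)], [(65, 0, 21),
  (61, 0, 18), (62, 0, 15)], [(66, 0, 16), (62, 0, 13), (63, 0, 10)], [(67, 0, 11), (63, 0, 8),
  (64, 0, 5), (40, 0, 2)], [(6, 1, 23), (73, 1, 20), (74, 1, 17)], [(69, 1, 18), (74, 1, 15), (75,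
  1, 12)], [(70, 1, 13), (75, 1, 10), (76, 1, 7)], [(71, 1, 8), (76, 1, 5), (22, 1, 2)], [(6, 1,
  23), (27, 3, 34), (77, 3, 31), (78, 3, 28), (74, 1, 19), (69, 1, 21), (6, 1, 23)], [(69, 1, 18),
  (73, 3, 29), (78, 3, 26), (79, 3, 23), (75, 1, 14), (70, 1, 16), (69, 1, 18)], [(70, 1, 13),
  (74, 3, 24), (79, 3, 21), (80, 3, 18), (76, 1, 9), (71, 1, 11), (70, 1, 13)], [(22, 1, 4), (72,
  1, 6), (71, 1, 8), (75, 3, 19), (80, 3, 16), (100, 1, 7), (22, 1, 4)], [(27, 3, 34), (28, 3,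
  34), (81, 3, 31), (82, 3, 28), (78, 3, 30), (73, 3, 32), (27, 3, 34)], [(73, 3, 29), (77, 3,
  29), (82, 3, 26), (83, 3, 23), (79, 3, 25), (74, 3, 27), (73, 3, 29)], [(74, 3, 24), (78, 3,
  24), (83, 3, 21), (84, 3, 18), (80, 3, 20), (75, 3, 22), (74, 3, 24)], [(75, 3, 19), (79, 3,
  19), (84, 3, 16), (94, 3, 13), (100, 3, 15), (76, 3, 17), (75, 3, 19)], [(28, 3, 34), (29, 2,
  9), (85, 2, 6), (86, 2, 8), (82, 3, 30), (77, 3, 32), (28, 3, 34)], [(77, 3, 29), (81, 2, 9),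
  (86, 2, 6), (87, 2, 8), (83, 3, 25), (78, 3, 27), (77, 3, 29)], [(78, 3, 24), (82, 2, 9), (87,
  2, 11), (88, 2, 13), (84, 3, 20), (79, 3, 22), (78, 3, 24)], [(79, 3, 19), (83, 2, 14), (88, 2,
  16), (101, 3, 18), (94, 3, 15), (80, 3, 17), (79, 3, 19)], [(29, 2, 9), (31, 2, 9), (89, 2, 6),
  (90, 2, 3), (86, 2, 5), (81, 2, 7), (29, 2, 9)], [(81, 2, 7), (85, 2, 4), (90, 2, 1), (91, 2,
  3), (87, 2, 5), (82, 2, 7), (81, 2, 7)], [(82, 2, 7), (86, 2, 4), (91, 2, 6), (92, 2, 8), (88,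
  2, 10), (83, 2, 10), (82, 2, 7)], [(45, 2, 13), (101, 2, 15), (84, 2, 15), (83, 2, 12), (87, 2,
  9), (92, 2, 11), (45, 2, 13)], [(90, 2, 5), (85, 2, 7), (31, 2, 9)], [(91, 2, 0), (86, 2, 2),
  (85, 2, 4)], [(92, 2, 8), (87, 2, 5), (86, 2, 2)], [(45, 2, 13), (88, 2, 10), (87, 2, 7)], [],
  [(19, 3, 8), (20, 3, 10), (100, 3, 12), (80, 3, 14), (84, 3, 16), (101, 3, 18), (53, 3, 17),
  (57, 3, 14), (99, 3, 11), (19, 3, 8)], [], [], [], [], [(0, 0, 26), (18, 3, 13), (19, 3, 10),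
  (94, 3, 12), (57, 0, 22), (61, 0, 24), (0, 0, 26)], [(20, 1, 9), (22, 1, 6), (76, 3, 17), (80,
  3, 14), (94, 3, 11), (20, 1, 9)], [(45, 2, 16), (49, 3, 22), (53, 3, 19), (94, 3, 17), (84, 2,
  17), (88, 2, 14), (45, 2, 16)]]

def cob : List (ℕ × ℕ) :=
  [(15, 39), (3, 21), (9, 30)]

def tbL : List (List ℕ) :=
  [[96, 93, 65, 61, 99, 18, 1, 218, 299, 261, 265], [0, 18, 19, 2, 219, 218, 0], [1, 19, 20, 21,
  3, 221, 220, 219, 1], [2, 21, 23, 4, 223, 221, 2], [3, 23, 25, 26, 5, 226, 225, 223, 3], [226,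
  4, 26, 47, 48, 97], [98, 69, 73, 27, 7, 227, 273, 269], [6, 27, 28, 8, 228, 227, 6], [7, 28, 29,
  30, 9, 230, 229, 228, 7], [8, 30, 32, 10, 232, 230, 8], [9, 32, 34, 35, 11, 235, 234, 232, 9],
  [235, 10, 35, 70, 69, 98], [97, 48, 52, 36, 13, 236, 252, 248], [12, 36, 37, 14, 237, 236, 12],
  [13, 37, 38, 39, 15, 239, 238, 237, 13], [14, 39, 41, 16, 241, 239, 14], [15, 41, 43, 44, 17,
  244, 243, 241, 15], [244, 16, 44, 91, 92, 93, 96], [0, 99, 19, 1, 0], [1, 18, 99, 94, 20, 2, 1],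
  [2, 19, 94, 100, 22, 23, 21, 2], [2, 20, 23, 3, 2], [20, 100, 76, 72, 24, 25, 23, 20], [3, 21,
  20, 22, 25, 4, 3], [22, 72, 93, 45, 46, 25, 22], [4, 23, 22, 24, 46, 47, 26, 4], [4, 25, 47, 5,
  4], [6, 73, 77, 28, 7, 6], [7, 27, 77, 81, 29, 8, 7], [8, 28, 81, 85, 31, 32, 30, 8], [8, 29,
  32, 9, 8], [29, 85, 89, 33, 34, 32, 29], [9, 30, 29, 31, 34, 10, 9], [31, 89, 42, 68, 67, 34,
  31], [10, 32, 31, 33, 67, 95, 35, 10], [10, 34, 95, 70, 11, 10], [12, 52, 56, 37, 13, 12], [13,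
  36, 56, 60, 38, 14, 13], [14, 37, 60, 64, 40, 41, 39, 14], [14, 38, 41, 15, 14], [38, 64, 68,
  42, 43, 41, 38], [15, 39, 38, 40, 43, 16, 15], [33, 89, 90, 43, 40, 68, 33], [16, 41, 40, 42,
  90, 91, 44, 16], [16, 43, 91, 17, 16], [24, 93, 92, 88, 101, 49, 50, 46, 24], [24, 45, 50, 51,
  47, 25, 24], [5, 26, 25, 46, 51, 52, 48, 5], [5, 47, 52, 12, 97, 5], [45, 101, 53, 54, 50, 45],
  [45, 49, 54, 55, 51, 46, 45], [46, 50, 55, 56, 52, 47, 46], [12, 48, 47, 51, 56, 36, 12], [49,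
  101, 94, 57, 58, 54, 49], [49, 53, 58, 59, 55, 50, 49], [50, 54, 59, 60, 56, 51, 50], [36, 52,
  51, 55, 60, 37, 36], [53, 94, 99, 61, 62, 58, 53], [53, 57, 62, 63, 59, 54, 53], [54, 58, 63,
  64, 60, 55, 54], [37, 56, 55, 59, 64, 38, 37], [0, 65, 66, 62, 57, 99, 0], [57, 61, 66, 67, 63,
  58, 57], [58, 62, 67, 68, 64, 59, 58], [38, 60, 59, 63, 68, 40, 38], [0, 93, 72, 71, 66, 61, 0],
  [61, 65, 71, 95, 67, 62, 61], [33, 68, 63, 62, 66, 95, 34, 33], [33, 42, 40, 64, 63, 67, 33],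
  [6, 98, 11, 70, 74, 73, 6], [11, 35, 95, 71, 75, 74, 69, 11], [65, 72, 76, 75, 70, 95, 66, 65],
  [22, 76, 71, 65, 93, 24, 22], [6, 69, 74, 78, 77, 27, 6], [69, 70, 75, 79, 78, 73, 69], [70, 71,
  76, 80, 79, 74, 70], [22, 100, 80, 75, 71, 72, 22], [27, 73, 78, 82, 81, 28, 27], [73, 74, 79,
  83, 82, 77, 73], [74, 75, 80, 84, 83, 78, 74], [75, 76, 100, 94, 84, 79, 75], [28, 77, 82, 86,
  85, 29, 28], [77, 78, 83, 87, 86, 81, 77], [78, 79, 84, 88, 87, 82, 78], [79, 80, 94, 101, 88,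
  83, 79], [29, 81, 86, 90, 89, 31, 29], [81, 82, 87, 91, 90, 85, 81], [82, 83, 88, 92, 91, 86,
  82], [45, 92, 87, 83, 84, 101, 45], [31, 85, 90, 42, 33, 31], [42, 89, 85, 86, 91, 43, 42], [17,
  44, 43, 90, 86, 87, 92, 17], [17, 91, 87, 88, 45, 93, 17], [0, 96, 17, 92, 45, 24, 72, 65, 0],
  [19, 99, 57, 53, 101, 84, 80, 100, 20, 19], [34, 67, 66, 71, 70, 35, 34], [17, 93, 0], [5, 48,
  12], [11, 69, 6], [0, 61, 57, 94, 19, 18, 0], [20, 94, 80, 76, 22, 20], [45, 88, 84, 94, 53, 49,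
  45]]

def tbT : List (List ℕ) :=
  [[], [], [], [], [], [], [], [], [], [], [], [], [], [], [], [], [], [], [0, 1, 219, 299, 0],
  [1, 2, 220, 294, 299, 218, 1], [2, 221, 223, 222, 300, 294, 219, 2], [2, 3, 223, 220, 2], [220,
  223, 225, 224, 272, 276, 300, 220], [3, 4, 225, 222, 220, 221, 3], [272, 222, 225], [224, 222,
  223, 4, 226], [225, 4, 5], [6, 7, 228, 277, 273, 6], [7, 8, 229, 281, 277, 227, 7], [8, 230,
  232, 231, 285, 281, 228, 8], [8, 9, 232, 229, 8], [229, 232, 234, 233, 289, 285, 229], [9, 10,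
  234, 231, 229, 230, 9], [289, 231, 234], [233, 231, 232, 10, 235], [234, 10, 11], [12, 13, 237,
  256, 252, 12], [13, 14, 238, 260, 256, 236, 13], [14, 239, 241, 240, 264, 260, 237, 14], [14,
  15, 241, 238, 14], [238, 241, 243, 242, 268, 264, 238], [15, 16, 243, 240, 238, 239, 15], [268,
  240, 243], [242, 240, 241, 16, 244], [243, 16, 17], [246, 250, 249, 301, 288, 292], [247, 251,
  250, 245], [248, 252, 251, 246], [12, 252, 247], [245, 250, 254, 253, 301, 245], [245, 246, 251,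
  255, 254, 249, 245], [246, 247, 252, 256, 255, 250, 246], [12, 236, 256, 251, 247, 248, 12],
  [249, 254, 258, 257, 294, 301, 249], [249, 250, 255, 259, 258, 253, 249], [250, 251, 256, 260,
  259, 254, 250], [236, 237, 260, 255, 251, 252, 236], [253, 258, 262, 261, 299, 294, 253], [253,
  254, 259, 263, 262, 257, 253], [254, 255, 260, 264, 263, 258, 254], [237, 238, 264, 259, 255,
  256, 237], [0, 299, 257, 262, 266, 265, 0], [257, 258, 263, 267, 266, 261, 257], [258, 259, 264,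
  268, 267, 262, 258], [238, 240, 268, 263, 259, 260, 238], [0, 261, 266], [265, 261, 262, 267],
  [266, 262, 263, 268], [267, 263, 264, 240, 242], [6, 273, 274, 270], [269, 274, 275, 271], [270,
  275, 276, 272], [271, 276, 222, 224], [6, 227, 277, 278, 274, 269, 6], [269, 273, 278, 279, 275,
  270, 269], [270, 274, 279, 280, 276, 271, 270], [222, 272, 271, 275, 280, 300, 222], [227, 228,
  281, 282, 278, 273, 227], [273, 277, 282, 283, 279, 274, 273], [274, 278, 283, 284, 280, 275,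
  274], [275, 279, 284, 294, 300, 276, 275], [228, 229, 285, 286, 282, 277, 228], [277, 281, 286,
  287, 283, 278, 277], [278, 282, 287, 288, 284, 279, 278], [279, 283, 288, 301, 294, 280, 279],
  [229, 231, 289, 290, 286, 281, 229], [281, 285, 290, 291, 287, 282, 281], [282, 286, 291, 292,
  288, 283, 282], [245, 301, 284, 283, 287, 292, 245], [290, 285, 231, 233], [291, 286, 285, 289],
  [292, 287, 286, 290], [245, 288, 287, 291], [], [219, 220, 300, 280, 284, 301, 253, 257, 299,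
  219], [], [], [], [], [0, 218, 219, 294, 257, 261, 0], [220, 222, 276, 280, 294, 220], [245,
  249, 253, 294, 284, 288, 245]]

def al12 : List (ℕ × ℕ) :=
  [(1, 18), (1, 218), (3, 21), (3, 221), (7, 27), (7, 227), (15, 39), (15, 239), (18, 1), (18,
  99), (20, 21), (20, 100), (21, 3), (21, 20), (27, 7), (27, 73), (38, 39), (38, 60), (39, 15),
  (39, 38), (57, 58), (57, 99), (58, 57), (58, 59), (59, 58), (59, 60), (60, 38), (60, 59), (73,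
  27), (73, 74), (74, 73), (74, 75), (75, 74), (75, 76), (76, 75), (76, 100), (99, 18), (99, 57),
  (100, 20), (100, 76), (218, 1), (218, 299), (220, 221), (220, 300), (221, 3), (221, 220), (227,
  7), (227, 273), (238, 239), (238, 260), (239, 15), (239, 238), (257, 258), (257, 299), (258,
  257), (258, 259), (259, 258), (259, 260), (260, 238), (260, 259), (273, 227), (273, 274), (274,
  273), (274, 275), (275, 274), (275, 276), (276, 275), (276, 300), (299, 218), (299, 257), (300,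
  220), (300, 276)]

def be12 : List (ℕ × ℕ) :=
  [(2, 21), (2, 219), (4, 26), (4, 223), (8, 30), (8, 228), (16, 44), (16, 241), (21, 2), (21,
  23), (23, 21), (23, 25), (25, 23), (25, 46), (26, 4), (26, 47), (30, 8), (30, 32), (32, 30),
  (32, 34), (34, 32), (34, 67), (44, 16), (44, 91), (46, 25), (46, 50), (47, 26), (47, 51), (50,
  46), (50, 54), (51, 47), (51, 55), (54, 50), (54, 58), (55, 51), (55, 59), (58, 54), (58, 62),
  (59, 55), (59, 63), (62, 58), (62, 66), (63, 59), (63, 67), (66, 62), (66, 71), (67, 34), (67,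
  63), (71, 66), (71, 75), (75, 71), (75, 79), (79, 75), (79, 83), (83, 79), (83, 87), (87, 83),
  (87, 91), (91, 44), (91, 87), (219, 2), (219, 299), (222, 223), (222, 300), (223, 4), (223,
  222), (228, 8), (228, 277), (240, 241), (240, 264), (241, 16), (241, 240), (261, 262), (261,
  299), (262, 261), (262, 263), (263, 262), (263, 264), (264, 240), (264, 263), (277, 228), (277,
  278), (278, 277), (278, 279), (279, 278), (279, 280), (280, 279), (280, 300), (299, 219), (299,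
  261), (300, 222), (300, 280)]

def cr12 : List ℕ :=
  [21, 58, 59, 75, 299, 300]

def rt12 : List (ℕ × ℕ) :=
  [(59, 63), (21, 23), (0, 96), (5, 226)]

def labL12 : List (List (ℕ × ℕ × ℕ)) :=
  [[(96, 2, 0), (93, 2, 2), (65, 2, 4), (61, 2, 6), (99, 2, 8), (18, 2, 10), (1, 2, 12), (218, 2,
  14), (299, 2, 16), (261, 2, 18)], [(0, 2, 11), (18, 2, 34), (19, 2, 32), (2, 2, 34), (219, 2,
  36), (218, 2, 14)], [(1, 2, 33), (19, 2, 30), (20, 2, 32), (21, 3, 63), (3, 3, 60), (221, 3,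
  57), (220, 3, 54), (219, 2, 36)], [(2, 3, 61), (21, 1, 1), (23, 1, 3), (4, 1, 5), (223, 1, 7),
  (221, 3, 59)], [(3, 1, 4), (23, 1, 6), (25, 1, 8), (26, 3, 4), (5, 3, 1), (226, 3, 3), (225, 3,
  5), (223, 1, 7)], [(226, 3, 0), (4, 3, 2), (26, 3, 4), (47, 3, 6), (48, 3, 8)], [(98, 3, 52),
  (69, 3, 49), (73, 3, 46), (27, 3, 43), (7, 3, 40), (227, 3, 37), (273, 3, 34)], [(6, 3, 41),
  (27, 0, 32), (28, 0, 29), (8, 0, 31), (228, 0, 33), (227, 3, 39)], [(7, 0, 30), (28, 0, 27),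
  (29, 0, 24), (30, 3, 74), (9, 3, 74), (230, 3, 71), (229, 3, 68), (228, 0, 33)], [(8, 3, 75),
  (30, 3, 72), (32, 3, 69), (10, 3, 70), (232, 3, 72), (230, 3, 73)], [(9, 3, 70), (32, 3, 67),
  (34, 3, 64), (35, 3, 61), (11, 3, 63), (235, 3, 65), (234, 3, 67), (232, 3, 69)], [(235, 3, 65),
  (10, 3, 62), (35, 3, 59), (70, 3, 56), (69, 3, 53)], [(97, 3, 12), (48, 3, 12), (52, 3, 14),
  (36, 3, 16), (13, 3, 18), (236, 3, 20), (252, 3, 22)], [(12, 3, 17), (36, 3, 19), (37, 3, 21),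
  (14, 3, 23), (237, 3, 23), (236, 3, 20)], [(13, 3, 22), (37, 3, 24), (38, 3, 26), (39, 3, 28),
  (15, 3, 30), (239, 3, 31), (238, 3, 28), (237, 3, 25)], [(14, 3, 29), (39, 0, 16), (41, 0, 18),
  (16, 0, 20), (241, 0, 22), (239, 3, 32)], [(15, 0, 19), (41, 0, 16), (43, 0, 18), (44, 2, 15),
  (17, 2, 17), (244, 2, 19), (243, 2, 21), (241, 0, 22)], [(244, 2, 19), (16, 2, 16), (44, 2, 13),
  (91, 2, 10), (92, 2, 7), (93, 2, 4)], [(0, 2, 9), (99, 2, 31), (19, 2, 33), (1, 2, 12)], [(1, 2,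
  33), (18, 2, 32), (99, 2, 29), (94, 2, 27), (20, 2, 29), (2, 2, 31)], [(2, 2, 31), (19, 2, 28),
  (94, 2, 25), (100, 2, 19), (22, 2, 18), (23, 2, 20), (21, 2, 34)], [(2, 2, 33), (20, 2, 21),
  (23, 1, 0), (3, 3, 62)], [(20, 2, 19), (100, 2, 17), (76, 2, 14), (72, 2, 11), (24, 2, 13), (25,
  2, 15), (23, 2, 17)], [(3, 1, 2), (21, 2, 22), (20, 2, 19), (22, 2, 16), (25, 1, 8), (4, 1, 5)],
  [(22, 2, 12), (72, 2, 9), (93, 2, 10), (45, 2, 12), (46, 2, 14), (25, 2, 15)], [(4, 1, 7), (23,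
  2, 17), (22, 2, 14), (24, 2, 15), (46, 1, 16), (47, 1, 13), (26, 1, 10)], [(4, 1, 9), (25, 1,
  11), (47, 3, 6), (5, 3, 3)], [(6, 3, 44), (73, 0, 35), (77, 0, 32), (28, 0, 31), (7, 3, 42)],
  [(7, 0, 30), (27, 0, 32), (77, 0, 30), (81, 0, 27), (29, 0, 26), (8, 0, 28)], [(8, 0, 25), (28,
  0, 27), (81, 0, 25), (85, 0, 22), (31, 0, 19), (32, 0, 21), (30, 0, 23)], [(8, 0, 25), (29, 0,
  22), (32, 3, 71), (9, 3, 73)], [(29, 0, 20), (85, 0, 20), (89, 0, 17), (33, 0, 14), (34, 0, 16),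
  (32, 0, 18)], [(9, 3, 70), (30, 0, 23), (29, 0, 20), (31, 0, 17), (34, 3, 66), (10, 3, 68)],
  [(31, 0, 15), (89, 0, 15), (42, 0, 12), (68, 0, 9), (67, 0, 11), (34, 0, 13)], [(10, 3, 65),
  (32, 0, 18), (31, 0, 15), (33, 0, 12), (67, 3, 66), (95, 3, 63), (35, 3, 63)], [(10, 3, 62),
  (34, 3, 64), (95, 3, 61), (70, 3, 58), (11, 3, 60)], [(12, 3, 15), (52, 3, 17), (56, 3, 19),
  (37, 3, 21), (13, 3, 18)], [(13, 3, 20), (36, 3, 20), (56, 3, 22), (60, 3, 24), (38, 3, 26),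
  (14, 3, 23)], [(14, 3, 25), (37, 3, 25), (60, 0, 6), (64, 0, 8), (40, 0, 10), (41, 0, 12), (39,
  3, 28)], [(14, 3, 27), (38, 0, 13), (41, 0, 15), (15, 3, 30)], [(38, 0, 9), (64, 0, 6), (68, 0,
  8), (42, 0, 10), (43, 0, 12), (41, 0, 12)], [(15, 0, 17), (39, 0, 14), (38, 0, 11), (40, 0, 13),
  (43, 0, 15), (16, 0, 17)], [(33, 0, 13), (89, 0, 15), (90, 0, 15), (43, 0, 12), (40, 0, 9), (68,
  0, 11)], [(16, 0, 17), (41, 0, 14), (40, 0, 11), (42, 0, 13), (90, 0, 15), (91, 0, 17), (44, 0,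
  19)], [(16, 0, 19), (43, 0, 18), (91, 2, 12), (17, 2, 14)], [(24, 2, 11), (93, 2, 8), (92, 2,
  10), (88, 2, 12), (101, 2, 14), (49, 2, 16), (50, 2, 17), (46, 2, 14)], [(24, 2, 13), (45, 2,
  15), (50, 1, 21), (51, 1, 18), (47, 1, 15), (25, 2, 16)], [(5, 3, 5), (26, 1, 12), (25, 1, 14),
  (46, 1, 16), (51, 3, 14), (52, 3, 11), (48, 3, 8)], [(5, 3, 7), (47, 3, 9), (52, 3, 11), (12, 3,
  13), (97, 3, 10)], [(45, 2, 15), (101, 2, 17), (53, 2, 19), (54, 2, 21), (50, 2, 18)], [(45, 2,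
  17), (49, 2, 19), (54, 1, 26), (55, 1, 23), (51, 1, 20), (46, 2, 16)], [(46, 1, 19), (50, 1,
  21), (55, 3, 19), (56, 3, 16), (52, 3, 13), (47, 1, 17)], [(12, 3, 13), (48, 3, 10), (47, 3,
  12), (51, 3, 14), (56, 3, 16), (36, 3, 16)], [(49, 2, 18), (101, 2, 20), (94, 2, 22), (57, 2,
  24), (58, 2, 24), (54, 2, 21)], [(49, 2, 20), (53, 2, 22), (58, 1, 31), (59, 1, 28), (55, 1,
  25), (50, 2, 20)], [(50, 1, 24), (54, 1, 26), (59, 3, 24), (60, 3, 21), (56, 3, 18), (51, 1,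
  22)], [(36, 3, 18), (52, 3, 15), (51, 3, 17), (55, 3, 19), (60, 3, 21), (37, 3, 21)], [(53, 2,
  23), (94, 2, 25), (99, 2, 10), (61, 2, 12), (62, 2, 14), (58, 2, 26)], [(53, 2, 25), (57, 2,
  15), (62, 3, 73), (63, 3, 75), (59, 1, 30), (54, 2, 23)], [(54, 1, 29), (58, 3, 76), (63, 0, 0),
  (64, 0, 2), (60, 3, 23), (55, 1, 27)], [(37, 3, 23), (56, 3, 20), (55, 3, 22), (59, 0, 3), (64,
  0, 5), (38, 3, 26)], [(0, 2, 5), (65, 2, 7), (66, 2, 9), (62, 2, 11), (57, 2, 11), (99, 2, 8)],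
  [(57, 2, 13), (61, 2, 10), (66, 3, 68), (67, 3, 70), (63, 3, 72), (58, 2, 16)], [(58, 3, 74),
  (62, 3, 71), (67, 0, 8), (68, 0, 5), (64, 0, 2), (59, 3, 77)], [(38, 0, 7), (60, 0, 4), (59, 0,
  1), (63, 0, 3), (68, 0, 5), (40, 0, 7)], [(0, 2, 3), (93, 2, 5), (72, 2, 7), (71, 2, 9), (66, 2,
  9), (61, 2, 6)], [(61, 2, 8), (65, 2, 10), (71, 3, 63), (95, 3, 65), (67, 3, 67), (62, 2, 11)],
  [(33, 0, 10), (68, 0, 7), (63, 3, 72), (62, 3, 69), (66, 3, 66), (95, 3, 65), (34, 0, 13)],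
  [(33, 0, 10), (42, 0, 10), (40, 0, 7), (64, 0, 4), (63, 0, 6), (67, 0, 8)], [(6, 3, 50), (98, 3,
  52), (11, 3, 54), (70, 3, 54), (74, 3, 51), (73, 3, 48)], [(11, 3, 57), (35, 3, 59), (95, 3,
  61), (71, 3, 59), (75, 3, 56), (74, 3, 53), (69, 3, 55)], [(65, 2, 8), (72, 2, 10), (76, 2, 12),
  (75, 3, 58), (70, 3, 60), (95, 3, 62), (66, 2, 11)], [(22, 2, 12), (76, 2, 12), (71, 2, 9), (65,
  2, 6), (93, 2, 8), (24, 2, 10)], [(6, 3, 47), (69, 3, 49), (74, 0, 37), (78, 0, 34), (77, 0,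
  34), (27, 3, 45)], [(69, 3, 52), (70, 3, 54), (75, 0, 37), (79, 0, 34), (78, 0, 36), (73, 3,
  50)], [(70, 3, 57), (71, 2, 13), (76, 2, 29), (80, 2, 26), (79, 0, 36), (74, 3, 55)], [(22, 2,
  15), (100, 2, 26), (80, 2, 28), (75, 2, 14), (71, 2, 11), (72, 2, 13)], [(27, 0, 33), (73, 0,
  35), (78, 0, 32), (82, 0, 29), (81, 0, 29), (28, 0, 31)], [(73, 0, 35), (74, 0, 35), (79, 0,
  32), (83, 0, 29), (82, 0, 31), (77, 0, 33)], [(74, 0, 35), (75, 2, 27), (80, 2, 24), (84, 2,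
  21), (83, 0, 31), (78, 0, 33)], [(75, 2, 27), (76, 2, 27), (100, 2, 24), (94, 2, 21), (84, 2,
  23), (79, 2, 25)], [(28, 0, 28), (77, 0, 30), (82, 0, 27), (86, 0, 24), (85, 0, 24), (29, 0,
  26)], [(77, 0, 30), (78, 0, 30), (83, 0, 27), (87, 0, 24), (86, 0, 26), (81, 0, 28)], [(78, 0,
  30), (79, 2, 22), (84, 2, 19), (88, 2, 16), (87, 0, 26), (82, 0, 28)], [(79, 2, 22), (80, 2,
  22), (94, 2, 19), (101, 2, 16), (88, 2, 18), (83, 2, 20)], [(29, 0, 23), (81, 0, 25), (86, 0,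
  22), (90, 0, 19), (89, 0, 19), (31, 0, 21)], [(81, 0, 25), (82, 0, 25), (87, 0, 22), (91, 0,
  19), (90, 0, 21), (85, 0, 23)], [(82, 0, 25), (83, 2, 17), (88, 2, 14), (92, 2, 11), (91, 0,
  21), (86, 0, 23)], [(45, 2, 11), (92, 2, 13), (87, 2, 15), (83, 2, 17), (84, 2, 17), (101, 2,
  14)], [(31, 0, 18), (85, 0, 20), (90, 0, 17), (42, 0, 14), (33, 0, 16)], [(42, 0, 16), (89, 0,
  18), (85, 0, 20), (86, 0, 20), (91, 0, 17), (43, 0, 14)], [(17, 2, 11), (44, 0, 19), (43, 0,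
  16), (90, 0, 18), (86, 0, 20), (87, 2, 12), (92, 2, 9)], [(17, 2, 8), (91, 2, 10), (87, 2, 12),
  (88, 2, 12), (45, 2, 9), (93, 2, 6)], [(0, 2, 1), (96, 2, 3), (17, 2, 5), (92, 2, 7), (45, 2,
  9), (24, 2, 10), (72, 2, 7), (65, 2, 4)], [(19, 2, 28), (99, 2, 27), (57, 2, 24), (53, 2, 21),
  (101, 2, 18), (84, 2, 20), (80, 2, 22), (100, 2, 24), (20, 2, 26)], [(34, 3, 64), (67, 3, 66),
  (66, 3, 64), (71, 3, 61), (70, 3, 60), (35, 3, 62)], [(17, 2, 5), (93, 2, 2)], [(5, 3, 9), (48,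
  3, 11)], [(11, 3, 54), (69, 3, 51)], [(0, 2, 7), (61, 2, 9), (57, 2, 26), (94, 2, 28), (19, 2,
  30), (18, 2, 10)], [(20, 2, 26), (94, 2, 23), (80, 2, 25), (76, 2, 16), (22, 2, 18)], [(45, 2,
  13), (88, 2, 15), (84, 2, 17), (94, 2, 19), (53, 2, 19), (49, 2, 16)]]

def labT12 : List (List (ℕ × ℕ × ℕ)) :=
  [[], [], [], [], [], [], [], [], [], [], [], [], [], [], [], [], [], [], [(0, 2, 13), (1, 2,
  37), (219, 2, 39), (299, 2, 16)], [(1, 2, 35), (2, 3, 55), (220, 3, 52), (294, 3, 49), (299, 2,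
  41), (218, 2, 38)], [(2, 3, 55), (221, 1, 11), (223, 1, 13), (222, 1, 15), (300, 3, 54), (294,
  3, 51), (219, 3, 53)], [(2, 3, 58), (3, 1, 8), (223, 1, 10), (220, 3, 56)], [(220, 1, 14), (223,
  3, 9), (225, 3, 11), (224, 3, 13), (272, 3, 15), (276, 3, 17), (300, 1, 17)], [(3, 1, 6), (4, 3,
  6), (225, 3, 8), (222, 1, 15), (220, 1, 12), (221, 1, 9)], [(272, 3, 15), (222, 3, 12)], [(224,
  3, 13), (222, 3, 10), (223, 3, 7), (4, 3, 4)], [(225, 3, 5), (4, 3, 2)], [(6, 3, 38), (7, 0,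
  34), (228, 0, 36), (277, 0, 38), (273, 3, 36)], [(7, 0, 32), (8, 3, 69), (229, 3, 66), (281, 3,
  63), (277, 0, 38), (227, 0, 35)], [(8, 3, 69), (230, 3, 71), (232, 3, 69), (231, 3, 66), (285,
  3, 63), (281, 3, 65), (228, 3, 67)], [(8, 3, 72), (9, 3, 73), (232, 3, 71), (229, 3, 70)],
  [(229, 3, 67), (232, 3, 69), (234, 3, 69), (233, 3, 66), (289, 3, 63), (285, 3, 65)], [(9, 3,
  71), (10, 3, 68), (234, 3, 70), (231, 3, 68), (229, 3, 70), (230, 3, 72)], [(289, 3, 65), (231,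
  3, 67)], [(233, 3, 68), (231, 3, 70), (232, 3, 69), (10, 3, 66)], [(234, 3, 67), (10, 3, 64)],
  [(12, 3, 19), (13, 3, 21), (237, 3, 23), (256, 3, 25), (252, 3, 22)], [(13, 3, 24), (14, 3, 26),
  (238, 3, 28), (260, 3, 28), (256, 3, 25), (236, 3, 22)], [(14, 3, 29), (239, 0, 26), (241, 0,
  28), (240, 0, 30), (264, 0, 32), (260, 3, 30), (237, 3, 27)], [(14, 3, 31), (15, 0, 23), (241,
  0, 25), (238, 3, 30)], [(238, 0, 29), (241, 2, 25), (243, 2, 27), (242, 2, 29), (268, 2, 31),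
  (264, 0, 32)], [(15, 0, 21), (16, 2, 22), (243, 2, 24), (240, 0, 30), (238, 0, 27), (239, 0,
  24)], [(268, 2, 31), (240, 2, 28)], [(242, 2, 29), (240, 2, 26), (241, 2, 23), (16, 2, 20)],
  [(243, 2, 21), (16, 2, 18)], [(246, 3, 36), (250, 3, 38), (249, 3, 40), (301, 3, 42), (288, 3,
  44)], [(247, 3, 31), (251, 3, 33), (250, 3, 35)], [(248, 3, 26), (252, 3, 28), (251, 3, 30)],
  [(12, 3, 23), (252, 3, 25)], [(245, 3, 39), (250, 3, 36), (254, 3, 38), (253, 3, 40), (301, 3,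
  42)], [(245, 3, 37), (246, 3, 34), (251, 3, 31), (255, 3, 33), (254, 3, 35), (249, 3, 37)],
  [(246, 3, 32), (247, 3, 29), (252, 3, 26), (256, 3, 28), (255, 3, 30), (250, 3, 32)], [(12, 3,
  21), (236, 3, 23), (256, 3, 25), (251, 3, 27), (247, 3, 27), (248, 3, 24)], [(249, 3, 39), (254,
  3, 39), (258, 3, 41), (257, 3, 43), (294, 3, 45), (301, 3, 42)], [(249, 3, 37), (250, 3, 34),
  (255, 3, 34), (259, 3, 36), (258, 3, 38), (253, 3, 40)], [(250, 3, 32), (251, 3, 29), (256, 3,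
  29), (260, 3, 31), (259, 3, 33), (254, 3, 35)], [(236, 3, 24), (237, 3, 26), (260, 3, 28), (255,
  3, 30), (251, 3, 27), (252, 3, 24)], [(253, 3, 42), (258, 0, 46), (262, 0, 48), (261, 0, 50),
  (299, 3, 48), (294, 3, 45)], [(253, 3, 40), (254, 3, 37), (259, 0, 41), (263, 0, 43), (262, 0,
  45), (257, 3, 43)], [(254, 3, 35), (255, 3, 32), (260, 0, 36), (264, 0, 38), (263, 0, 40), (258,
  3, 38)], [(237, 3, 29), (238, 0, 33), (264, 0, 35), (259, 3, 33), (255, 3, 30), (256, 3, 27)],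
  [(0, 2, 17), (299, 0, 52), (257, 0, 49), (262, 2, 26), (266, 2, 23), (265, 2, 20)], [(257, 0,
  47), (258, 0, 44), (263, 2, 31), (267, 2, 28), (266, 2, 25), (261, 0, 50)], [(258, 0, 42), (259,
  0, 39), (264, 2, 35), (268, 2, 33), (267, 2, 30), (262, 0, 45)], [(238, 0, 31), (240, 2, 32),
  (268, 2, 34), (263, 0, 40), (259, 0, 37), (260, 0, 34)], [(0, 2, 19), (261, 2, 21)], [(265, 2,
  22), (261, 2, 24), (262, 2, 26)], [(266, 2, 27), (262, 2, 29), (263, 2, 31)], [(267, 2, 32),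
  (263, 2, 34), (264, 2, 33), (240, 2, 30)], [(6, 3, 35), (273, 3, 32), (274, 3, 29)], [(269, 3,
  30), (274, 3, 27), (275, 3, 24)], [(270, 3, 25), (275, 3, 22), (276, 3, 19)], [(271, 3, 20),
  (276, 3, 17), (222, 3, 14)], [(6, 3, 35), (227, 0, 39), (277, 0, 41), (278, 0, 43), (274, 3,
  31), (269, 3, 33)], [(269, 3, 30), (273, 0, 44), (278, 0, 46), (279, 0, 48), (275, 3, 26), (270,
  3, 28)], [(270, 3, 25), (274, 0, 49), (279, 0, 51), (280, 0, 53), (276, 3, 21), (271, 3, 23)],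
  [(222, 3, 16), (272, 3, 18), (271, 3, 20), (275, 0, 54), (280, 0, 56), (300, 3, 19)], [(227, 0,
  37), (228, 3, 64), (281, 3, 61), (282, 3, 58), (278, 0, 43), (273, 0, 40)], [(273, 0, 42), (277,
  3, 59), (282, 3, 56), (283, 3, 53), (279, 0, 48), (274, 0, 45)], [(274, 0, 47), (278, 3, 54),
  (283, 3, 51), (284, 3, 51), (280, 0, 53), (275, 0, 50)], [(275, 0, 52), (279, 3, 52), (284, 3,
  49), (294, 3, 51), (300, 0, 58), (276, 0, 55)], [(228, 3, 64), (229, 3, 64), (285, 3, 61), (286,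
  3, 58), (282, 3, 60), (277, 3, 62)], [(277, 3, 59), (281, 3, 59), (286, 3, 56), (287, 3, 53),
  (283, 3, 55), (278, 3, 57)], [(278, 3, 54), (282, 3, 54), (287, 3, 51), (288, 3, 48), (284, 3,
  50), (279, 3, 52)], [(279, 3, 52), (283, 3, 49), (288, 3, 46), (301, 3, 46), (294, 3, 48), (280,
  3, 50)], [(229, 3, 64), (231, 3, 64), (289, 3, 61), (290, 3, 58), (286, 3, 60), (281, 3, 62)],
  [(281, 3, 59), (285, 3, 59), (290, 3, 56), (291, 3, 53), (287, 3, 55), (282, 3, 57)], [(282, 3,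
  54), (286, 3, 54), (291, 3, 51), (292, 3, 48), (288, 3, 50), (283, 3, 52)], [(245, 3, 43), (301,
  3, 45), (284, 3, 47), (283, 3, 49), (287, 3, 49), (292, 3, 46)], [(290, 3, 60), (285, 3, 62),
  (231, 3, 64)], [(291, 3, 55), (286, 3, 57), (285, 3, 59)], [(292, 3, 50), (287, 3, 52), (286, 3,
  54)], [(245, 3, 45), (288, 3, 47), (287, 3, 49)], [], [(219, 3, 50), (220, 3, 52), (300, 3, 53),
  (280, 3, 50), (284, 3, 47), (301, 3, 44), (253, 3, 44), (257, 3, 46), (299, 3, 48)], [], [], [],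
  [], [(0, 2, 15), (218, 2, 40), (219, 3, 50), (294, 3, 47), (257, 0, 51), (261, 2, 18)], [(220,
  1, 16), (222, 3, 18), (276, 0, 57), (280, 3, 52), (294, 3, 53)], [(245, 3, 41), (249, 3, 41),
  (253, 3, 43), (294, 3, 45), (284, 3, 47), (288, 3, 44)]]

def rect : List (ℕ × ℕ) :=
  [(7, 8), (7, 27), (7, 28), (7, 228), (8, 7), (8, 28), (8, 29), (8, 228), (15, 16), (15, 39),
  (15, 41), (15, 241), (16, 15), (16, 41), (16, 43), (16, 241), (27, 28), (27, 73), (27, 77), (28,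
  7), (28, 8), (28, 27), (28, 29), (28, 77), (28, 81), (29, 8), (29, 28), (29, 30), (29, 31), (29,
  32), (29, 81), (29, 85), (30, 8), (30, 29), (31, 29), (31, 32), (31, 33), (31, 34), (31, 85),
  (31, 89), (32, 29), (32, 30), (32, 31), (33, 31), (33, 34), (33, 42), (33, 67), (33, 68), (33,
  89), (34, 31), (34, 32), (34, 33), (38, 40), (38, 41), (38, 60), (38, 64), (39, 38), (39, 41),
  (40, 38), (40, 41), (40, 42), (40, 43), (40, 64), (40, 68), (41, 15), (41, 16), (41, 38), (41,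
  39), (41, 40), (41, 43), (42, 33), (42, 40), (42, 43), (42, 68), (42, 89), (42, 90), (43, 16),
  (43, 40), (43, 41), (43, 42), (43, 44), (43, 90), (43, 91), (44, 16), (44, 43), (59, 63), (59,
  64), (60, 59), (60, 64), (63, 64), (63, 67), (63, 68), (64, 38), (64, 40), (64, 59), (64, 60),
  (64, 63), (64, 68), (67, 33), (67, 34), (67, 68), (68, 33), (68, 40), (68, 42), (68, 63), (68,
  64), (68, 67), (73, 74), (73, 77), (73, 78), (74, 75), (74, 78), (74, 79), (75, 79), (77, 27),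
  (77, 28), (77, 73), (77, 78), (77, 81), (77, 82), (78, 73), (78, 74), (78, 77), (78, 79), (78,
  82), (78, 83), (79, 74), (79, 78), (79, 83), (81, 28), (81, 29), (81, 77), (81, 82), (81, 85),
  (81, 86), (82, 77), (82, 78), (82, 81), (82, 83), (82, 86), (82, 87), (83, 78), (83, 82), (83,
  87), (85, 29), (85, 31), (85, 81), (85, 86), (85, 89), (85, 90), (86, 81), (86, 82), (86, 85),
  (86, 87), (86, 90), (86, 91), (87, 82), (87, 86), (87, 91), (89, 31), (89, 33), (89, 42), (89,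
  85), (89, 90), (90, 42), (90, 43), (90, 85), (90, 86), (90, 89), (90, 91), (91, 43), (91, 44),
  (91, 86), (91, 90), (227, 7), (227, 228), (227, 277), (228, 7), (228, 227), (228, 277), (238,
  239), (238, 240), (238, 241), (238, 264), (239, 15), (239, 241), (240, 238), (240, 264), (241,
  15), (241, 238), (241, 239), (241, 240), (257, 258), (257, 261), (257, 262), (258, 259), (258,
  262), (258, 263), (259, 260), (259, 263), (259, 264), (260, 238), (260, 264), (261, 257), (261,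
  299), (262, 257), (262, 258), (262, 261), (263, 258), (263, 259), (263, 262), (264, 238), (264,
  259), (264, 260), (264, 263), (273, 227), (273, 277), (273, 278), (274, 273), (274, 278), (274,
  279), (275, 274), (275, 279), (275, 280), (276, 275), (276, 280), (277, 227), (277, 273), (277,
  278), (278, 273), (278, 274), (278, 279), (279, 274), (279, 275), (279, 280), (280, 275), (280,
  276), (280, 300), (299, 257), (300, 276)]

def al13 : List (ℕ × ℕ) :=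
  [(1, 18), (1, 218), (9, 30), (9, 230), (13, 36), (13, 236), (15, 39), (15, 239), (18, 1), (18,
  99), (29, 30), (29, 81), (30, 9), (30, 29), (36, 13), (36, 52), (38, 39), (38, 60), (39, 15),
  (39, 38), (49, 50), (49, 101), (50, 49), (50, 51), (51, 50), (51, 52), (52, 36), (52, 51), (57,
  58), (57, 99), (58, 57), (58, 59), (59, 58), (59, 60), (60, 38), (60, 59), (81, 29), (81, 82),
  (82, 81), (82, 83), (83, 82), (83, 84), (84, 83), (84, 101), (99, 18), (99, 57), (101, 49),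
  (101, 84), (218, 1), (218, 299), (229, 230), (229, 281), (230, 9), (230, 229), (236, 13), (236,
  252), (238, 239), (238, 260), (239, 15), (239, 238), (249, 250), (249, 301), (250, 249), (250,
  251), (251, 250), (251, 252), (252, 236), (252, 251), (257, 258), (257, 299), (258, 257), (258,
  259), (259, 258), (259, 260), (260, 238), (260, 259), (281, 229), (281, 282), (282, 281), (282,
  283), (283, 282), (283, 284), (284, 283), (284, 301), (299, 218), (299, 257), (301, 249), (301,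
  284)]

def be13 : List (ℕ × ℕ) :=
  [(2, 21), (2, 219), (10, 35), (10, 232), (14, 39), (14, 237), (16, 44), (16, 241), (21, 2), (21,
  23), (23, 21), (23, 25), (25, 23), (25, 46), (35, 10), (35, 70), (39, 14), (39, 41), (41, 39),
  (41, 43), (43, 41), (43, 90), (44, 16), (44, 91), (46, 25), (46, 50), (50, 46), (50, 54), (54,
  50), (54, 58), (58, 54), (58, 62), (62, 58), (62, 66), (66, 62), (66, 71), (70, 35), (70, 74),
  (71, 66), (71, 75), (74, 70), (74, 78), (75, 71), (75, 79), (78, 74), (78, 82), (79, 75), (79,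
  83), (82, 78), (82, 86), (83, 79), (83, 87), (86, 82), (86, 90), (87, 83), (87, 91), (90, 43),
  (90, 86), (91, 44), (91, 87), (219, 2), (219, 299), (231, 232), (231, 285), (232, 10), (232,
  231), (237, 14), (237, 256), (240, 241), (240, 264), (241, 16), (241, 240), (253, 254), (253,
  301), (254, 253), (254, 255), (255, 254), (255, 256), (256, 237), (256, 255), (261, 262), (261,
  299), (262, 261), (262, 263), (263, 262), (263, 264), (264, 240), (264, 263), (285, 231), (285,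
  286), (286, 285), (286, 287), (287, 286), (287, 288), (288, 287), (288, 301), (299, 219), (299,
  261), (301, 253), (301, 288)]

def cr13 : List ℕ :=
  [39, 50, 58, 82, 83, 299, 301]

def rt13 : List (ℕ × ℕ) :=
  [(39, 14), (39, 41), (39, 38), (0, 96), (5, 226)]

def labL13 : List (List (ℕ × ℕ × ℕ)) :=
  [[(96, 3, 0), (93, 3, 2), (65, 3, 4), (61, 3, 6), (99, 3, 8), (18, 3, 10), (1, 3, 12), (218, 3,
  14), (299, 3, 16), (261, 3, 18)], [(0, 3, 11), (18, 3, 31), (19, 3, 28), (2, 3, 30), (219, 3,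
  32), (218, 3, 14)], [(1, 3, 29), (19, 3, 26), (20, 3, 23), (21, 4, 16), (3, 4, 13), (221, 4,
  15), (220, 4, 17), (219, 3, 32)], [(2, 4, 14), (21, 4, 14), (23, 4, 11), (4, 4, 8), (223, 4,
  10), (221, 4, 12)], [(3, 4, 9), (23, 4, 10), (25, 4, 7), (26, 4, 4), (5, 4, 1), (226, 4, 3),
  (225, 4, 5), (223, 4, 7)], [(226, 4, 0), (4, 4, 2), (26, 4, 4), (47, 4, 6), (48, 4, 8)], [(98,
  4, 52), (69, 4, 49), (73, 4, 46), (27, 4, 43), (7, 4, 40), (227, 4, 37), (273, 4, 34)], [(6, 4,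
  41), (27, 4, 43), (28, 4, 45), (8, 4, 45), (228, 4, 42), (227, 4, 39)], [(7, 4, 46), (28, 4,
  48), (29, 4, 50), (30, 4, 52), (9, 4, 50), (230, 4, 47), (229, 4, 44), (228, 4, 44)], [(8, 4,
  51), (30, 2, 29), (32, 2, 29), (10, 2, 31), (232, 2, 33), (230, 4, 49)], [(9, 2, 30), (32, 2,
  27), (34, 2, 26), (35, 4, 61), (11, 4, 63), (235, 4, 65), (234, 4, 67), (232, 2, 33)], [(235, 4,
  65), (10, 4, 62), (35, 4, 59), (70, 4, 56), (69, 4, 53)], [(97, 4, 12), (48, 4, 12), (52, 4,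
  14), (36, 4, 16), (13, 4, 18), (236, 4, 20), (252, 4, 22)], [(12, 4, 17), (36, 0, 10), (37, 0,
  7), (14, 0, 9), (237, 0, 11), (236, 4, 20)], [(13, 0, 8), (37, 0, 5), (38, 0, 2), (39, 4, 58),
  (15, 4, 55), (239, 4, 52), (238, 4, 49), (237, 0, 11)], [(14, 4, 56), (39, 1, 1), (41, 1, 3),
  (16, 1, 5), (241, 1, 7), (239, 4, 54)], [(15, 1, 4), (41, 1, 6), (43, 1, 8), (44, 3, 15), (17,
  3, 17), (244, 3, 19), (243, 3, 21), (241, 1, 7)], [(244, 3, 19), (16, 3, 16), (44, 3, 13), (91,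
  3, 10), (92, 3, 7), (93, 3, 4)], [(0, 3, 9), (99, 3, 29), (19, 3, 30), (1, 3, 12)], [(1, 3, 29),
  (18, 3, 30), (99, 3, 27), (94, 3, 24), (20, 3, 25), (2, 3, 27)], [(2, 3, 24), (19, 3, 25), (94,
  3, 22), (100, 3, 19), (22, 3, 18), (23, 3, 20), (21, 3, 22)], [(2, 3, 24), (20, 3, 21), (23, 4,
  13), (3, 4, 15)], [(20, 3, 19), (100, 3, 17), (76, 3, 14), (72, 3, 11), (24, 3, 13), (25, 3,
  15), (23, 3, 17)], [(3, 4, 12), (21, 3, 22), (20, 3, 19), (22, 3, 16), (25, 4, 9), (4, 4, 10)],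
  [(22, 3, 12), (72, 3, 9), (93, 3, 10), (45, 3, 12), (46, 3, 14), (25, 3, 15)], [(4, 4, 8), (23,
  3, 17), (22, 3, 14), (24, 3, 15), (46, 4, 11), (47, 4, 8), (26, 4, 6)], [(4, 4, 5), (25, 4, 7),
  (47, 4, 6), (5, 4, 3)], [(6, 4, 44), (73, 4, 46), (77, 4, 48), (28, 4, 45), (7, 4, 42)], [(7, 4,
  44), (27, 4, 46), (77, 4, 48), (81, 4, 50), (29, 4, 50), (8, 4, 47)], [(8, 4, 49), (28, 4, 51),
  (81, 2, 24), (85, 2, 21), (31, 2, 23), (32, 2, 25), (30, 4, 52)], [(8, 4, 51), (29, 2, 26), (32,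
  2, 28), (9, 4, 52)], [(29, 2, 22), (85, 2, 19), (89, 2, 19), (33, 2, 21), (34, 2, 23), (32, 2,
  25)], [(9, 2, 30), (30, 2, 27), (29, 2, 24), (31, 2, 24), (34, 2, 26), (10, 2, 28)], [(31, 2,
  20), (89, 2, 17), (42, 2, 14), (68, 2, 16), (67, 2, 18), (34, 2, 20)], [(10, 2, 27), (32, 2,
  25), (31, 2, 22), (33, 2, 19), (67, 2, 21), (95, 2, 23), (35, 2, 25)], [(10, 2, 27), (34, 2,
  24), (95, 2, 26), (70, 4, 58), (11, 4, 60)], [(12, 4, 15), (52, 0, 15), (56, 0, 12), (37, 0, 9),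
  (13, 4, 18)], [(13, 0, 8), (36, 0, 10), (56, 0, 10), (60, 0, 7), (38, 0, 4), (14, 0, 6)], [(14,
  0, 3), (37, 0, 5), (60, 2, 11), (64, 2, 8), (40, 2, 5), (41, 2, 2), (39, 0, 1)], [(14, 0, 0),
  (38, 2, 0), (41, 1, 0), (15, 4, 57)], [(38, 2, 6), (64, 2, 8), (68, 2, 10), (42, 2, 10), (43, 2,
  7), (41, 2, 4)], [(15, 1, 2), (39, 2, 1), (38, 2, 3), (40, 2, 5), (43, 1, 8), (16, 1, 5)], [(33,
  2, 15), (89, 2, 15), (90, 2, 12), (43, 2, 9), (40, 2, 11), (68, 2, 13)], [(16, 1, 7), (41, 2,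
  6), (40, 2, 8), (42, 2, 10), (90, 1, 16), (91, 1, 13), (44, 1, 10)], [(16, 1, 9), (43, 1, 11),
  (91, 3, 12), (17, 3, 14)], [(24, 3, 11), (93, 3, 8), (92, 3, 10), (88, 3, 12), (101, 3, 14),
  (49, 3, 16), (50, 3, 17), (46, 3, 14)], [(24, 3, 13), (45, 3, 15), (50, 4, 16), (51, 4, 13),
  (47, 4, 10), (25, 3, 16)], [(5, 4, 5), (26, 4, 7), (25, 4, 9), (46, 4, 11), (51, 4, 13), (52, 4,
  11), (48, 4, 8)], [(5, 4, 7), (47, 4, 9), (52, 4, 11), (12, 4, 13), (97, 4, 10)], [(45, 3, 15),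
  (101, 3, 31), (53, 3, 33), (54, 3, 35), (50, 3, 18)], [(45, 3, 17), (49, 3, 36), (54, 0, 19),
  (55, 0, 16), (51, 4, 15), (46, 3, 16)], [(46, 4, 14), (50, 0, 17), (55, 0, 14), (56, 0, 16),
  (52, 4, 13), (47, 4, 12)], [(12, 4, 13), (48, 4, 10), (47, 4, 12), (51, 0, 17), (56, 0, 14),
  (36, 4, 16)], [(49, 3, 32), (101, 3, 29), (94, 3, 30), (57, 3, 32), (58, 3, 34), (54, 3, 35)],
  [(49, 3, 34), (53, 3, 35), (58, 0, 19), (59, 0, 16), (55, 0, 18), (50, 3, 37)], [(50, 0, 17),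
  (54, 0, 17), (59, 0, 14), (60, 0, 11), (56, 0, 13), (51, 0, 15)], [(36, 0, 13), (52, 0, 15),
  (51, 0, 15), (55, 0, 12), (60, 0, 9), (37, 0, 11)], [(53, 3, 31), (94, 3, 28), (99, 3, 10), (61,
  3, 12), (62, 3, 14), (58, 3, 34)], [(53, 3, 33), (57, 3, 15), (62, 2, 20), (63, 2, 17), (59, 0,
  18), (54, 3, 36)], [(54, 0, 17), (58, 2, 18), (63, 2, 15), (64, 2, 12), (60, 0, 13), (55, 0,
  15)], [(37, 0, 8), (56, 0, 10), (55, 0, 12), (59, 2, 13), (64, 2, 10), (38, 0, 6)], [(0, 3, 5),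
  (65, 3, 7), (66, 3, 9), (62, 3, 11), (57, 3, 11), (99, 3, 8)], [(57, 3, 13), (61, 3, 10), (66,
  2, 20), (67, 2, 17), (63, 2, 19), (58, 3, 16)], [(58, 2, 18), (62, 2, 18), (67, 2, 15), (68, 2,
  12), (64, 2, 14), (59, 2, 16)], [(38, 2, 9), (60, 2, 11), (59, 2, 13), (63, 2, 13), (68, 2, 10),
  (40, 2, 7)], [(0, 3, 3), (93, 3, 5), (72, 3, 7), (71, 3, 9), (66, 3, 9), (61, 3, 6)], [(61, 3,
  8), (65, 3, 10), (71, 2, 25), (95, 2, 22), (67, 2, 19), (62, 3, 11)], [(33, 2, 17), (68, 2, 14),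
  (63, 2, 16), (62, 2, 18), (66, 2, 20), (95, 2, 22), (34, 2, 20)], [(33, 2, 15), (42, 2, 12),
  (40, 2, 9), (64, 2, 11), (63, 2, 13), (67, 2, 15)], [(6, 4, 50), (98, 4, 52), (11, 4, 54), (70,
  4, 54), (74, 4, 51), (73, 4, 48)], [(11, 4, 57), (35, 2, 27), (95, 2, 26), (71, 2, 28), (75, 2,
  30), (74, 4, 53), (69, 4, 55)], [(65, 3, 8), (72, 3, 10), (76, 3, 12), (75, 2, 30), (70, 2, 27),
  (95, 2, 24), (66, 3, 11)], [(22, 3, 12), (76, 3, 12), (71, 3, 9), (65, 3, 6), (93, 3, 8), (24,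
  3, 10)], [(6, 4, 47), (69, 4, 49), (74, 4, 51), (78, 4, 51), (77, 4, 48), (27, 4, 45)], [(69, 4,
  52), (70, 2, 31), (75, 2, 33), (79, 2, 35), (78, 4, 53), (73, 4, 50)], [(70, 2, 29), (71, 3,
  13), (76, 3, 15), (80, 3, 17), (79, 2, 35), (74, 2, 32)], [(22, 3, 15), (100, 3, 17), (80, 3,
  17), (75, 3, 14), (71, 3, 11), (72, 3, 13)], [(27, 4, 47), (73, 4, 49), (78, 4, 51), (82, 4,
  53), (81, 4, 50), (28, 4, 47)], [(73, 4, 52), (74, 2, 36), (79, 2, 38), (83, 2, 40), (82, 4,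
  53), (77, 4, 50)], [(74, 2, 34), (75, 3, 18), (80, 3, 20), (84, 3, 22), (83, 2, 40), (78, 2,
  37)], [(75, 3, 16), (76, 3, 18), (100, 3, 20), (94, 3, 22), (84, 3, 22), (79, 3, 19)], [(28, 4,
  49), (77, 4, 51), (82, 2, 24), (86, 2, 21), (85, 2, 23), (29, 4, 52)], [(77, 4, 52), (78, 2,
  41), (83, 1, 25), (87, 1, 22), (86, 2, 23), (81, 4, 52)], [(78, 2, 39), (79, 3, 23), (84, 3,
  19), (88, 3, 16), (87, 1, 24), (82, 2, 42)], [(79, 3, 21), (80, 3, 23), (94, 3, 25), (101, 3,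
  16), (88, 3, 18), (83, 3, 24)], [(29, 2, 22), (81, 2, 22), (86, 2, 19), (90, 2, 16), (89, 2,
  18), (31, 2, 20)], [(81, 2, 22), (82, 1, 23), (87, 1, 20), (91, 1, 17), (90, 2, 18), (85, 2,
  20)], [(82, 1, 23), (83, 3, 17), (88, 3, 14), (92, 3, 11), (91, 1, 19), (86, 1, 21)], [(45, 3,
  11), (92, 3, 13), (87, 3, 15), (83, 3, 17), (84, 3, 17), (101, 3, 14)], [(31, 2, 20), (85, 2,
  17), (90, 2, 14), (42, 2, 16), (33, 2, 18)], [(42, 2, 13), (89, 2, 15), (85, 2, 17), (86, 1,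
  18), (91, 1, 15), (43, 2, 11)], [(17, 3, 11), (44, 1, 12), (43, 1, 14), (90, 1, 16), (86, 1,
  18), (87, 3, 12), (92, 3, 9)], [(17, 3, 8), (91, 3, 10), (87, 3, 12), (88, 3, 12), (45, 3, 9),
  (93, 3, 6)], [(0, 3, 1), (96, 3, 3), (17, 3, 5), (92, 3, 7), (45, 3, 9), (24, 3, 10), (72, 3,
  7), (65, 3, 4)], [(19, 3, 25), (99, 3, 27), (57, 3, 29), (53, 3, 30), (101, 3, 27), (84, 3, 24),
  (80, 3, 21), (100, 3, 21), (20, 3, 23)], [(34, 2, 22), (67, 2, 21), (66, 2, 23), (71, 2, 25),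
  (70, 2, 27), (35, 2, 25)], [(17, 3, 5), (93, 3, 2)], [(5, 4, 9), (48, 4, 11)], [(11, 4, 54),
  (69, 4, 51)], [(0, 3, 7), (61, 3, 9), (57, 3, 29), (94, 3, 26), (19, 3, 28), (18, 3, 10)], [(20,
  3, 20), (94, 3, 22), (80, 3, 19), (76, 3, 16), (22, 3, 18)], [(45, 3, 13), (88, 3, 15), (84, 3,
  26), (94, 3, 28), (53, 3, 30), (49, 3, 16)]]

def labT13 : List (List (ℕ × ℕ × ℕ)) :=
  [[], [], [], [], [], [], [], [], [], [], [], [], [], [], [], [], [], [], [(0, 3, 13), (1, 3,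
  33), (219, 3, 35), (299, 3, 16)], [(1, 3, 31), (2, 4, 18), (220, 4, 18), (294, 4, 20), (299, 3,
  37), (218, 3, 34)], [(2, 4, 16), (221, 4, 14), (223, 4, 11), (222, 4, 13), (300, 4, 15), (294,
  4, 17), (219, 4, 19)], [(2, 4, 14), (3, 4, 11), (223, 4, 13), (220, 4, 15)], [(220, 4, 12),
  (223, 4, 9), (225, 4, 11), (224, 4, 13), (272, 4, 15), (276, 4, 17), (300, 4, 15)], [(3, 4, 9),
  (4, 4, 6), (225, 4, 8), (222, 4, 10), (220, 4, 12), (221, 4, 12)], [(272, 4, 15), (222, 4, 12)],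
  [(224, 4, 13), (222, 4, 10), (223, 4, 7), (4, 4, 4)], [(225, 4, 5), (4, 4, 2)], [(6, 4, 38), (7,
  4, 40), (228, 4, 40), (277, 4, 37), (273, 4, 36)], [(7, 4, 43), (8, 4, 45), (229, 4, 42), (281,
  4, 39), (277, 4, 39), (227, 4, 41)], [(8, 4, 45), (230, 2, 37), (232, 2, 39), (231, 2, 41),
  (285, 2, 43), (281, 4, 41), (228, 4, 43)], [(8, 4, 48), (9, 2, 34), (232, 2, 36), (229, 4, 46)],
  [(229, 2, 40), (232, 4, 71), (234, 4, 69), (233, 4, 66), (289, 4, 63), (285, 2, 43)], [(9, 2,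
  32), (10, 4, 68), (234, 4, 70), (231, 2, 41), (229, 2, 38), (230, 2, 35)], [(289, 4, 65), (231,
  4, 67)], [(233, 4, 68), (231, 4, 70), (232, 4, 69), (10, 4, 66)], [(234, 4, 67), (10, 4, 64)],
  [(12, 4, 19), (13, 0, 12), (237, 0, 14), (256, 0, 16), (252, 4, 22)], [(13, 0, 10), (14, 4, 50),
  (238, 4, 47), (260, 4, 44), (256, 0, 16), (236, 0, 13)], [(14, 4, 50), (239, 1, 11), (241, 1,
  13), (240, 1, 15), (264, 1, 17), (260, 4, 46), (237, 4, 48)], [(14, 4, 53), (15, 1, 8), (241, 1,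
  10), (238, 4, 51)], [(238, 1, 14), (241, 3, 25), (243, 3, 27), (242, 3, 29), (268, 3, 31), (264,
  1, 17)], [(15, 1, 6), (16, 3, 22), (243, 3, 24), (240, 1, 15), (238, 1, 12), (239, 1, 9)],
  [(268, 3, 31), (240, 3, 28)], [(242, 3, 29), (240, 3, 26), (241, 3, 23), (16, 3, 20)], [(243, 3,
  21), (16, 3, 18)], [(246, 4, 36), (250, 4, 38), (249, 4, 40), (301, 4, 42), (288, 4, 44)],
  [(247, 4, 31), (251, 4, 33), (250, 4, 35)], [(248, 4, 26), (252, 4, 28), (251, 4, 30)], [(12, 4,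
  23), (252, 4, 25)], [(245, 4, 39), (250, 0, 30), (254, 0, 32), (253, 0, 34), (301, 4, 42)],
  [(245, 4, 37), (246, 4, 34), (251, 0, 25), (255, 0, 27), (254, 0, 29), (249, 4, 40)], [(246, 4,
  32), (247, 4, 29), (252, 0, 20), (256, 0, 22), (255, 0, 24), (250, 4, 35)], [(12, 4, 21), (236,
  0, 17), (256, 0, 19), (251, 4, 30), (247, 4, 27), (248, 4, 24)], [(249, 0, 33), (254, 4, 33),
  (258, 4, 30), (257, 4, 27), (294, 4, 25), (301, 0, 36)], [(249, 0, 31), (250, 0, 28), (255, 4,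
  38), (259, 4, 35), (258, 4, 32), (253, 0, 34)], [(250, 0, 26), (251, 0, 23), (256, 4, 43), (260,
  4, 40), (259, 4, 37), (254, 0, 29)], [(236, 0, 15), (237, 4, 45), (260, 4, 42), (255, 0, 24),
  (251, 0, 21), (252, 0, 18)], [(253, 4, 28), (258, 1, 31), (262, 1, 33), (261, 1, 35), (299, 4,
  24), (294, 4, 26)], [(253, 4, 31), (254, 4, 33), (259, 1, 26), (263, 1, 28), (262, 1, 30), (257,
  4, 29)], [(254, 4, 36), (255, 4, 38), (260, 1, 21), (264, 1, 23), (263, 1, 25), (258, 4, 34)],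
  [(237, 4, 45), (238, 1, 18), (264, 1, 20), (259, 4, 39), (255, 4, 41), (256, 4, 43)], [(0, 3,
  17), (299, 1, 37), (257, 1, 34), (262, 3, 26), (266, 3, 23), (265, 3, 20)], [(257, 1, 32), (258,
  1, 29), (263, 3, 31), (267, 3, 28), (266, 3, 25), (261, 1, 35)], [(258, 1, 27), (259, 1, 24),
  (264, 3, 35), (268, 3, 33), (267, 3, 30), (262, 1, 30)], [(238, 1, 16), (240, 3, 32), (268, 3,
  34), (263, 1, 25), (259, 1, 22), (260, 1, 19)], [(0, 3, 19), (261, 3, 21)], [(265, 3, 22), (261,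
  3, 24), (262, 3, 26)], [(266, 3, 27), (262, 3, 29), (263, 3, 31)], [(267, 3, 32), (263, 3, 34),
  (264, 3, 33), (240, 3, 30)], [(6, 4, 35), (273, 4, 32), (274, 4, 29)], [(269, 4, 30), (274, 4,
  27), (275, 4, 24)], [(270, 4, 25), (275, 4, 22), (276, 4, 19)], [(271, 4, 20), (276, 4, 17),
  (222, 4, 14)], [(6, 4, 35), (227, 4, 37), (277, 4, 35), (278, 4, 32), (274, 4, 31), (269, 4,
  33)], [(269, 4, 30), (273, 4, 32), (278, 4, 30), (279, 4, 27), (275, 4, 26), (270, 4, 28)],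
  [(270, 4, 25), (274, 4, 27), (279, 4, 25), (280, 4, 22), (276, 4, 21), (271, 4, 23)], [(222, 4,
  16), (272, 4, 18), (271, 4, 20), (275, 4, 22), (280, 4, 20), (300, 4, 17)], [(227, 4, 38), (228,
  4, 40), (281, 4, 37), (282, 4, 34), (278, 4, 34), (273, 4, 36)], [(273, 4, 33), (277, 4, 35),
  (282, 4, 32), (283, 4, 29), (279, 4, 29), (274, 4, 31)], [(274, 4, 28), (278, 4, 30), (283, 4,
  27), (284, 4, 24), (280, 4, 24), (275, 4, 26)], [(275, 4, 23), (279, 4, 25), (284, 4, 22), (294,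
  4, 19), (300, 4, 19), (276, 4, 21)], [(228, 4, 40), (229, 2, 44), (285, 2, 46), (286, 2, 48),
  (282, 4, 36), (277, 4, 38)], [(277, 4, 35), (281, 2, 49), (286, 2, 51), (287, 2, 53), (283, 4,
  31), (278, 4, 33)], [(278, 4, 30), (282, 2, 54), (287, 2, 56), (288, 2, 58), (284, 4, 26), (279,
  4, 28)], [(279, 4, 25), (283, 2, 59), (288, 2, 61), (301, 4, 24), (294, 4, 21), (280, 4, 23)],
  [(229, 2, 42), (231, 4, 64), (289, 4, 61), (290, 4, 58), (286, 2, 48), (281, 2, 45)], [(281, 2,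
  47), (285, 4, 59), (290, 4, 56), (291, 4, 53), (287, 2, 53), (282, 2, 50)], [(282, 2, 52), (286,
  4, 54), (291, 4, 51), (292, 4, 48), (288, 2, 58), (283, 2, 55)], [(245, 4, 43), (301, 2, 63),
  (284, 2, 60), (283, 2, 57), (287, 4, 49), (292, 4, 46)], [(290, 4, 60), (285, 4, 62), (231, 4,
  64)], [(291, 4, 55), (286, 4, 57), (285, 4, 59)], [(292, 4, 50), (287, 4, 52), (286, 4, 54)],
  [(245, 4, 45), (288, 4, 47), (287, 4, 49)], [], [(219, 4, 19), (220, 4, 16), (300, 4, 18), (280,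
  4, 20), (284, 4, 22), (301, 4, 24), (253, 4, 26), (257, 4, 25), (299, 4, 22)], [], [], [], [],
  [(0, 3, 15), (218, 3, 36), (219, 4, 21), (294, 4, 23), (257, 1, 36), (261, 3, 18)], [(220, 4,
  14), (222, 4, 16), (276, 4, 18), (280, 4, 20), (294, 4, 17)], [(245, 4, 41), (249, 0, 35), (253,
  4, 26), (294, 4, 23), (284, 2, 62), (288, 4, 44)]]

def al123 : List (ℕ × ℕ) :=
  [(1, 18), (1, 218), (3, 21), (3, 221), (7, 27), (7, 227), (9, 30), (9, 230), (13, 36), (13,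
  236), (15, 39), (15, 239), (18, 1), (18, 99), (20, 21), (20, 100), (21, 3), (21, 20), (27, 7),
  (27, 73), (29, 30), (29, 81), (30, 9), (30, 29), (36, 13), (36, 52), (38, 39), (38, 60), (39,
  15), (39, 38), (49, 50), (49, 101), (50, 49), (50, 51), (51, 50), (51, 52), (52, 36), (52, 51),
  (57, 58), (57, 99), (58, 57), (58, 59), (59, 58), (59, 60), (60, 38), (60, 59), (73, 27), (73,
  74), (74, 73), (74, 75), (75, 74), (75, 76), (76, 75), (76, 100), (81, 29), (81, 82), (82, 81),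
  (82, 83), (83, 82), (83, 84), (84, 83), (84, 101), (99, 18), (99, 57), (100, 20), (100, 76),
  (101, 49), (101, 84), (218, 1), (218, 299), (220, 221), (220, 300), (221, 3), (221, 220), (227,
  7), (227, 273), (229, 230), (229, 281), (230, 9), (230, 229), (236, 13), (236, 252), (238, 239),
  (238, 260), (239, 15), (239, 238), (249, 250), (249, 301), (250, 249), (250, 251), (251, 250),
  (251, 252), (252, 236), (252, 251), (257, 258), (257, 299), (258, 257), (258, 259), (259, 258),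
  (259, 260), (260, 238), (260, 259), (273, 227), (273, 274), (274, 273), (274, 275), (275, 274),
  (275, 276), (276, 275), (276, 300), (281, 229), (281, 282), (282, 281), (282, 283), (283, 282),
  (283, 284), (284, 283), (284, 301), (299, 218), (299, 257), (300, 220), (300, 276), (301, 249),
  (301, 284)]

def be123 : List (ℕ × ℕ) :=
  [(2, 21), (2, 219), (4, 26), (4, 223), (8, 30), (8, 228), (10, 35), (10, 232), (14, 39), (14,
  237), (16, 44), (16, 241), (21, 2), (21, 23), (23, 21), (23, 25), (25, 23), (25, 46), (26, 4),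
  (26, 47), (30, 8), (30, 32), (32, 30), (32, 34), (34, 32), (34, 67), (35, 10), (35, 70), (39,
  14), (39, 41), (41, 39), (41, 43), (43, 41), (43, 90), (44, 16), (44, 91), (46, 25), (46, 50),
  (47, 26), (47, 51), (50, 46), (50, 54), (51, 47), (51, 55), (54, 50), (54, 58), (55, 51), (55,
  59), (58, 54), (58, 62), (59, 55), (59, 63), (62, 58), (62, 66), (63, 59), (63, 67), (66, 62),
  (66, 71), (67, 34), (67, 63), (70, 35), (70, 74), (71, 66), (71, 75), (74, 70), (74, 78), (75,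
  71), (75, 79), (78, 74), (78, 82), (79, 75), (79, 83), (82, 78), (82, 86), (83, 79), (83, 87),
  (86, 82), (86, 90), (87, 83), (87, 91), (90, 43), (90, 86), (91, 44), (91, 87), (219, 2), (219,
  299), (222, 223), (222, 300), (223, 4), (223, 222), (228, 8), (228, 277), (231, 232), (231,
  285), (232, 10), (232, 231), (237, 14), (237, 256), (240, 241), (240, 264), (241, 16), (241,
  240), (253, 254), (253, 301), (254, 253), (254, 255), (255, 254), (255, 256), (256, 237), (256,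
  255), (261, 262), (261, 299), (262, 261), (262, 263), (263, 262), (263, 264), (264, 240), (264,
  263), (277, 228), (277, 278), (278, 277), (278, 279), (279, 278), (279, 280), (280, 279), (280,
  300), (285, 231), (285, 286), (286, 285), (286, 287), (287, 286), (287, 288), (288, 287), (288,
  301), (299, 219), (299, 261), (300, 222), (300, 280), (301, 253), (301, 288)]

def cr123 : List ℕ :=
  [21, 30, 39, 50, 51, 58, 59, 74, 75, 82, 83, 299, 300, 301]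

end Pool.Agent.Lib.MP_d97911_gt
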