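import Mathlib

/-!
Simplicial model of partial open books whose page part `P` is a disc, of their arc systems,
of the associated sutured Heegaard diagrams, and of the algebraic torsion `AT`.
-/

namespace Pool.Agent.Lib.MP_d97911_gt

open Finset Relation

variable {V : Type} [DecidableEq V]

/-- A finite set of oriented triangles; each triangle is listed with its three rotations. -/
abbrev Tri (V : Type) := Finset (V × V × V)

/-- Oriented edges having a triangle on their left. -/
def darts (T : Tri V) : Finset (V × V) := T.image fun t => (t.1, t.2.1)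

/-- Positively oriented boundary edges. -/
def bdry (T : Tri V) : Finset (V × V) := (darts T).filter fun e => e.swap ∉ darts T

/-- The end points of a set of oriented edges. -/
def ends (E : Finset (V × V)) : Finset V := E.image Prod.fst ∪ E.image Prod.snd

/-- `T` is an oriented triangulated compact surface (with boundary). -/
structure IsSurf (T : Tri V) : Prop where
  rot : ∀ a b c, (a, b, c) ∈ T → (b, c, a) ∈ T
  ne : ∀ a b c, (a, b, c) ∈ T → a ≠ b
  simple : ∀ a b c, (a, b, c) ∈ T → (b, a, c) ∉ T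
  uniq : ∀ a b c d, (a, b, c) ∈ T → (a, b, d) ∈ T → c = d
  link : ∀ v a b c d, (v, a, b) ∈ T → (v, c, d) ∈ T → EqvGen (fun x y => (v, x, y) ∈ T) a c

/-- Connectedness. -/
def Conn (T : Tri V) : Prop :=
  ∀ s ∈ T, ∀ t ∈ T, EqvGen (fun a b => (a, b) ∈ darts T) s.1 t.1

/-- Euler characteristic: vertices minus edges plus triangles. -/
def chi (T : Tri V) : ℚ :=
  (T.image Prod.fst).card - ((darts T ∪ (darts T).image Prod.swap).card : ℚ) / 2 + (T.card : ℚ) / 3

/-- A triangulated disc. -/
def IsDisc (T : Tri V) : Prop := IsSurf T ∧ Conn T ∧ chi T = 1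

/-- The discs of the list are attached successively to the surface `R` as 1-handles. -/
def IsHandles : Tri V → List (Tri V) → Prop
  | _, [] => True
  | R, H :: l => IsDisc H ∧ Disjoint R H ∧ IsSurf (R ∪ H) ∧ chi (R ∪ H) = chi R - 1 ∧
      IsHandles (R ∪ H) l

/-- One step inside a component of the surface `T` cut along the edges `C`; a triangle is named by
any of its three darts. -/
def Step (T : Tri V) (C : Finset (V × V)) (e f : V × V) : Prop :=
  (f.1 = e.2 ∧ (e.1, e.2, f.2) ∈ T) ∨ (f = e.swap ∧ e ∈ darts T ∧ f ∈ darts T ∧ e ∉ C)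

/-- The edges, in both directions, of an edge path. -/
def edges (l : List V) : Finset (V × V) := (l.zip l.tail).toFinset ∪ (l.tail.zip l).toFinset

/-- Page `S`, subsurface `P` and image `Q = h(P)` of a partial open book. -/
structure POB (V : Type) where
  S : Tri V
  P : Tri V
  Q : Tri V

/-- The oriented edges of `A = ∂P ∩ ∂S`. -/
def POB.A (O : POB V) : Finset (V × V) := bdry O.S ∩ darts O.P

/-- A partial open book in which `P` is a disc.  The embedding `h` is a homeomorphism of `P` onto
the disc `Q` which is the identity on `A`; the last two conditions say that the identity of `A`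
extends to the boundary circles, so `h` exists and is unique up to isotopy relative to `A`. -/
structure POB.Valid (O : POB V) : Prop where
  surf : IsSurf O.S
  conn : Conn O.S
  bdry_ne : (bdry O.S).Nonempty
  properP : O.P ⊂ O.S
  rest : IsSurf (O.S \ O.P)
  handles : ∃ l, IsHandles (O.S \ O.P) l ∧ O.P = l.foldr (· ∪ ·) ∅
  discP : IsDisc O.P
  subQ : O.Q ⊆ O.S
  discQ : IsDisc O.Q
  sameA : bdry O.S ∩ darts O.Q = O.A
  sameFree : ∀ u ∈ ends O.A, ∀ v ∈ ends O.A,
    (ReflTransGen (fun a b => (a, b) ∈ bdry O.P \ O.A) u v ↔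
      ReflTransGen (fun a b => (a, b) ∈ bdry O.Q \ O.A) u v)

/-- `l` is a properly embedded arc of the subsurface `X` with end points in the interior of `A`. -/
structure IsArc (O : POB V) (X : Tri V) (l : List V) : Prop where
  nodup : l.Nodup
  long : 2 ≤ l.length
  inner : edges l ⊆ darts X
  proper : ∀ v ∈ l, v ∈ ends (bdry X) ↔ (l.head? = some v ∨ l.getLast? = some v)
  onA : ∀ v, (l.head? = some v ∨ l.getLast? = some v) →
    v ∈ O.A.image Prod.fst ∧ v ∈ O.A.image Prod.snd

/-- Arcs `a i`, their push-offs `b i`, the images `c i = h(b i)` and the points `x i = a i ∩ b i`. -/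
structure Arcs (V : Type) (g : ℕ) where
  a : Fin g → List V
  b : Fin g → List V
  c : Fin g → List V
  x : Fin g → V

/-- A subfamily of the arcs. -/
def Arcs.sub {g k : ℕ} (Z : Arcs V g) (e : Fin k → Fin g) : Arcs V k :=
  ⟨Z.a ∘ e, Z.b ∘ e, Z.c ∘ e, Z.x ∘ e⟩

/-- A surface with attaching curves, each curve given by its edges in both directions. -/
structure Diagram (W : Type) (g : ℕ) where
  T : Tri W
  α : Fin g → Finset (W × W)
  β : Fin g → Finset (W × W)

/-- The vertex of the copy `P × {1/2}`, which is glued to `S × {0}` along `A`. -/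
def POB.top (O : POB V) (v : V) : V ⊕ V := if v ∈ ends O.A then Sum.inl v else Sum.inr v

/-- The sutured Heegaard diagram: `Σ = P ∪ -S`, `α i = a i ∪ a i`, `β i = b i ∪ h(b i)`. -/
def diagram {g : ℕ} (O : POB V) (Z : Arcs V g) : Diagram (V ⊕ V) g where
  T := O.S.image (fun t => (Sum.inl t.2.1, Sum.inl t.1, Sum.inl t.2.2)) ∪
    O.P.image (fun t => (O.top t.1, O.top t.2.1, O.top t.2.2))
  α i := (edges (Z.a i)).image (Prod.map Sum.inl Sum.inl) ∪
    (edges (Z.a i)).image (Prod.map O.top O.top)
  β i := (edges (Z.c i)).image (Prod.map Sum.inl Sum.inl) ∪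
    (edges (Z.b i)).image (Prod.map O.top O.top)

namespace Diagram

variable {W : Type} [DecidableEq W] {g : ℕ} (H : Diagram W g)

/-- All edges of `α` curves. -/
def al : Finset (W × W) := univ.biUnion H.α

/-- All edges of `β` curves. -/
def be : Finset (W × W) := univ.biUnion H.β

/-- All edges of curves. -/
def cur : Finset (W × W) := H.al ∪ H.be

/-- The intersection points of the `α` curves with the `β` curves. -/
def crossings : Finset W := ends H.al ∩ ends H.be

/-- The `α` and `β` curves share no edge and cross at each common vertex. -/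
def Transverse : Prop :=
  Disjoint H.al H.be ∧ ∀ p ∈ H.crossings, ∀ u v, (p, u) ∈ H.be → (p, v) ∈ H.be →
    EqvGen (fun x y => (p, x, y) ∈ H.T ∧ (p, x) ∉ H.al ∧ (p, y) ∉ H.al) u v → u = v

/-- Generators of `CF`: a permutation `σ` and points of `α i ∩ β (σ i)`. -/
structure Gen where
  σ : Equiv.Perm (Fin g)
  pt : Fin g → W
  onα : ∀ i, pt i ∈ ends (H.α i)
  onβ : ∀ i, pt i ∈ ends (H.β (σ i))

variable {H}

/-- The number of cycles of the permutation of a generator (fixed points included). -/
noncomputable def Gen.cyc (x : H.Gen) : ℕ := x.σ.partition.parts.card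

/-- The generator as a 0-chain. -/
def Gen.ind (x : H.Gen) (p : W) : ℤ := (univ.filter fun i => x.pt i = p).card

/-- `D` (the multiplicity of the triangle to the left of a dart) is a nonnegative domain from `x`
to `y` in `(Σ, β, α)` avoiding `∂Σ`: it is constant on the components of the complement of the
curves and zero on those meeting the boundary, `∂(∂D ∩ β) = y - x` and `∂(∂D ∩ α) = x - y`. -/
structure IsDomain (x y : H.Gen) (D : W × W → ℕ) : Prop where
  supp : ∀ e ∉ darts H.T, D e = 0
  face : ∀ a b c, (a, b, c) ∈ H.T → D (a, b) = D (b, c)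
  flip : ∀ e ∉ H.cur, D e = D e.swap
  bdβ : ∀ p, ∑ e ∈ H.be with e.1 = p, ((D e.swap : ℤ) - D e) = y.ind p - x.ind p
  bdα : ∀ p, ∑ e ∈ H.al with e.1 = p, ((D e.swap : ℤ) - D e) = x.ind p - y.ind p

variable (H)

/-- Average multiplicity of `D` at the four corners at the intersection point `p`. -/
def corner (D : W × W → ℕ) (p : W) : ℚ := ((∑ e ∈ H.cur with e.1 = p, D e : ℕ) : ℚ) / 4

/-- Euler characteristic of the open regions, weighted by `D`: triangles, minus edges off the
curves, plus vertices off the curves. -/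
def chiD (D : W × W → ℕ) : ℚ :=
  ((∑ e ∈ darts H.T, D e : ℕ) : ℚ) / 3 - ((∑ e ∈ darts H.T \ H.cur, D e : ℕ) : ℚ) / 2 +
    ((∑ v ∈ ends (darts H.T) \ ends H.cur, ((darts H.T).filter fun e => e.1 = v).sup D : ℕ) : ℚ)

/-- Euler measure. -/
def euler (D : W × W → ℕ) : ℚ := H.chiD D - ∑ p ∈ H.crossings, H.corner D p

variable {H}

/-- `n_x(D)`. -/
def Gen.n (x : H.Gen) (D : W × W → ℕ) : ℚ := ∑ i, H.corner D (x.pt i)

/-- Maslov index (Lipshitz formula). -/
def maslov (x y : H.Gen) (D : W × W → ℕ) : ℚ := H.euler D + x.n D + y.n D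

/-- `J₊`. -/
noncomputable def Jplus (x y : H.Gen) (D : W × W → ℕ) : ℚ :=
  2 * (x.n D + y.n D) - 1 + x.cyc - y.cyc

variable (H)

/-- `D` is one component of the complement of the curves, a disc with four distinct corners. -/
def IsRectangle (D : W × W → ℕ) : Prop :=
  (∀ e, D e ≤ 1) ∧ (∀ e f, D e = 1 → D f = 1 → EqvGen (Step H.T H.cur) e f) ∧ H.chiD D = 1 ∧
    ∑ p ∈ H.crossings, H.corner D p = 1 ∧ ∀ p ∈ H.crossings, H.corner D p ≤ 1 / 4

/-- A mod 2 count of discs for every pair of generators and every nonnegative domain. -/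
abbrev Count := H.Gen → H.Gen → (W × W → ℕ) → ZMod 2

variable {H}

/-- Embedded rectangles of index one are counted once. -/
def CountsRectangles (cnt : H.Count) : Prop :=
  ∀ x y D, IsDomain x y D → maslov x y D = 1 → H.IsRectangle D → cnt x y D = 1

/-- The part `∂_r` of the differential: index one discs with `J₊ = 2r`. -/
noncomputable def bd (cnt : H.Count) (r : ℕ) (c : H.Gen → ZMod 2) : H.Gen → ZMod 2 := fun y =>
  ∑ᶠ x, c x * ∑ᶠ D ∈ {D | IsDomain x y D ∧ maslov x y D = 1 ∧ Jplus x y D = 2 * r}, cnt x y D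

/-- `z`, in degree `0`, is zero in `E^(k+1)`: it is the total differential of an element of the
filtration level `k`. -/
def Vanishes (cnt : H.Count) (z : H.Gen → ZMod 2) (k : ℕ) : Prop :=
  ∃ c : ℕ → H.Gen → ZMod 2, (∀ i, k < i → c i = 0) ∧
    ∀ j, ∑ i ∈ range (k + 1), bd cnt i (c (i + j)) = if j = 0 then z else 0

/-- The least `k` such that the generator `z` is zero in `E^(k+1)`, or `⊤`. -/
noncomputable def AT (cnt : H.Count) (z : H.Gen) : ℕ∞ :=
  open Classical in ⨅ (k : ℕ) (_ : Vanishes cnt (Pi.single z 1) k), (k : ℕ∞)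

end Diagram

/-- Pairwise disjoint arcs `a i` in `P` with push-offs `b i` (end points moved along the
orientation of `∂S`, one intersection point `x i`), arcs `c i` in `Q` with the end points of the
`b i`, and a transverse diagram on a surface. -/
structure Arcs.Valid {g : ℕ} (O : POB V) (Z : Arcs V g) : Prop where
  arcA : ∀ i, IsArc O O.P (Z.a i)
  arcB : ∀ i, IsArc O O.P (Z.b i)
  arcC : ∀ i, IsArc O O.Q (Z.c i)
  disj : ∀ i j, i ≠ j → (Z.a i).Disjoint (Z.a j) ∧ (Z.b i).Disjoint (Z.b j) ∧
    (Z.a i).Disjoint (Z.b j) ∧ (Z.c i).Disjoint (Z.c j)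
  meet : ∀ i v, (v ∈ Z.a i ∧ v ∈ Z.b i) ↔ v = Z.x i
  push : ∀ i, ∃ u v u' v', (u, v) ∈ O.A ∧ (u', v') ∈ O.A ∧
    (Z.a i).head? = some u ∧ (Z.b i).head? = some v ∧ (Z.c i).head? = some v ∧
    (Z.a i).getLast? = some u' ∧ (Z.b i).getLast? = some v' ∧ (Z.c i).getLast? = some v'
  surf : IsSurf (diagram O Z).T
  trans : (diagram O Z).Transverse

/-- The edges of all arcs `a i`. -/
def Arcs.cut {g : ℕ} (Z : Arcs V g) : Finset (V × V) := univ.biUnion fun i => edges (Z.a i)

/-- Arc basis: every component of the disc `P` cut along the arcs meets `∂P \ A` in exactly one of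
its arcs. -/
def Arcs.IsBasis {g : ℕ} (O : POB V) (Z : Arcs V g) : Prop :=
  (∀ e ∈ darts O.P, ∃ f ∈ bdry O.P \ O.A, EqvGen (Step O.P Z.cut) e f) ∧
    ∀ e ∈ bdry O.P \ O.A, ∀ f ∈ bdry O.P \ O.A, EqvGen (Step O.P Z.cut) e f →
      EqvGen (fun a b => (a, b) ∈ bdry O.P \ O.A) e.1 f.1

/-- All the arcs lie on the boundary of one component of `P` cut along the arcs, and this component
does not meet `∂P \ A`. -/
def Arcs.Cobound {g : ℕ} (O : POB V) (Z : Arcs V g) : Prop :=
  ∃ e ∈ darts O.P, (∀ f ∈ bdry O.P \ O.A, ¬ EqvGen (Step O.P Z.cut) e f) ∧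
    ∀ i, ∃ f ∈ edges (Z.a i), EqvGen (Step O.P Z.cut) e f

/-- `z` is the contact generator `EH`. -/
def IsEH {g : ℕ} (O : POB V) (Z : Arcs V g) (z : (diagram O Z).Gen) : Prop :=
  z.σ = 1 ∧ ∀ i, z.pt i = O.top (Z.x i)

end Pool.Agent.Lib.MP_d97911_gt
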