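import Pool.Agent.Lib.MP_d97911_gt.Sigma

/-! Nonnegative domains in the two diagrams. -/

namespace Pool.Agent.Lib.MP_d97911_gt

open Finset Relation Diagram

/-- Vertices of the Heegaard surface. -/
abbrev WW := ℕ ⊕ ℕ

/-- Encoding of vertices. -/
def enc : WW → ℕ := Sum.elim id (· + 200)

/-- Label and rank of a dart of the Heegaard surface. -/
def lookW (l t : List (List (ℕ × ℕ × ℕ))) (e : WW × WW) : ℕ × ℕ :=
  ((Sum.elim (fun v => l.getD v []) (fun v => t.getD v []) e.1).lookup (enc e.2)).getD (0, 0)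

theorem enc_dec (n : ℕ) : enc (dec n) = n := by
  unfold dec
  split_ifs with h
  · rfl
  · show n - 200 + 200 = n
    omega

theorem notMem_dec {L : List (ℕ × ℕ)} {e : WW × WW} (h : (enc e.1, enc e.2) ∉ L) :
    e ∉ (L.map decP).toFinset := by
  intro h1
  obtain ⟨f, hf, rfl⟩ := List.mem_map.1 (List.mem_toFinset.1 h1)
  exact h (by simpa [decP, enc_dec] using hf)

theorem cur_eq {g : ℕ} {H : Diagram WW g} {AL BE : List (ℕ × ℕ)}
    (hA : H.al = (AL.map decP).toFinset) (hB : H.be = (BE.map decP).toFinset) :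
    H.cur = ((AL ++ BE).map decP).toFinset := by
  rw [Diagram.cur, hA, hB, List.map_append, List.toFinset_append]

theorem root_of {g : ℕ} (Z : Arcs ℕ g) {C : List (ℕ × ℕ)}
    (hC : (diagram ob Z).cur = (C.map decP).toFinset) (lab rk : WW × WW → ℕ) (rt : ℕ → WW × WW)
    (H : ∀ v ∈ vsW, ∀ p ∈ pr stW v, (v, p.1) = rt (lab (v, p.1)) ∨
      (lab (p.1, p.2) = lab (v, p.1) ∧ rk (p.1, p.2) < rk (v, p.1)) ∨
      (lab (p.1, v) = lab (v, p.1) ∧ rk (p.1, v) < rk (v, p.1) ∧ (enc v, enc p.1) ∉ C ∧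
        v ∈ dl stW p.1))
    {e : WW × WW} (he : e ∈ darts (diagram ob Z).T) :
    EqvGen (Step (diagram ob Z).T (diagram ob Z).cur) e (rt (lab e)) := by
  rw [hC]
  refine (presW Z).step_root (surfW Z) lab rk rt (fun v hv p hp => ?_) he
  rcases H v hv p hp with h | h | ⟨h1, h2, h3, h4⟩
  · exact Or.inl h
  · exact Or.inr (Or.inl h)
  · exact Or.inr (Or.inr ⟨h1, h2, notMem_dec h3, h4⟩)

theorem filter_dec (L : List (ℕ × ℕ)) (p : ℕ) (l : List ℕ)
    (H : (∀ e ∈ L, e.1 = p → e.2 ∈ l) ∧ ∀ u ∈ l, (p, u) ∈ L) :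
    ((L.map decP).toFinset.filter fun e => e.1 = dec p) =
      (l.map fun u => (dec p, dec u)).toFinset := by
  ext e
  simp only [mem_filter, List.mem_toFinset, List.mem_map]
  constructor
  · rintro ⟨⟨f, hf, rfl⟩, h⟩
    have h1 : f.1 = p := by simpa [decP, enc_dec] using congrArg enc h
    exact ⟨f.2, H.1 f hf h1, by simp [decP, h1]⟩
  · rintro ⟨u, hu, rfl⟩
    exact ⟨⟨_, H.2 u hu, rfl⟩, rfl⟩

theorem sum_dec {M : Type} [AddCommMonoid M] (L : List (ℕ × ℕ)) (p : ℕ) (l : List ℕ)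
    (H : (∀ e ∈ L, e.1 = p → e.2 ∈ l) ∧ ∀ u ∈ l, (p, u) ∈ L) (hl : l.Nodup) (f : WW × WW → M) :
    ∑ e ∈ (L.map decP).toFinset with e.1 = dec p, f e = (l.map fun u => f (dec p, dec u)).sum := by
  rw [filter_dec L p l H, List.sum_toFinset _ (hl.map fun a b h => by
    simpa [enc_dec] using congrArg enc (Prod.mk.inj h).2), List.map_map]
  rfl

section
variable {g : ℕ} {Z : Arcs ℕ g} {x y : (diagram ob Z).Gen} {D : WW × WW → ℕ}
  {lab : WW × WW → ℕ} {d : ℕ → ℕ}

theorem beta_eq (hD : IsDomain x y D) (hd : ∀ e ∈ darts (diagram ob Z).T, D e = d (lab e))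
    {BE : List (ℕ × ℕ)} (hB : (diagram ob Z).be = (BE.map decP).toFinset) (p u v : ℕ)
    (k1 k2 k3 k4 : ℕ)
    (H : ((∀ e ∈ BE, e.1 = p → e.2 ∈ [u, v]) ∧ ∀ w ∈ [u, v], (p, w) ∈ BE) ∧ [u, v].Nodup ∧
      dec u ∈ dl stW (dec p) ∧ dec p ∈ dl stW (dec u) ∧ dec v ∈ dl stW (dec p) ∧
      dec p ∈ dl stW (dec v) ∧ lab (dec u, dec p) = k1 ∧ lab (dec p, dec u) = k2 ∧
      lab (dec v, dec p) = k3 ∧ lab (dec p, dec v) = k4) :
    ((d k1 : ℤ) - d k2) + ((d k3 : ℤ) - d k4) = y.ind (dec p) - x.ind (dec p) := by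
  obtain ⟨h1, h2, h3, h4, h5, h6, rfl, rfl, rfl, rfl⟩ := H
  have := hD.bdβ (dec p)
  rw [hB, sum_dec BE p _ h1 h2] at this
  simp only [Prod.swap_prod_mk, List.map_cons, List.map_nil, List.sum_cons, List.sum_nil,
    add_zero] at this
  rwa [hd _ (((presW Z).dart (dec u, dec p)).2 h4), hd _ (((presW Z).dart (dec p, dec u)).2 h3),
    hd _ (((presW Z).dart (dec v, dec p)).2 h6),
    hd _ (((presW Z).dart (dec p, dec v)).2 h5)] at this

theorem corner_eq (hd : ∀ e ∈ darts (diagram ob Z).T, D e = d (lab e))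
    {C : List (ℕ × ℕ)} (hC : (diagram ob Z).cur = (C.map decP).toFinset) (p : ℕ) (l ks : List ℕ)
    (H : ((∀ e ∈ C, e.1 = p → e.2 ∈ l) ∧ ∀ u ∈ l, (p, u) ∈ C) ∧ l.Nodup ∧
      (∀ u ∈ l, dec u ∈ dl stW (dec p)) ∧ (l.map fun u => lab (dec p, dec u)) = ks) :
    (diagram ob Z).corner D (dec p) = ((ks.map d).sum : ℕ) / 4 := by
  obtain ⟨h1, h2, h3, rfl⟩ := H
  rw [corner, hC, sum_dec C p l h1 h2, List.map_map]
  congr 3
  exact List.map_congr_left fun u hu => hd _ (((presW Z).dart (dec p, dec u)).2 (h3 u hu))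

end

theorem perm_two (σ : Equiv.Perm (Fin 2)) (h : σ 0 ≠ 1) : σ = 1 := by
  revert σ; decide

theorem cyc_one {W : Type} [DecidableEq W] {H : Diagram W 2} (x : H.Gen) (h : x.σ = 1) :
    x.cyc = 2 := by
  simp [Gen.cyc, h, Equiv.Perm.parts_partition]

theorem cyc_swap {W : Type} [DecidableEq W] {H : Diagram W 2} (x : H.Gen)
    (h : x.σ = Equiv.swap 0 1) : x.cyc = 1 := by
  have h1 : (Equiv.swap (0 : Fin 2) 1).cycleType = {2} :=
    Equiv.Perm.isSwap_iff_cycleType.1 ⟨0, 1, by decide, rfl⟩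
  rw [Gen.cyc, h, Equiv.Perm.parts_partition, h1, Equiv.Perm.card_support_swap (by decide)]
  simp

theorem gen_two {W : Type} [DecidableEq W] {H : Diagram W 2} (x : H.Gen) {p q : W}
    (hp : x.ind p ≠ 0) (hq : x.ind q ≠ 0) (h1 : p ∉ ends (H.α 1)) (h2 : q ∉ ends (H.α 0))
    (h3 : p ∉ ends (H.β 1)) : x.σ = 1 ∧ x.pt = ![p, q] := by
  obtain ⟨i, hi⟩ := Gen.exists_of_ind hp
  obtain ⟨j, hj⟩ := Gen.exists_of_ind hq
  have e1 : x.pt 0 = p := by
    fin_cases i
    · exact hi
    · exact absurd (hi ▸ x.onα 1) h1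
  have e2 : x.pt 1 = q := by
    fin_cases j
    · exact absurd (hj ▸ x.onα 0) h2
    · exact hj
  refine ⟨perm_two _ fun h => h3 ?_, ?_⟩
  · have := x.onβ 0
    rwa [h, e1] at this
  · funext k; fin_cases k
    · exact e1
    · exact e2

/-! ### The second basis -/

/-- The contact generator for the second basis. -/
def eh13 : (diagram ob z13).Gen where
  σ := 1
  pt := ![dec 299, dec 301]
  onα := by simp only [diagram, ob_top]; decide +kernel
  onβ := by simp only [diagram, ob_top]; decide +kernel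

theorem isEH13 : IsEH ob z13 eh13 := ⟨rfl, by rw [ob_top]; decide +kernel⟩

theorem cur_13 : (diagram ob z13).cur = ((al13 ++ be13).map decP).toFinset :=
  cur_eq al_13 be_13

/-- Labels of the regions. -/
def lab13 (e : WW × WW) : ℕ := (lookW labL13 labT13 e).1

theorem no_domain13 (x : (diagram ob z13).Gen) (D : WW × WW → ℕ) (hD : IsDomain x eh13 D)
    (hμ : maslov x eh13 D = 1) : Jplus x eh13 D ≠ 0 := by
  set d : ℕ → ℕ := fun k => D (decP (rt13.getD k (0, 0))) with hdef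
  have hd : ∀ e ∈ darts (diagram ob z13).T, D e = d (lab13 e) := fun e he =>
    hD.step (root_of z13 cur_13 lab13 (fun e => (lookW labL13 labT13 e).2)
      (fun k => decP (rt13.getD k (0, 0))) (by decide +kernel) he)
  have d3 : d 3 = 0 := hD.bdry_zero (cur_13 ▸ notMem_dec (by decide +kernel))
    (by rw [(presW z13).dart]; decide +kernel)
  have d4 : d 4 = 0 := hD.bdry_zero (cur_13 ▸ notMem_dec (by decide +kernel))
    (by rw [(presW z13).dart]; decide +kernel)
  have e1 := beta_eq hD hd be_13 58 62 54 3 2 0 3 (by decide +kernel)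
  have e2 := beta_eq hD hd be_13 82 78 86 4 2 1 2 (by decide +kernel)
  have e3 := beta_eq hD hd be_13 83 79 87 2 3 3 1 (by decide +kernel)
  have e4 := beta_eq hD hd be_13 299 219 261 3 4 1 3 (by decide +kernel)
  have e5 := beta_eq hD hd be_13 301 288 253 2 4 0 4 (by decide +kernel)
  rw [show eh13.ind (dec 58) = 0 by decide +kernel] at e1
  rw [show eh13.ind (dec 82) = 0 by decide +kernel] at e2
  rw [show eh13.ind (dec 83) = 0 by decide +kernel] at e3
  rw [show eh13.ind (dec 299) = 1 by decide +kernel] at e4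
  rw [show eh13.ind (dec 301) = 1 by decide +kernel] at e5
  have n1 := x.ind_nonneg (dec 58)
  have n2 := x.ind_nonneg (dec 82)
  have n3 := x.ind_nonneg (dec 83)
  have n4 := x.ind_nonneg (dec 299)
  have n5 := x.ind_nonneg (dec 301)
  rcases Nat.eq_zero_or_pos (d 2) with h2 | h2
  · have h0 : d 0 = 0 := by omega
    have h1 : d 1 = 0 := by omega
    have hlab : ∀ v ∈ vsW, ∀ p ∈ pr stW v, lab13 (v, p.1) < 5 := by decide +kernel
    have hz : D = fun _ => 0 := by
      funext e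
      by_cases he : e ∈ darts (diagram ob z13).T
      · rw [hd e he]
        have := (presW z13).forall_dart (φ := fun e => lab13 e < 5) hlab he
        generalize lab13 e = k at this
        interval_cases k <;> assumption
      · exact hD.supp e he
    rw [hz, maslov_zero] at hμ
    norm_num at hμ
  · have h0 : d 0 = 0 := by omega
    have h1 : d 1 = 1 := by omega
    have h2' : d 2 = 1 := by omega
    obtain ⟨hσ, hpt⟩ := gen_two x (p := dec 58) (q := dec 82) (by omega) (by omega)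
      (by simp only [diagram, ob_top]; decide +kernel)
      (by simp only [diagram, ob_top]; decide +kernel)
      (by simp only [diagram, ob_top]; decide +kernel)
    have c1 := corner_eq hd cur_13 58 [59, 57, 62, 54] [0, 3, 2, 3]
      (by decide +kernel)
    have c2 := corner_eq hd cur_13 82 [81, 83, 78, 86] [4, 1, 2, 2]
      (by decide +kernel)
    have c3 := corner_eq hd cur_13 299 [257, 218, 219, 261] [1, 3, 4, 3]
      (by decide +kernel)
    have c4 := corner_eq hd cur_13 301 [284, 249, 288, 253] [2, 0, 4, 4]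
      (by decide +kernel)
    simp only [List.map_cons, List.map_nil, List.sum_cons, List.sum_nil, h0, h1, h2', d3, d4]
      at c1 c2 c3 c4
    have a1 : x.n D = 1 := by
      rw [Gen.n, Fin.sum_univ_two, hpt]
      simp only [Matrix.cons_val_zero, Matrix.cons_val_one, c1, c2]; norm_num
    have a2 : eh13.n D = 1 / 2 := by
      rw [Gen.n, Fin.sum_univ_two, show eh13.pt 0 = dec 299 from rfl,
        show eh13.pt 1 = dec 301 from rfl, c3, c4]; norm_num
    rw [Jplus, a1, a2, cyc_one x hσ, cyc_one eh13 rfl]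
    norm_num

theorem AT13 (cnt : (diagram ob z13).Count) : AT cnt eh13 ≠ 0 := by
  rw [Ne, AT_eq_zero_iff]
  rintro ⟨c, hc⟩
  have h := congrFun hc eh13
  have h0 : ∀ x, {D | IsDomain x eh13 D ∧ maslov x eh13 D = 1 ∧
      Jplus x eh13 D = 2 * ((0 : ℕ) : ℚ)} = ∅ := fun x =>
    Set.eq_empty_of_forall_notMem fun D hD => no_domain13 x D hD.1 hD.2.1 (by simpa using hD.2.2)
  simp only [bd, h0, finsum_mem_empty, mul_zero, finsum_zero, Pi.single_eq_same] at h
  exact zero_ne_one h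

end Pool.Agent.Lib.MP_d97911_gt
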