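import Pool.Agent.Lib.MP_d97911_gt.Data

/-! The partial open book of the example is valid. -/

namespace Pool.Agent.Lib.MP_d97911_gt

open Finset Relation

/-- Rotation lists from a table. -/
def stOf (tb : List (List ℕ)) (v : ℕ) : List ℕ := tb.getD v []

/-- The vertices. -/
def vs : List ℕ := List.range 102

/-- The triangles of a table. -/
def triOf (tb : List (List ℕ)) : Tri ℕ := ofStars (stOf tb) vs

theorem presOf {tb : List (List ℕ)} (h : tb.length ≤ 102) : Pres (triOf tb) (stOf tb) vs :=
  pres_ofStars (getD_supp tb h)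

theorem vs_nodup : vs.Nodup := List.nodup_range

theorem presS : Pres (triOf tbS) (stOf tbS) vs := presOf (by decide +kernel)
theorem presP : Pres (triOf tbP) (stOf tbP) vs := presOf (by decide +kernel)
theorem presQ : Pres (triOf tbQ) (stOf tbQ) vs := presOf (by decide +kernel)
theorem presR : Pres (triOf tbR) (stOf tbR) vs := presOf (by decide +kernel)
theorem presH1 : Pres (triOf tbH1) (stOf tbH1) vs := presOf (by decide +kernel)
theorem presH2 : Pres (triOf tbH2) (stOf tbH2) vs := presOf (by decide +kernel)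
theorem presRH : Pres (triOf tbRH) (stOf tbRH) vs := presOf (by decide +kernel)

theorem surfS : IsSurf (triOf tbS) := presS.isSurf (by decide +kernel) (by decide +kernel)
theorem surfP : IsSurf (triOf tbP) := presP.isSurf (by decide +kernel) (by decide +kernel)
theorem surfQ : IsSurf (triOf tbQ) := presQ.isSurf (by decide +kernel) (by decide +kernel)
theorem surfR : IsSurf (triOf tbR) := presR.isSurf (by decide +kernel) (by decide +kernel)
theorem surfH1 : IsSurf (triOf tbH1) := presH1.isSurf (by decide +kernel) (by decide +kernel)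
theorem surfH2 : IsSurf (triOf tbH2) := presH2.isSurf (by decide +kernel) (by decide +kernel)
theorem surfRH : IsSurf (triOf tbRH) := presRH.isSurf (by decide +kernel) (by decide +kernel)

theorem connS : Conn (triOf tbS) := presS.conn 99 (fun v => (parS.getD v (0, 0)).1)
  (fun v => (parS.getD v (0, 0)).2) (by decide +kernel)
theorem connP : Conn (triOf tbP) := presP.conn 99 (fun v => (parP.getD v (0, 0)).1)
  (fun v => (parP.getD v (0, 0)).2) (by decide +kernel)
theorem connQ : Conn (triOf tbQ) := presQ.conn 0 (fun v => (parQ.getD v (0, 0)).1)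
  (fun v => (parQ.getD v (0, 0)).2) (by decide +kernel)
theorem connH1 : Conn (triOf tbH1) := presH1.conn 99 (fun v => (parH1.getD v (0, 0)).1)
  (fun v => (parH1.getD v (0, 0)).2) (by decide +kernel)
theorem connH2 : Conn (triOf tbH2) := presH2.conn 12 (fun v => (parH2.getD v (0, 0)).1)
  (fun v => (parH2.getD v (0, 0)).2) (by decide +kernel)

theorem chiOf {tb : List (List ℕ)} (h : Pres (triOf tb) (stOf tb) vs) (hs : IsSurf (triOf tb))
    (z : ℤ) (H : 6 * ((vs.filter fun v => pr (stOf tb) v ≠ []).length : ℤ) -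
      3 * ((vs.map fun v => (dl (stOf tb) v ++ (pr (stOf tb) v).map Prod.snd).dedup.length).sum : ℕ)
      + 2 * ((vs.map fun v => (pr (stOf tb) v).dedup.length).sum : ℕ) = 6 * z) :
    chi (triOf tb) = z := by
  rw [h.chi_eq hs vs_nodup rfl rfl rfl]
  generalize (vs.filter fun v => pr (stOf tb) v ≠ []).length = n1 at H ⊢
  generalize (vs.map fun v => (dl (stOf tb) v ++
    (pr (stOf tb) v).map Prod.snd).dedup.length).sum = n2 at H ⊢
  generalize (vs.map fun v => (pr (stOf tb) v).dedup.length).sum = n3 at H ⊢
  have : (6 : ℚ) * n1 - 3 * n2 + 2 * n3 = 6 * z := by exact_mod_cast H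
  linarith

theorem chiS : chi (triOf tbS) = (-2 : ℤ) := chiOf presS surfS _ (by decide +kernel)
theorem chiP : chi (triOf tbP) = (1 : ℤ) := chiOf presP surfP _ (by decide +kernel)
theorem chiQ : chi (triOf tbQ) = (1 : ℤ) := chiOf presQ surfQ _ (by decide +kernel)
theorem chiR : chi (triOf tbR) = (0 : ℤ) := chiOf presR surfR _ (by decide +kernel)
theorem chiH1 : chi (triOf tbH1) = (1 : ℤ) := chiOf presH1 surfH1 _ (by decide +kernel)
theorem chiH2 : chi (triOf tbH2) = (1 : ℤ) := chiOf presH2 surfH2 _ (by decide +kernel)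
theorem chiRH : chi (triOf tbRH) = (-1 : ℤ) := chiOf presRH surfRH _ (by decide +kernel)

theorem unionRP : triOf tbR ∪ triOf tbP = triOf tbS :=
  presR.union_eq presP presS (by decide +kernel) (by decide +kernel) (by decide +kernel)
theorem disjRP : Disjoint (triOf tbR) (triOf tbP) := presR.disjoint presP (by decide +kernel)
theorem sdiffSP : triOf tbS \ triOf tbP = triOf tbR := by
  rw [← unionRP, union_sdiff_cancel_right disjRP]
theorem unionRH : triOf tbR ∪ triOf tbH1 = triOf tbRH :=
  presR.union_eq presH1 presRH (by decide +kernel) (by decide +kernel) (by decide +kernel)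
theorem unionRHH : triOf tbRH ∪ triOf tbH2 = triOf tbS :=
  presRH.union_eq presH2 presS (by decide +kernel) (by decide +kernel) (by decide +kernel)
theorem unionHH : triOf tbH1 ∪ triOf tbH2 = triOf tbP :=
  presH1.union_eq presH2 presP (by decide +kernel) (by decide +kernel) (by decide +kernel)

theorem Pres.bdry_eq {V : Type} [DecidableEq V] {T : Tri V} {st : V → List V} {vs : List V}
    (h : Pres T st vs) (L : List (V × V))
    (H1 : ∀ v ∈ vs, ∀ p ∈ pr st v, v ∈ dl st p.1 ∨ (v, p.1) ∈ L)
    (H2 : ∀ e ∈ L, e.2 ∈ dl st e.1 ∧ e.1 ∉ dl st e.2) : bdry T = L.toFinset := by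
  ext e
  rw [List.mem_toFinset]
  refine ⟨fun he => ?_, fun he => (h.bdry_iff e).2 (H2 e he)⟩
  have := h.forall_dart (φ := fun e => e.1 ∈ dl st e.2 ∨ e ∈ L) H1 (mem_filter.1 he).1
  exact this.resolve_left ((h.bdry_iff e).1 he).2

theorem Pres.inter_eq {V : Type} [DecidableEq V] {T : Tri V} {st : V → List V} {vs : List V}
    (h : Pres T st vs) (L M : List (V × V)) (H : (L.filter fun e => e.2 ∈ dl st e.1) = M) :
    L.toFinset ∩ darts T = M.toFinset := by
  ext e
  simp [← H, h.dart]

theorem bdryS : bdry (triOf tbS) = bdS.toFinset :=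
  presS.bdry_eq _ (by decide +kernel) (by decide +kernel)
theorem bdryP : bdry (triOf tbP) = bdP.toFinset :=
  presP.bdry_eq _ (by decide +kernel) (by decide +kernel)
theorem bdryQ : bdry (triOf tbQ) = bdQ.toFinset :=
  presQ.bdry_eq _ (by decide +kernel) (by decide +kernel)

/-- The partial open book. -/
def ob : POB ℕ := ⟨triOf tbS, triOf tbP, triOf tbQ⟩

theorem obA : ob.A = edA.toFinset := by
  rw [POB.A, show ob.S = triOf tbS from rfl, bdryS]
  exact presP.inter_eq _ _ (by decide +kernel)

theorem obFP : bdry ob.P \ ob.A = frP.toFinset := by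
  rw [obA, show ob.P = triOf tbP from rfl, bdryP]; decide +kernel
theorem obFQ : bdry ob.Q \ ob.A = frQ.toFinset := by
  rw [obA, show ob.Q = triOf tbQ from rfl, bdryQ]; decide +kernel
theorem obEnds : ends ob.A = range 18 := by rw [obA]; decide +kernel

theorem rtg_pos {L : List (ℕ × ℕ)} (pos : ℕ → ℕ × ℕ)
    (H : ∀ e ∈ L, (pos e.1).1 = (pos e.2).1 ∧ (pos e.1).2 ≤ (pos e.2).2) {u v : ℕ}
    (h : ReflTransGen (fun a b => (a, b) ∈ L.toFinset) u v) :
    (pos u).1 = (pos v).1 ∧ (pos u).2 ≤ (pos v).2 := by
  induction h with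
  | refl => exact ⟨rfl, le_rfl⟩
  | tail _ h2 ih =>
    have := H _ (List.mem_toFinset.1 h2)
    exact ⟨ih.1.trans this.1, ih.2.trans this.2⟩

theorem rtg_arcs {L : List (ℕ × ℕ)} (arcs : List (List ℕ))
    (H : ∀ l ∈ arcs, ∀ p ∈ l.zip l.tail, p ∈ L) {u v : ℕ}
    (h : u = v ∨ ∃ l ∈ arcs, l.head? = some u ∧ v ∈ l) :
    ReflTransGen (fun a b => (a, b) ∈ L.toFinset) u v := by
  rcases h with rfl | ⟨l, hl, h1, h2⟩
  · exact ReflTransGen.refl
  · cases l with
    | nil => simp at h2
    | cons x l =>
      obtain rfl : x = u := by simpa using h1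
      exact rtg_of_zip l x (fun p hp => List.mem_toFinset.2 (H _ hl p hp)) v h2

theorem ob_valid : ob.Valid where
  surf := surfS
  conn := connS
  bdry_ne := by rw [show ob.S = triOf tbS from rfl, bdryS]; decide +kernel
  properP := by
    refine ⟨presP.subset presS (by decide +kernel), fun h => ?_⟩
    have h1 := chiP
    rw [show triOf tbP = triOf tbS from
      Subset.antisymm (presP.subset presS (by decide +kernel)) h, chiS] at h1
    norm_num at h1
  rest := sdiffSP ▸ surfR
  handles := by
    refine ⟨[triOf tbH1, triOf tbH2], ?_, by simp [unionHH, ob]⟩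
    rw [show ob.S \ ob.P = triOf tbR from sdiffSP]
    simp only [IsHandles, unionRH, unionRHH, chiS, chiR, chiRH]
    exact ⟨⟨surfH1, connH1, by simpa using chiH1⟩, presR.disjoint presH1 (by decide +kernel), surfRH,
      by norm_num, ⟨surfH2, connH2, by simpa using chiH2⟩,
      presRH.disjoint presH2 (by decide +kernel), surfS, by norm_num, trivial⟩
  discP := ⟨surfP, connP, chiP.trans (by simp)⟩
  subQ := presQ.subset presS (by decide +kernel)
  discQ := ⟨surfQ, connQ, chiQ.trans (by simp)⟩
  sameA := by
    rw [obA, show ob.S = triOf tbS from rfl, bdryS]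
    exact presQ.inter_eq _ _ (by decide +kernel)
  sameFree := by
    rw [obFP, obFQ, obEnds]
    intro u hu v hv
    constructor
    · intro h
      have h1 := rtg_pos (fun v => posP.getD v (0, 0)) (by decide +kernel) h
      refine rtg_arcs arcsQ (by decide +kernel) ?_
      clear h
      revert u v
      decide +kernel
    · intro h
      have h1 := rtg_pos (fun v => posQ.getD v (0, 0)) (by decide +kernel) h
      refine rtg_arcs arcsP (by decide +kernel) ?_
      clear h
      revert u v
      decide +kernel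

end Pool.Agent.Lib.MP_d97911_gt
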