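import Pool.Agent.Lib.MP_d97911_gt.Dom

/-! The first basis: one embedded rectangle kills the contact generator. -/

namespace Pool.Agent.Lib.MP_d97911_gt

open Finset Relation Diagram

/-- The contact generator for the first basis. -/
def eh12 : (diagram ob z12).Gen where
  σ := 1
  pt := ![dec 299, dec 300]
  onα := by simp only [diagram, ob_top]; decide +kernel
  onβ := by simp only [diagram, ob_top]; decide +kernel

/-- The generator whose boundary is the contact generator. -/
def w12 : (diagram ob z12).Gen where
  σ := Equiv.swap 0 1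
  pt := ![dec 59, dec 75]
  onα := by simp only [diagram, ob_top]; decide +kernel
  onβ := by simp only [diagram, ob_top]; decide +kernel

theorem isEH12 : IsEH ob z12 eh12 := ⟨rfl, by rw [ob_top]; decide +kernel⟩

theorem cur_12 : (diagram ob z12).cur = ((al12 ++ be12).map decP).toFinset :=
  cur_eq al_12 be_12

/-- Labels of the regions. -/
def lab12 (e : WW × WW) : ℕ := (lookW labL12 labT12 e).1

/-- The darts of the rectangle. -/
def rectS : Finset (WW × WW) := (darts (diagram ob z12).T).filter fun e => lab12 e = 0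

/-- The rectangle. -/
def rectD (e : WW × WW) : ℕ := if e ∈ rectS then 1 else 0

theorem mem_rectS (e : WW × WW) : e ∈ rectS ↔ e.2 ∈ dl stW e.1 ∧ lab12 e = 0 := by
  rw [rectS, mem_filter, (presW z12).dart]

theorem rectD_def (e : WW × WW) : rectD e = if e.2 ∈ dl stW e.1 ∧ lab12 e = 0 then 1 else 0 := by
  simp only [rectD, mem_rectS]

theorem root12 {e : WW × WW} (he : e ∈ darts (diagram ob z12).T) :
    EqvGen (Step (diagram ob z12).T (diagram ob z12).cur) e
      (decP (rt12.getD (lab12 e) (0, 0))) :=
  root_of z12 cur_12 lab12 (fun e => (lookW labL12 labT12 e).2)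
    (fun k => decP (rt12.getD k (0, 0))) (by decide +kernel) he

theorem rect_sub : rectS ⊆ darts (diagram ob z12).T := filter_subset _ _

theorem rect_lab {e : WW × WW} (he : e ∈ darts (diagram ob z12).T) : lab12 e < 4 :=
  (presW z12).forall_dart (φ := fun e => lab12 e < 4) (by decide +kernel) he

theorem rectD_eq (e : WW × WW) (he : e ∈ darts (diagram ob z12).T) :
    rectD e = (fun k => if k = 0 then 1 else 0) (lab12 e) := by
  simp only [rectD, rectS, mem_filter, he, true_and]

theorem rectD_zero {e : WW × WW} (he : e ∉ darts (diagram ob z12).T) : rectD e = 0 :=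
  if_neg fun h => he (rect_sub h)

theorem unique12 (y : (diagram ob z12).Gen) (D : WW × WW → ℕ) (hD : IsDomain w12 y D)
    (hμ : maslov w12 y D = 1) : y = eh12 ∧ D = rectD := by
  set d : ℕ → ℕ := fun k => D (decP (rt12.getD k (0, 0))) with hdef
  have hd : ∀ e ∈ darts (diagram ob z12).T, D e = d (lab12 e) := fun e he => hD.step (root12 he)
  have d2 : d 2 = 0 := hD.bdry_zero (cur_12 ▸ notMem_dec (by decide +kernel))
    (by rw [(presW z12).dart]; decide +kernel)
  have d3 : d 3 = 0 := hD.bdry_zero (cur_12 ▸ notMem_dec (by decide +kernel))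
    (by rw [(presW z12).dart]; decide +kernel)
  have e1 := beta_eq hD hd be_12 21 2 23 3 2 2 1 (by decide +kernel)
  have e2 := beta_eq hD hd be_12 75 79 71 2 0 3 2 (by decide +kernel)
  have e3 := beta_eq hD hd be_12 299 219 261 2 3 0 2 (by decide +kernel)
  have e4 := beta_eq hD hd be_12 300 222 280 1 3 0 3 (by decide +kernel)
  rw [show w12.ind (dec 21) = 0 by decide +kernel] at e1
  rw [show w12.ind (dec 75) = 1 by decide +kernel] at e2
  rw [show w12.ind (dec 299) = 0 by decide +kernel] at e3
  rw [show w12.ind (dec 300) = 0 by decide +kernel] at e4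
  have n1 := y.ind_nonneg (dec 21)
  have n2 := y.ind_nonneg (dec 75)
  have d1 : d 1 = 0 := by omega
  rcases Nat.eq_zero_or_pos (d 0) with h0 | h0
  · have hz : D = fun _ => 0 := by
      funext e
      by_cases he : e ∈ darts (diagram ob z12).T
      · rw [hd e he]
        have := rect_lab he
        generalize lab12 e = k at this
        interval_cases k <;> assumption
      · exact hD.supp e he
    rw [hz, maslov_zero] at hμ
    norm_num at hμ
  · have d0 : d 0 = 1 := by omega
    obtain ⟨hσ, hpt⟩ := gen_two y (p := dec 299) (q := dec 300) (by omega) (by omega)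
      (by simp only [diagram, ob_top]; decide +kernel)
      (by simp only [diagram, ob_top]; decide +kernel)
      (by simp only [diagram, ob_top]; decide +kernel)
    refine ⟨Gen.ext' hσ hpt, ?_⟩
    funext e
    by_cases he : e ∈ darts (diagram ob z12).T
    · rw [hd e he, rectD_eq e he]
      have := rect_lab he
      generalize lab12 e = k at this
      interval_cases k <;> simp [d0, d1, d2, d3]
    · rw [hD.supp e he, rectD_zero he]

theorem bd_sum {x y : (diagram ob z12).Gen} {L : List (ℕ × ℕ)} (f : WW × WW → ℤ)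
    (H1 : ∀ p ∈ L.map Prod.fst, ((L.filter fun e => e.1 = p).map fun e => f (decP e)).sum =
      y.ind (dec p) - x.ind (dec p))
    (H2 : L.Nodup) (H3 : ∀ i, x.pt i ∈ (L.map Prod.fst).map dec ∧ y.pt i ∈ (L.map Prod.fst).map dec)
    (p : WW) : ∑ e ∈ (L.map decP).toFinset with e.1 = p, f e = y.ind p - x.ind p := by
  by_cases hp : p ∈ (L.map Prod.fst).map dec
  · obtain ⟨n, hn, rfl⟩ := List.mem_map.1 hp
    rw [← H1 n hn, sum_dec L n ((L.filter fun e => e.1 = n).map Prod.snd), List.map_map]
    · congr 1
      refine List.map_congr_left fun e he => ?_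
      have : e.1 = n := by simpa using (List.mem_filter.1 he).2
      simp [decP, this]
    · refine ⟨fun e he h => List.mem_map.2 ⟨e, List.mem_filter.2 ⟨he, by simpa using h⟩, rfl⟩,
        fun u hu => ?_⟩
      obtain ⟨e, he, rfl⟩ := List.mem_map.1 hu
      have : e.1 = n := by simpa using (List.mem_filter.1 he).2
      rw [← this]; exact (List.mem_filter.1 he).1
    · refine (H2.filter _).map_on fun a ha b hb h => Prod.ext ?_ h
      have h1 : a.1 = n := by simpa using (List.mem_filter.1 ha).2
      have h2 : b.1 = n := by simpa using (List.mem_filter.1 hb).2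
      rw [h1, h2]
  · have h1 : ∀ z : (diagram ob z12).Gen, (∀ i, z.pt i ∈ (L.map Prod.fst).map dec) →
        z.ind p = 0 := by
      intro z hz
      by_contra h
      obtain ⟨i, hi⟩ := Gen.exists_of_ind h
      exact hp (hi ▸ hz i)
    rw [h1 x fun i => (H3 i).1, h1 y fun i => (H3 i).2, sub_zero]
    refine sum_eq_zero fun e he => ?_
    obtain ⟨h2, h3⟩ := mem_filter.1 he
    obtain ⟨f, hf, rfl⟩ := List.mem_map.1 (List.mem_toFinset.1 h2)
    exact absurd (List.mem_map.2 ⟨f.1, List.mem_map_of_mem hf, h3⟩) hp

theorem mem_dec {L : List (ℕ × ℕ)} {e : WW × WW} (h : (enc e.1, enc e.2) ∈ L)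
    (h1 : decP (enc e.1, enc e.2) = e) : e ∈ (L.map decP).toFinset :=
  List.mem_toFinset.2 (List.mem_map.2 ⟨_, h, h1⟩)

theorem rect_domain : IsDomain w12 eh12 rectD where
  supp _ he := rectD_zero he
  face a b c ht := by
    have := (presW z12).forall_tri (φ := fun a b c => lab12 (a, b) = lab12 (b, c))
      (by decide +kernel) ht
    rw [rectD_eq _ (mem_image.2 ⟨_, ht, rfl⟩),
      rectD_eq _ (mem_image.2 ⟨_, (surfW z12).rot _ _ _ ht, rfl⟩), this]
  flip e he := by
    have key : ∀ e ∈ rectS, e.swap ∈ rectS ∨ (e ∈ (diagram ob z12).cur ∧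
        e.swap ∈ (diagram ob z12).cur) := by
      intro e he
      have := (presW z12).forall_dart (φ := fun e => lab12 e = 0 →
        (e.1 ∈ dl stW e.2 ∧ lab12 e.swap = 0) ∨ ((enc e.1, enc e.2) ∈ al12 ++ be12 ∧
          (enc e.2, enc e.1) ∈ al12 ++ be12 ∧ decP (enc e.1, enc e.2) = e ∧
            decP (enc e.2, enc e.1) = e.swap)) (by decide +kernel) (rect_sub he)
          ((mem_rectS e).1 he).2
      rw [mem_rectS, cur_12]
      exact this.imp id fun h => ⟨mem_dec h.1 h.2.2.1, mem_dec h.2.1 h.2.2.2⟩
    have : e ∈ rectS ↔ e.swap ∈ rectS :=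
      ⟨fun h => (key e h).resolve_right fun h1 => he h1.1,
        fun h => (key _ h).resolve_right fun h1 => he h1.2⟩
    simp only [rectD, this]
  bdβ p := by
    rw [be_12]
    refine bd_sum _ ?_ (by decide +kernel) (by decide +kernel) p
    simp only [rectD_def]
    decide +kernel
  bdα p := by
    rw [al_12]
    refine bd_sum _ ?_ (by decide +kernel) (by decide +kernel) p
    simp only [rectD_def]
    decide +kernel

end Pool.Agent.Lib.MP_d97911_gt
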