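import Pool.Agent.Lib.MP_d97911_gt.Page

/-! The arcs and the Heegaard surface of the example. -/

namespace Pool.Agent.Lib.MP_d97911_gt

open Finset Relation

instance lawfulSum : LawfulBEq (ℕ ⊕ ℕ) where
  rfl := by rintro (a | a) <;> simp [BEq.beq, Sum.instBEq.beq]
  eq_of_beq := by rintro (a | a) (b | b) <;> simp [BEq.beq, Sum.instBEq.beq]

/-- Decoding of vertices of the Heegaard surface. -/
def dec (n : ℕ) : ℕ ⊕ ℕ := if n < 200 then Sum.inl n else Sum.inr (n - 200)

/-- Decoding of darts. -/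
def decP (e : ℕ × ℕ) : (ℕ ⊕ ℕ) × (ℕ ⊕ ℕ) := (dec e.1, dec e.2)

/-- Rotation lists of the Heegaard surface. -/
def stW : ℕ ⊕ ℕ → List (ℕ ⊕ ℕ) :=
  Sum.elim (fun v => (tbL.getD v []).map dec) (fun v => (tbT.getD v []).map dec)

/-- Vertices of the Heegaard surface. -/
def vsW : List (ℕ ⊕ ℕ) := vs.map Sum.inl ++ vs.map Sum.inr

/-- Explicit form of `top`. -/
def top' (v : ℕ) : ℕ ⊕ ℕ := if v < 18 then Sum.inl v else Sum.inr v

theorem ob_top : ob.top = top' := by
  funext v
  simp [POB.top, obEnds, top']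

/-- The three arcs. -/
def arcs : Arcs ℕ 3 := ⟨![la1, la2, la3], ![lb1, lb2, lb3], ![lc1, lc2, lc3], ![99, 100, 101]⟩

/-- Forgetting the copy. -/
def und : ℕ ⊕ ℕ → ℕ := Sum.elim id id

theorem suppW (v : ℕ ⊕ ℕ) (hv : v ∉ vsW) : stW v = [] := by
  rcases v with v | v
  · have : v ∉ vs := fun h1 => hv (List.mem_append_left _ (List.mem_map_of_mem h1))
    show (tbL.getD v []).map dec = []
    rw [getD_supp tbL (n := 102) (by decide +kernel) v this]; rfl
  · have : v ∉ vs := fun h1 => hv (List.mem_append_right _ (List.mem_map_of_mem h1))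
    show (tbT.getD v []).map dec = []
    rw [getD_supp tbT (n := 102) (by decide +kernel) v this]; rfl

theorem presW {g : ℕ} (Z : Arcs ℕ g) : Pres (diagram ob Z).T stW vsW := by
  refine ⟨fun p x y => ?_, suppW⟩
  · simp only [diagram, ob_top, mem_union, mem_image]
    constructor
    · rintro (⟨⟨a, b, c⟩, ht, h⟩ | ⟨⟨a, b, c⟩, ht, h⟩)
      · obtain ⟨rfl, h'⟩ := Prod.mk.inj h
        obtain ⟨rfl, rfl⟩ := Prod.mk.inj h'
        exact presS.forall_tri (φ := fun v a b => (Sum.inl v, Sum.inl b) ∈ pr stW (Sum.inl a))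
          (by decide +kernel) ht
      · obtain ⟨rfl, h'⟩ := Prod.mk.inj h
        obtain ⟨rfl, rfl⟩ := Prod.mk.inj h'
        exact presP.forall_tri (φ := fun v a b => (top' a, top' b) ∈ pr stW (top' v))
          (by decide +kernel) ht
    · intro h
      have hp : p ∈ vsW := by
        by_contra hv
        simp [pr, suppW p hv] at h
      have key : ∀ p ∈ vsW, ∀ q ∈ pr stW p,
          (p = Sum.inl (und p) ∧ q.1 = Sum.inl (und q.1) ∧ q.2 = Sum.inl (und q.2) ∧
            (und p, und q.2) ∈ pr (stOf tbS) (und q.1)) ∨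
          (p = top' (und p) ∧ q.1 = top' (und q.1) ∧ q.2 = top' (und q.2) ∧
            (und q.1, und q.2) ∈ pr (stOf tbP) (und p)) := by decide +kernel
      rcases key p hp _ h with ⟨h1, h2, h3, h4⟩ | ⟨h1, h2, h3, h4⟩
      · exact Or.inl ⟨(und x, und p, und y), (presS.mem _ _ _).2 h4,
          Prod.ext h1.symm (Prod.ext h2.symm h3.symm)⟩
      · exact Or.inr ⟨(und p, und x, und y), (presP.mem _ _ _).2 h4,
          Prod.ext h1.symm (Prod.ext h2.symm h3.symm)⟩

theorem surfW {g : ℕ} (Z : Arcs ℕ g) : IsSurf (diagram ob Z).T :=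
  (presW Z).isSurf (by decide +kernel) (by decide +kernel)

theorem isArc_of {X : Tri ℕ} {st : ℕ → List ℕ} (h : Pres X st vs) {L : List (ℕ × ℕ)}
    (hL : bdry X = L.toFinset) {l : List ℕ} (H1 : l.Nodup ∧ 2 ≤ l.length)
    (H2 : ∀ e ∈ l.zip l.tail ++ l.tail.zip l, e.2 ∈ dl st e.1)
    (H3 : ∀ v ∈ l, (v ∈ L.map Prod.fst ∨ v ∈ L.map Prod.snd) ↔
      (l.head? = some v ∨ l.getLast? = some v))
    (H4 : ∀ v ∈ l, (l.head? = some v ∨ l.getLast? = some v) →
      v ∈ edA.map Prod.fst ∧ v ∈ edA.map Prod.snd) : IsArc ob X l := by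
  refine ⟨H1.1, H1.2, fun e he => (h.dart e).2 (H2 e (by simpa [edges] using he)),
    fun v hv => ?_, fun v hv => ?_⟩
  · rw [← H3 v hv, hL]; simp [ends]
  · have hv' : v ∈ l := by
      rcases hv with h1 | h1
      · exact List.mem_of_mem_head? h1
      · exact List.mem_of_getLast? h1
    rw [obA]; simpa using H4 v hv' hv

theorem arcA (i : Fin 3) : IsArc ob ob.P (arcs.a i) := by
  fin_cases i <;> exact isArc_of presP bdryP (by decide +kernel) (by decide +kernel)
    (by decide +kernel) (by decide +kernel)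

theorem arcB (i : Fin 3) : IsArc ob ob.P (arcs.b i) := by
  fin_cases i <;> exact isArc_of presP bdryP (by decide +kernel) (by decide +kernel)
    (by decide +kernel) (by decide +kernel)

theorem arcC (i : Fin 3) : IsArc ob ob.Q (arcs.c i) := by
  fin_cases i <;> exact isArc_of presQ bdryQ (by decide +kernel) (by decide +kernel)
    (by decide +kernel) (by decide +kernel)

theorem arcs_disj (i j : Fin 3) (h : i ≠ j) : (arcs.a i).Disjoint (arcs.a j) ∧
    (arcs.b i).Disjoint (arcs.b j) ∧ (arcs.a i).Disjoint (arcs.b j) ∧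
    (arcs.c i).Disjoint (arcs.c j) := by
  have : ∀ i j : Fin 3, i ≠ j → (∀ v ∈ arcs.a i, v ∉ arcs.a j) ∧ (∀ v ∈ arcs.b i, v ∉ arcs.b j) ∧
      (∀ v ∈ arcs.a i, v ∉ arcs.b j) ∧ (∀ v ∈ arcs.c i, v ∉ arcs.c j) := by decide +kernel
  obtain ⟨h1, h2, h3, h4⟩ := this i j h
  exact ⟨fun v hv => h1 v hv, fun v hv => h2 v hv, fun v hv => h3 v hv, fun v hv => h4 v hv⟩

theorem arcs_meet (i : Fin 3) (v : ℕ) : (v ∈ arcs.a i ∧ v ∈ arcs.b i) ↔ v = arcs.x i := by
  have h1 : ∀ i : Fin 3, ∀ v ∈ arcs.a i, v ∈ arcs.b i → v = arcs.x i := by decide +kernel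
  have h2 : ∀ i : Fin 3, arcs.x i ∈ arcs.a i ∧ arcs.x i ∈ arcs.b i := by decide +kernel
  exact ⟨fun h => h1 i v h.1 h.2, fun h => h ▸ h2 i⟩

theorem arcs_push (i : Fin 3) : ∃ u v u' v', (u, v) ∈ ob.A ∧ (u', v') ∈ ob.A ∧
    (arcs.a i).head? = some u ∧ (arcs.b i).head? = some v ∧ (arcs.c i).head? = some v ∧
    (arcs.a i).getLast? = some u' ∧ (arcs.b i).getLast? = some v' ∧
    (arcs.c i).getLast? = some v' := by
  rw [obA]
  fin_cases i
  · exact ⟨15, 16, 1, 2, by decide +kernel⟩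
  · exact ⟨3, 4, 7, 8, by decide +kernel⟩
  · exact ⟨9, 10, 13, 14, by decide +kernel⟩

/-- The side of the `α` curve on which a neighbour lies. -/
def side (AL : List ((ℕ ⊕ ℕ) × (ℕ ⊕ ℕ))) (p x : ℕ ⊕ ℕ) : ℕ :=
  ((stW p).takeWhile (· ≠ x)).countP (fun y => decide ((p, y) ∈ AL)) % 2

theorem transverse_of {g : ℕ} (Z : Arcs ℕ g) {AL BE : List ((ℕ ⊕ ℕ) × (ℕ ⊕ ℕ))}
    {CR : List (ℕ ⊕ ℕ)} (hA : (diagram ob Z).al = AL.toFinset)
    (hB : (diagram ob Z).be = BE.toFinset) (hC : (diagram ob Z).crossings = CR.toFinset)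
    (H1 : ∀ e ∈ AL, e ∉ BE)
    (H2 : ∀ p ∈ CR, ∀ q ∈ pr stW p, (p, q.1) ∈ AL ∨ (p, q.2) ∈ AL ∨ side AL p q.1 = side AL p q.2)
    (H3 : ∀ p ∈ CR, ∀ e ∈ BE, e.1 = p → ∀ f ∈ BE, f.1 = p → side AL p e.2 = side AL p f.2 →
      e.2 = f.2) : (diagram ob Z).Transverse := by
  refine ⟨by rw [hA, hB, disjoint_left]; simpa using H1, fun p hp u v hu hv h => ?_⟩
  rw [hC, List.mem_toFinset] at hp
  rw [hB, List.mem_toFinset] at hu hv
  refine H3 p hp _ hu rfl _ hv rfl (eqvGen_inv (side AL p) ?_ h)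
  rintro x y ⟨h1, h2, h3⟩
  rw [hA, List.mem_toFinset] at h2 h3
  exact ((H2 p hp _ (((presW Z).mem _ _ _).1 h1)).resolve_left h2).resolve_left h3

theorem crossings_of {g : ℕ} (Z : Arcs ℕ g) {AL BE : List ((ℕ ⊕ ℕ) × (ℕ ⊕ ℕ))}
    {CR : List (ℕ ⊕ ℕ)} (hA : (diagram ob Z).al = AL.toFinset)
    (hB : (diagram ob Z).be = BE.toFinset)
    (H1 : ∀ p ∈ AL.map Prod.fst ++ AL.map Prod.snd,
      p ∈ BE.map Prod.fst ++ BE.map Prod.snd → p ∈ CR)
    (H2 : ∀ p ∈ CR, p ∈ AL.map Prod.fst ∧ p ∈ BE.map Prod.fst) :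
    (diagram ob Z).crossings = CR.toFinset := by
  have e : ∀ (L : List ((ℕ ⊕ ℕ) × (ℕ ⊕ ℕ))) p,
      p ∈ ends L.toFinset ↔ p ∈ L.map Prod.fst ++ L.map Prod.snd := by
    intro L p; simp [ends]
  ext p
  rw [Diagram.crossings, hA, hB, mem_inter, e, e, List.mem_toFinset]
  exact ⟨fun h => H1 p h.1 h.2, fun h =>
    ⟨List.mem_append_left _ (H2 p h).1, List.mem_append_left _ (H2 p h).2⟩⟩

/-- The first basis. -/
def z12 : Arcs ℕ 2 := arcs.sub ![0, 1]

/-- The second basis. -/
def z13 : Arcs ℕ 2 := arcs.sub ![0, 2]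

/-- The edges of a path, as a list. -/
def edL (l : List ℕ) : List (ℕ × ℕ) := l.zip l.tail ++ l.tail.zip l

theorem curve_eq {g : ℕ} (a b : Fin g → List ℕ) (L : List (ℕ × ℕ))
    (H1 : ∀ i, ∀ e ∈ edL (a i), e ∈ L) (H2 : ∀ i, ∀ e ∈ edL (b i),
      ((if e.1 < 18 then e.1 else e.1 + 200), (if e.2 < 18 then e.2 else e.2 + 200)) ∈ L)
    (H3 : ∀ e ∈ L, (e.1 < 200 ∧ e.2 < 200) ∨ ¬ ∃ i, e ∈ edL (a i))
    (H4 : ∀ e ∈ L, (∃ i, e ∈ edL (a i)) ∨ (decP e = (top' (e.1 % 200), top' (e.2 % 200)) ∧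
      ∃ i, (e.1 % 200, e.2 % 200) ∈ edL (b i))) :
    (univ.biUnion fun i => (edges (a i)).image (Prod.map Sum.inl Sum.inl) ∪
      (edges (b i)).image (Prod.map top' top')) = (L.map decP).toFinset := by
  have he : ∀ l e, e ∈ edges l ↔ e ∈ edL l := by intro l e; simp [edges, edL]
  have ht : ∀ v, dec (if v < 18 then v else v + 200) = top' v := by
    intro v
    unfold dec top'
    split_ifs with h1 h2 h3
    · rfl
    · omega
    · omega
    · simp
  ext e
  simp only [mem_biUnion, mem_univ, true_and, mem_union, mem_image, he, List.mem_toFinset,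
    List.mem_map]
  constructor
  · rintro ⟨i, ⟨f, hf, rfl⟩ | ⟨f, hf, rfl⟩⟩
    · refine ⟨f, H1 i f hf, ?_⟩
      have := (H3 f (H1 i f hf)).resolve_right fun h => h ⟨i, hf⟩
      simp [decP, dec, this.1, this.2, Prod.map]
    · exact ⟨_, H2 i f hf, by simp [decP, ht, Prod.map]⟩
  · rintro ⟨f, hf, rfl⟩
    rcases H4 f hf with ⟨i, hi⟩ | ⟨h1, i, hi⟩
    · have := (H3 f hf).resolve_right fun h => h ⟨i, hi⟩
      exact ⟨i, Or.inl ⟨f, hi, by simp [decP, dec, this.1, this.2, Prod.map]⟩⟩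
    · exact ⟨i, Or.inr ⟨_, hi, h1.symm⟩⟩

theorem al_123 : (diagram ob arcs).al = (al123.map decP).toFinset := by
  simp only [Diagram.al, diagram, ob_top]
  exact curve_eq _ _ _ (by decide +kernel) (by decide +kernel) (by decide +kernel)
    (by decide +kernel)
theorem be_123 : (diagram ob arcs).be = (be123.map decP).toFinset := by
  simp only [Diagram.be, diagram, ob_top]
  exact curve_eq _ _ _ (by decide +kernel) (by decide +kernel) (by decide +kernel)
    (by decide +kernel)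
theorem al_12 : (diagram ob z12).al = (al12.map decP).toFinset := by
  simp only [Diagram.al, diagram, ob_top]
  exact curve_eq _ _ _ (by decide +kernel) (by decide +kernel) (by decide +kernel)
    (by decide +kernel)
theorem be_12 : (diagram ob z12).be = (be12.map decP).toFinset := by
  simp only [Diagram.be, diagram, ob_top]
  exact curve_eq _ _ _ (by decide +kernel) (by decide +kernel) (by decide +kernel)
    (by decide +kernel)
theorem al_13 : (diagram ob z13).al = (al13.map decP).toFinset := by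
  simp only [Diagram.al, diagram, ob_top]
  exact curve_eq _ _ _ (by decide +kernel) (by decide +kernel) (by decide +kernel)
    (by decide +kernel)
theorem be_13 : (diagram ob z13).be = (be13.map decP).toFinset := by
  simp only [Diagram.be, diagram, ob_top]
  exact curve_eq _ _ _ (by decide +kernel) (by decide +kernel) (by decide +kernel)
    (by decide +kernel)
theorem cr_123 : (diagram ob arcs).crossings = (cr123.map dec).toFinset :=
  crossings_of _ al_123 be_123 (by decide +kernel) (by decide +kernel)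
theorem cr_12 : (diagram ob z12).crossings = (cr12.map dec).toFinset :=
  crossings_of _ al_12 be_12 (by decide +kernel) (by decide +kernel)
theorem cr_13 : (diagram ob z13).crossings = (cr13.map dec).toFinset :=
  crossings_of _ al_13 be_13 (by decide +kernel) (by decide +kernel)

theorem arcs_valid : arcs.Valid ob :=
  ⟨arcA, arcB, arcC, arcs_disj, arcs_meet, arcs_push, surfW _,
    transverse_of _ al_123 be_123 cr_123 (by decide +kernel) (by decide +kernel)
      (by decide +kernel)⟩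

theorem z12_valid : z12.Valid ob :=
  ⟨fun _ => arcA _, fun _ => arcB _, fun _ => arcC _,
    fun i j h => arcs_disj _ _ (by revert i j; decide), fun _ => arcs_meet _, fun _ => arcs_push _,
    surfW _, transverse_of _ al_12 be_12 cr_12 (by decide +kernel) (by decide +kernel)
      (by decide +kernel)⟩

theorem z13_valid : z13.Valid ob :=
  ⟨fun _ => arcA _, fun _ => arcB _, fun _ => arcC _,
    fun i j h => arcs_disj _ _ (by revert i j; decide), fun _ => arcs_meet _, fun _ => arcs_push _,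
    surfW _, transverse_of _ al_13 be_13 cr_13 (by decide +kernel) (by decide +kernel)
      (by decide +kernel)⟩

end Pool.Agent.Lib.MP_d97911_gt
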