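import Pool.Agent.Lib.MP_d97911_gt.Rect

/-! The first basis has algebraic torsion zero. -/

namespace Pool.Agent.Lib.MP_d97911_gt

open Finset Relation Diagram

theorem vsW_nodup : vsW.Nodup := by
  refine List.Nodup.append (vs_nodup.map Sum.inl_injective) (vs_nodup.map Sum.inr_injective) ?_
  intro a h1 h2
  obtain ⟨u, -, rfl⟩ := List.mem_map.1 h1
  obtain ⟨v, -, h⟩ := List.mem_map.1 h2
  cases h

theorem mem_dec_iff {L : List (ℕ × ℕ)} {e : WW × WW} (h1 : decP (enc e.1, enc e.2) = e) :
    e ∈ (L.map decP).toFinset ↔ (enc e.1, enc e.2) ∈ L :=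
  ⟨fun h => by_contra fun h2 => notMem_dec h2 h, fun h => mem_dec h h1⟩

theorem dart_dec {e : WW × WW} (he : e ∈ darts (diagram ob z12).T) :
    decP (enc e.1, enc e.2) = e ∧ e.1 ∈ vsW := by
  refine ⟨(presW z12).forall_dart (φ := fun e => decP (enc e.1, enc e.2) = e)
    (by decide +kernel) he, ?_⟩
  exact (presW z12).forall_dart (φ := fun e => e.1 ∈ vsW) (fun v hv _ _ => hv) he

theorem rect_chi : (diagram ob z12).chiD rectD = 1 := by
  have := chiD_ind (H := diagram ob z12) _ rect_sub
  rw [show rectD = fun e => if e ∈ rectS then 1 else 0 from rfl, this]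
  have h1 : rectS.card = 240 := by
    rw [Pres.card_fib rectS vsW_nodup (fun v => (dl stW v).filter fun a => lab12 (v, a) = 0)]
    · decide +kernel
    · intro v b
      refine ⟨fun h => ⟨(dart_dec (rect_sub h)).2, ?_⟩, fun h => ?_⟩
      · simpa using (mem_rectS _).1 h
      · rw [mem_rectS]; simpa using h.2
  have h2 : (rectS \ (diagram ob z12).cur).card = 194 := by
    rw [Pres.card_fib _ vsW_nodup (fun v => (dl stW v).filter fun a =>
      lab12 (v, a) = 0 ∧ (enc v, enc a) ∉ al12 ++ be12)]
    · decide +kernel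
    · intro v b
      rw [mem_sdiff, cur_12, List.mem_filter, decide_eq_true_eq]
      refine ⟨fun h => ⟨(dart_dec (rect_sub h.1)).2, ((mem_rectS _).1 h.1).1,
        ((mem_rectS _).1 h.1).2, fun h3 => h.2 (mem_dec h3 (dart_dec (rect_sub h.1)).1)⟩,
        fun h => ⟨(mem_rectS _).2 ⟨h.2.1, h.2.2.1⟩, notMem_dec h.2.2.2⟩⟩
  have h3 : (rectS.image Prod.fst \ ends (diagram ob z12).cur).card = 18 := by
    have e : rectS.image Prod.fst \ ends (diagram ob z12).cur =
        (vsW.filter fun v => (∃ a ∈ dl stW v, lab12 (v, a) = 0) ∧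
          enc v ∉ (al12 ++ be12).map Prod.fst ++ (al12 ++ be12).map Prod.snd).toFinset := by
      have hk : ∀ v, dec (enc v) = v → (v ∈ ends (diagram ob z12).cur ↔
          enc v ∈ (al12 ++ be12).map Prod.fst ++ (al12 ++ be12).map Prod.snd) := by
        intro v hv
        rw [cur_12]
        generalize al12 ++ be12 = L
        simp only [ends, mem_union, mem_image, List.mem_toFinset, List.mem_map, List.mem_append]
        constructor
        · rintro (⟨_, ⟨f, hf, rfl⟩, rfl⟩ | ⟨_, ⟨f, hf, rfl⟩, rfl⟩)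
          · exact Or.inl ⟨f, hf, by simp [decP, enc_dec]⟩
          · exact Or.inr ⟨f, hf, by simp [decP, enc_dec]⟩
        · rintro (⟨f, hf, h⟩ | ⟨f, hf, h⟩)
          · exact Or.inl ⟨_, ⟨f, hf, rfl⟩, by simp [decP, h, hv]⟩
          · exact Or.inr ⟨_, ⟨f, hf, rfl⟩, by simp [decP, h, hv]⟩
      ext v
      simp only [mem_sdiff, mem_image, List.mem_toFinset, List.mem_filter, decide_eq_true_eq]
      constructor
      · rintro ⟨⟨e, he, rfl⟩, h⟩
        have h4 := dart_dec (rect_sub he)
        exact ⟨h4.2, ⟨e.2, (mem_rectS e).1 he⟩, by rwa [← hk _ (congrArg Prod.fst h4.1)]⟩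
      · rintro ⟨-, ⟨a, ha⟩, h⟩
        have he : (v, a) ∈ rectS := (mem_rectS _).2 ha
        exact ⟨⟨_, he, rfl⟩, by rwa [hk _ (congrArg Prod.fst (dart_dec (rect_sub he)).1)]⟩
    rw [e, List.toFinset_card_of_nodup (vsW_nodup.filter _)]
    decide +kernel
  rw [h1, h2, h3]
  norm_num

theorem c21 : (diagram ob z12).corner rectD (dec 21) = 0 := by
  rw [corner_eq (lab := lab12) (d := fun k => if k = 0 then 1 else 0) rectD_eq cur_12
    21 [3, 20, 2, 23] [3, 2, 2, 1]
    (by decide +kernel)]; norm_num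
theorem c58 : (diagram ob z12).corner rectD (dec 58) = 0 := by
  rw [corner_eq (lab := lab12) (d := fun k => if k = 0 then 1 else 0) rectD_eq cur_12
    58 [59, 57, 62, 54] [1, 2, 3, 2]
    (by decide +kernel)]; norm_num
theorem c59 : (diagram ob z12).corner rectD (dec 59) = 1 / 4 := by
  rw [corner_eq (lab := lab12) (d := fun k => if k = 0 then 1 else 0) rectD_eq cur_12
    59 [58, 60, 55, 63] [3, 3, 1, 0]
    (by decide +kernel)]; norm_num
theorem c75 : (diagram ob z12).corner rectD (dec 75) = 1 / 4 := by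
  rw [corner_eq (lab := lab12) (d := fun k => if k = 0 then 1 else 0) rectD_eq cur_12
    75 [74, 76, 79, 71] [3, 2, 0, 2]
    (by decide +kernel)]; norm_num
theorem c299 : (diagram ob z12).corner rectD (dec 299) = 1 / 4 := by
  rw [corner_eq (lab := lab12) (d := fun k => if k = 0 then 1 else 0) rectD_eq cur_12
    299 [218, 257, 219, 261] [2, 0, 3, 2]
    (by decide +kernel)]; norm_num
theorem c300 : (diagram ob z12).corner rectD (dec 300) = 1 / 4 := by
  rw [corner_eq (lab := lab12) (d := fun k => if k = 0 then 1 else 0) rectD_eq cur_12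
    300 [220, 276, 222, 280] [1, 0, 3, 3]
    (by decide +kernel)]; norm_num

theorem rect_corners : ∑ p ∈ (diagram ob z12).crossings, (diagram ob z12).corner rectD p = 1 := by
  rw [cr_12, List.sum_toFinset _ (by decide +kernel)]
  simp only [cr12, List.map_cons, List.map_nil, List.sum_cons, List.sum_nil, c21, c58, c59, c75,
    c299, c300]
  norm_num

theorem rect_n : w12.n rectD + eh12.n rectD = 1 := by
  rw [Gen.n, Gen.n, Fin.sum_univ_two, Fin.sum_univ_two, show w12.pt 0 = dec 59 from rfl,
    show w12.pt 1 = dec 75 from rfl, show eh12.pt 0 = dec 299 from rfl,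
    show eh12.pt 1 = dec 300 from rfl, c59, c75, c299, c300]
  norm_num

theorem rect_maslov : maslov w12 eh12 rectD = 1 := by
  rw [maslov, euler, rect_chi, rect_corners, add_assoc, rect_n]; norm_num

theorem rect_J : Jplus w12 eh12 rectD = 0 := by
  rw [Jplus, rect_n, cyc_swap w12 rfl, cyc_one eh12 rfl]; norm_num

theorem rect_isRect : (diagram ob z12).IsRectangle rectD := by
  refine ⟨fun e => by rw [rectD]; split_ifs <;> simp, fun e f he hf => ?_, rect_chi, rect_corners,
    fun p hp => ?_⟩
  · have key : ∀ e, rectD e = 1 → EqvGen (Step (diagram ob z12).T (diagram ob z12).cur) e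
        (decP (rt12.getD 0 (0, 0))) := by
      intro e he
      have h1 : e ∈ rectS := by
        by_contra h; simp [rectD, h] at he
      have h2 := root12 (rect_sub h1)
      rwa [((mem_rectS e).1 h1).2] at h2
    exact (key e he).trans _ _ _ ((key f hf).symm _ _)
  · rw [cr_12, List.mem_toFinset] at hp
    simp only [cr12, List.map_cons, List.map_nil, List.mem_cons, List.not_mem_nil, or_false] at hp
    rcases hp with rfl | rfl | rfl | rfl | rfl | rfl <;>
      simp only [c21, c58, c59, c75, c299, c300] <;> norm_num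

theorem AT12 (cnt : (diagram ob z12).Count) (h : CountsRectangles cnt) : AT cnt eh12 = 0 := by
  classical
  rw [AT_eq_zero_iff]
  refine ⟨Pi.single w12 1, funext fun y => ?_⟩
  rw [bd, finsum_eq_single _ w12 fun x hx => by simp [hx], Pi.single_eq_same, one_mul]
  by_cases hy : y = eh12
  · subst hy
    have : {D | IsDomain w12 eh12 D ∧ maslov w12 eh12 D = 1 ∧
        Jplus w12 eh12 D = 2 * ((0 : ℕ) : ℚ)} = {rectD} := by
      ext D
      refine ⟨fun hD => (unique12 _ D hD.1 hD.2.1).2, ?_⟩
      rintro rfl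
      exact ⟨rect_domain, rect_maslov, by simpa using rect_J⟩
    rw [this, finsum_mem_singleton, h _ _ _ rect_domain rect_maslov rect_isRect]
    simp
  · have : {D | IsDomain w12 y D ∧ maslov w12 y D = 1 ∧
        Jplus w12 y D = 2 * ((0 : ℕ) : ℚ)} = ∅ :=
      Set.eq_empty_of_forall_notMem fun D hD => hy (unique12 _ D hD.1 hD.2.1).1
    rw [this, finsum_mem_empty]
    simp [hy]

end Pool.Agent.Lib.MP_d97911_gt
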